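import Pool.Agent.Lib.MP_b83a82_al.Strong

namespace MP_b83a82_al.H82

open Module
open scoped commutatorElement

universe u

/-- the affine representation attached to a crossed homomorphism, additive form. -/
private theorem aff_lin (p : ℕ) [Fact p.Prime] {Γ : Type u} [Group Γ] [Finite Γ] {V : Type u}
    [AddCommGroup V] [Module (ZMod p) V] [Finite V] (σ : Γ → (V →ₗ[ZMod p] V)) (C : Γ → V)
    (hσ1 : ∀ x, σ 1 x = x) (hσm : ∀ g h x, σ (g * h) x = σ g (σ h x))
    (hCm : ∀ g h, C (g * h) = C g + σ g (C h)) (hs : Function.Surjective C) :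
    ∃ (W : Type u) (_ : AddCommGroup W) (_ : Module (ZMod p) W) (_ : Finite W)
      (ρ : Γ →* Module.End (ZMod p) W),
      Nat.card W = p * Nat.card V ∧ Nat.card V ≤ ρ.ker.index := by
  classical
  have hp : p.Prime := Fact.out
  have : NeZero p := ⟨hp.ne_zero⟩
  have hC1 : C 1 = 0 := by
    have h2 := hCm 1 1
    rw [mul_one, hσ1] at h2
    exact left_eq_add.mp h2
  let ρf : Γ → Module.End (ZMod p) (V × ZMod p) := fun g =>
    LinearMap.prod ((σ g).comp (LinearMap.fst (ZMod p) V (ZMod p)) +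
      (LinearMap.toSpanSingleton (ZMod p) V (C g)).comp
        (LinearMap.snd (ZMod p) V (ZMod p))) (LinearMap.snd (ZMod p) V (ZMod p))
  have hρf : ∀ g v t, ρf g (v, t) = (σ g v + t • C g, t) := fun g v t => rfl
  let ρ : Γ →* Module.End (ZMod p) (V × ZMod p) :=
    { toFun := ρf
      map_one' := by
        refine LinearMap.ext fun x => ?_
        obtain ⟨v, t⟩ := x
        rw [hρf, hσ1, hC1, smul_zero, add_zero]
        rfl
      map_mul' := by
        intro g h
        refine LinearMap.ext fun x => ?_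
        obtain ⟨v, t⟩ := x
        change ρf (g * h) (v, t) = ρf g (ρf h (v, t))
        rw [hρf, hρf, hρf, hσm, hCm, map_add, map_smul, smul_add]
        congr 1
        abel }
  have hρ : ∀ g v t, ρ g (v, t) = (σ g v + t • C g, t) := hρf
  have hcρ : ∀ g h, ρ g = ρ h → C g = C h := by
    intro g h hgh
    have h2 := congrArg (fun f : Module.End (ZMod p) (V × ZMod p) => (f (0, 1)).1) hgh
    simp only [hρ, map_zero, one_smul, zero_add] at h2
    exact h2
  refine ⟨V × ZMod p, inferInstance, inferInstance, inferInstance, ρ, ?_, ?_⟩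
  · rw [Nat.card_prod, Nat.card_zmod, mul_comm]
  · rw [Subgroup.index_eq_card]
    refine Nat.card_le_card_of_surjective (fun q : Γ ⧸ ρ.ker => C q.out) ?_
    intro x
    obtain ⟨g, rfl⟩ := hs x
    refine ⟨QuotientGroup.mk g, ?_⟩
    apply hcρ
    have h3 : (QuotientGroup.mk ((QuotientGroup.mk g : Γ ⧸ ρ.ker).out) : Γ ⧸ ρ.ker) =
        QuotientGroup.mk g := Quotient.out_eq _
    rw [QuotientGroup.eq, MonoidHom.mem_ker, map_mul] at h3
    calc ρ (QuotientGroup.mk g : Γ ⧸ ρ.ker).out
        = ρ (QuotientGroup.mk g : Γ ⧸ ρ.ker).out *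
          (ρ ((QuotientGroup.mk g : Γ ⧸ ρ.ker).out)⁻¹ * ρ g) := by rw [h3, mul_one]
      _ = ρ g := by rw [← mul_assoc, ← map_mul, mul_inv_cancel, map_one, one_mul]

/-- the affine representation attached to a crossed homomorphism. -/
private theorem aff_abs (p : ℕ) [Fact p.Prime] {Γ : Type u} [Group Γ] [Finite Γ] {Q : Type u}
    [CommGroup Q] [Finite Q] (hQ : ∀ x : Q, x ^ p = 1) (act : Γ → (Q →* Q))
    (h1 : ∀ x, act 1 x = x) (hmul : ∀ g h x, act (g * h) x = act g (act h x)) (c : Γ → Q)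
    (hc : ∀ g h, c (g * h) = c g * act g (c h)) (hs : Function.Surjective c) :
    ∃ (V : Type u) (_ : AddCommGroup V) (_ : Module (ZMod p) V) (_ : Finite V)
      (ρ : Γ →* Module.End (ZMod p) V),
      Nat.card V = p * Nat.card Q ∧ Nat.card Q ≤ ρ.ker.index := by
  have hx : ∀ x : Additive Q, p • x = 0 := fun x => congrArg Additive.ofMul (hQ x.toMul)
  let _ : Module (ZMod p) (Additive Q) := AddCommGroup.zmodModule hx
  exact aff_lin p (V := Additive Q)
    (fun g => AddMonoidHom.toZModLinearMap p (MonoidHom.toAdditive (act g)))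
    (fun g => Additive.ofMul (c g)) (fun x => congrArg Additive.ofMul (h1 x.toMul))
    (fun g h x => congrArg Additive.ofMul (hmul g h x.toMul))
    (fun g h => congrArg Additive.ofMul (hc g h))
    (fun x => by
      obtain ⟨g, hg⟩ := hs x.toMul
      exact ⟨g, congrArg Additive.ofMul hg⟩)

/-- [RK82 T1] the affine action.  `G = A B`, `Y ≤ X` normal, `X / Y` elementary abelian,
`D = Y ⊔ (X ⊓ B)`, `A1 = A ⊓ (X ⊔ B)`.  `V = (X / D) × ZMod p` (additively).  For `g ∈ A1` write
`g = x b` with `x ∈ X`, `b ∈ B` and put `c g = x D` (well defined: `x b = x' b'` gives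
`x'⁻¹ x = b' b⁻¹ ∈ X ⊓ B`); `c (g g') = c g * (g • c g')` where `g` acts on `X / D` by conjugation
(`D` is normalized by `X ⊔ B`; `b x' b⁻¹ ≡ g x' g⁻¹` modulo `Y`).  `ρ g (v, t) = (g • v + t • c g, t)`.
Every `x ∈ X` is `a b` with `a ∈ A`, `b ∈ B`, so `a ∈ A1` and `c a = x D`: `c` is onto, and `c g`
depends only on `ρ g`; so `|X : D| ≤ ρ.ker.index`. -/
theorem aff_rep (p : ℕ) [Fact p.Prime] {G : Type u} [Group G] [Finite G] {A B : Subgroup G}
    (hAB : ∀ g : G, ∃ a ∈ A, ∃ b ∈ B, a * b = g) {Y X : Subgroup G} (hY : Y.Normal)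
    (hX : X.Normal) (hS : ElSec p Y X) :
    ∃ (V : Type u) (_ : AddCommGroup V) (_ : Module (ZMod p) V) (_ : Finite V)
      (ρ : ↥(A ⊓ (X ⊔ B)) →* Module.End (ZMod p) V),
      Nat.card V = p * (Y ⊔ (X ⊓ B)).relIndex X ∧
        (Y ⊔ (X ⊓ B)).relIndex X ≤ ρ.ker.index := by
  classical
  obtain ⟨D, hD⟩ : ∃ D, D = Y ⊔ (X ⊓ B) := ⟨_, rfl⟩
  rw [← hD]
  have hYD : Y ≤ D := hD ▸ le_sup_left
  have hXBD : X ⊓ B ≤ D := hD ▸ le_sup_right
  have hDX : D ≤ X := hD ▸ sup_le hS.1 inf_le_left
  have hmemD : ∀ d ∈ D, ∃ y ∈ Y, ∃ z ∈ X ⊓ B, y * z = d := by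
    intro d hd
    rw [hD] at hd
    exact (Subgroup.mem_sup_of_normal_left).mp hd
  have hconjX : ∀ x ∈ X, ∀ d ∈ D, x * d * x⁻¹ ∈ D := by
    intro x hx d hd
    have h1 := hYD (hS.2.2 x hx d (hDX hd))
    have h2 := D.mul_mem h1 hd
    have e : ⁅x, d⁆ * d = x * d * x⁻¹ := by rw [commutatorElement_def]; group
    rwa [e] at h2
  have hconjB : ∀ b ∈ B, ∀ d ∈ D, b * d * b⁻¹ ∈ D := by
    intro b hb d hd
    obtain ⟨y, hy, z, hz, rfl⟩ := hmemD d hd
    have e : b * (y * z) * b⁻¹ = (b * y * b⁻¹) * (b * z * b⁻¹) := by group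
    rw [e]
    refine D.mul_mem (hYD (hY.conj_mem y hy b)) (hXBD ⟨hX.conj_mem z hz.1 b, ?_⟩)
    exact B.mul_mem (B.mul_mem hb hz.2) (B.inv_mem hb)
  have hdec : ∀ g ∈ X ⊔ B, ∃ x ∈ X, ∃ b ∈ B, x * b = g := by
    intro g hg
    exact (Subgroup.mem_sup_of_normal_left).mp hg
  have hconj : ∀ g ∈ X ⊔ B, ∀ d ∈ D, g * d * g⁻¹ ∈ D := by
    intro g hg d hd
    obtain ⟨x, hx, b, hb, rfl⟩ := hdec g hg
    have e : x * b * d * (x * b)⁻¹ = x * (b * d * b⁻¹) * x⁻¹ := by group
    rw [e]
    exact hconjX x hx _ (hconjB b hb d hd)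
  have hDn : (D.subgroupOf X).Normal := by
    constructor
    rintro ⟨d, hdX⟩ hd ⟨x, hx⟩
    rw [Subgroup.mem_subgroupOf] at hd ⊢
    exact hconjX x hx d hd
  -- the quotient
  let _ : CommGroup (X ⧸ D.subgroupOf X) :=
    { (inferInstance : Group (X ⧸ D.subgroupOf X)) with
      mul_comm := by
        intro a b
        induction a using QuotientGroup.induction_on with
        | H a =>
        induction b using QuotientGroup.induction_on with
        | H b =>
          change (QuotientGroup.mk (a * b) : X ⧸ D.subgroupOf X) = QuotientGroup.mk (b * a)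
          rw [QuotientGroup.eq, Subgroup.mem_subgroupOf]
          have h1 := hS.2.2 ((b : G)⁻¹) (X.inv_mem b.2) ((a : G)⁻¹) (X.inv_mem a.2)
          have e : (((a * b)⁻¹ * (b * a) : X) : G) = ⁅(b : G)⁻¹, (a : G)⁻¹⁆ := by
            simp only [commutatorElement_def, Subgroup.coe_mul, Subgroup.coe_inv]
            group
          rw [e]
          exact hYD h1 }
  have hQ : ∀ x : X ⧸ D.subgroupOf X, x ^ p = 1 := by
    intro x
    induction x using QuotientGroup.induction_on with
    | H x =>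
      change (QuotientGroup.mk (x ^ p) : X ⧸ D.subgroupOf X) = 1
      rw [QuotientGroup.eq_one_iff, Subgroup.mem_subgroupOf]
      exact hYD (hS.2.1 _ x.2)
  -- decomposition
  have hdec' : ∀ g : ↥(A ⊓ (X ⊔ B)), ∃ x : X, ∃ b ∈ B, (x : G) * b = g := by
    intro g
    obtain ⟨x, hx, b, hb, h⟩ := hdec g.1 g.2.2
    exact ⟨⟨x, hx⟩, b, hb, h⟩
  choose xs bs hbs hxb using hdec'
  have hwd : ∀ (x x' : X) (b b' : G), b ∈ B → b' ∈ B → (x : G) * b = x' * b' →
      (QuotientGroup.mk x : X ⧸ D.subgroupOf X) = QuotientGroup.mk x' := by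
    intro x x' b b' hb hb' h
    rw [QuotientGroup.eq, Subgroup.mem_subgroupOf]
    have e : ((x⁻¹ * x' : X) : G) = b * b'⁻¹ := by
      rw [Subgroup.coe_mul, Subgroup.coe_inv]
      have : (x' : G) = x * b * b'⁻¹ := by rw [h]; group
      rw [this]; group
    rw [e]
    refine hXBD ⟨?_, B.mul_mem hb (B.inv_mem hb')⟩
    rw [← e]
    exact (x⁻¹ * x').2
  let act : ↥(A ⊓ (X ⊔ B)) → ((X ⧸ D.subgroupOf X) →* (X ⧸ D.subgroupOf X)) := fun g =>
    QuotientGroup.map (D.subgroupOf X) (D.subgroupOf X)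
      (MulEquiv.toMonoidHom (MulAut.conjNormal (H := X) (g : G))) (by
        rintro ⟨d, hdX⟩ hd
        rw [Subgroup.mem_comap, Subgroup.mem_subgroupOf]
        rw [Subgroup.mem_subgroupOf] at hd
        have : ((MulEquiv.toMonoidHom (MulAut.conjNormal (H := X) (g : G)) ⟨d, hdX⟩ : X) : G) =
            g * d * (g : G)⁻¹ := MulAut.conjNormal_apply _ _
        rw [this]
        exact hconj g.1 g.2.2 d hd)
  have hact : ∀ g (x : X), act g (QuotientGroup.mk x) =
      QuotientGroup.mk (MulAut.conjNormal (H := X) (g : G) x) := fun g x => rfl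
  obtain ⟨V, iV1, iV2, iV3, ρ, hV, hρ⟩ := aff_abs p (Γ := ↥(A ⊓ (X ⊔ B)))
    (Q := X ⧸ D.subgroupOf X) hQ act
    (by
      intro x
      induction x using QuotientGroup.induction_on with
      | H x =>
        rw [hact]
        congr 1
        apply Subtype.ext
        rw [MulAut.conjNormal_apply]
        simp)
    (by
      intro g h x
      induction x using QuotientGroup.induction_on with
      | H x =>
        rw [hact, hact, hact]
        congr 1
        apply Subtype.ext
        rw [MulAut.conjNormal_apply, MulAut.conjNormal_apply, MulAut.conjNormal_apply]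
        rw [Subgroup.coe_mul]
        group)
    (fun g => QuotientGroup.mk (xs g))
    (by
      intro g h
      have h1 : (QuotientGroup.mk (xs (g * h)) : X ⧸ D.subgroupOf X) =
          QuotientGroup.mk (xs g * MulAut.conjNormal (H := X) (bs g) (xs h)) := by
        refine hwd _ _ (bs (g * h)) (bs g * bs h) (hbs _) (B.mul_mem (hbs g) (hbs h)) ?_
        rw [hxb, Subgroup.coe_mul, Subgroup.coe_mul, MulAut.conjNormal_apply, ← hxb g, ← hxb h]
        group
      have h2 : (QuotientGroup.mk (MulAut.conjNormal (H := X) (bs g) (xs h)) :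
          X ⧸ D.subgroupOf X) = QuotientGroup.mk (MulAut.conjNormal (H := X) (g : G) (xs h)) := by
        rw [QuotientGroup.eq, Subgroup.mem_subgroupOf]
        have h3 := hS.2.2 (((MulAut.conjNormal (H := X) (bs g) (xs h) : X) : G)⁻¹)
          (X.inv_mem (MulAut.conjNormal (H := X) (bs g) (xs h)).2) (xs g : G) (xs g).2
        have e : (((MulAut.conjNormal (H := X) (bs g) (xs h))⁻¹ *
            MulAut.conjNormal (H := X) (g : G) (xs h) : X) : G) =
            ⁅((MulAut.conjNormal (H := X) (bs g) (xs h) : X) : G)⁻¹, (xs g : G)⁆ := by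
          rw [commutatorElement_def, Subgroup.coe_mul, Subgroup.coe_inv, MulAut.conjNormal_apply,
            MulAut.conjNormal_apply, ← hxb g]
          group
        rw [e]
        exact hYD h3
      rw [h1, hact, ← h2]
      rfl)
    (by
      intro q
      induction q using QuotientGroup.induction_on with
      | H x =>
        obtain ⟨a, ha, b, hb, hab⟩ := hAB x
        have ha2 : a ∈ X ⊔ B := by
          have : a = x * b⁻¹ := by rw [← hab]; group
          rw [this]
          exact (X ⊔ B).mul_mem (le_sup_left (a := X) x.2) (le_sup_right (a := X) (B.inv_mem hb))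
        refine ⟨⟨a, ha, ha2⟩, ?_⟩
        refine hwd _ _ (bs ⟨a, ha, ha2⟩) b⁻¹ (hbs _) (B.inv_mem hb) ?_
        rw [hxb]
        change a = x * b⁻¹
        rw [← hab]; group)
  refine ⟨V, iV1, iV2, iV3, ρ, ?_, ?_⟩
  · rw [hV]
    rfl
  · rw [Subgroup.relIndex, Subgroup.index_eq_card]
    exact hρ

end MP_b83a82_al.H82
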