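import Mathlib

/-! Generic kernel lemma over an infinite field. -/

namespace MP_b83a82_al.H82

open Module

/-- [RK82 E1] semicontinuity of the rank in a linear pencil.
Proof: `r = finrank (range P)`; choose `v i` (`i : Fin r`) with `P (v i)` a basis of `range P` and
functionals `φ j : W →ₗ K` with `φ j (P (v i)) = δ i j`.  The matrix `(φ j ((P + t Q) (v i)))` is
`1 + t B`, and `det (1 + t B)` is a polynomial in `t` with value `1` at `0`
(`Matrix.charpolyRev`, `Matrix.eval_charpolyRev`), so it is nonzero for all but finitely many `t`;
when it is nonzero the vectors `(P + t Q) (v i)` are linearly independent. -/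
theorem semicont {K : Type*} [Field K] {V W : Type*} [AddCommGroup V] [Module K V]
    [AddCommGroup W] [Module K W] [FiniteDimensional K V] [FiniteDimensional K W]
    (P Q : V →ₗ[K] W) :
    {t : K | finrank K (LinearMap.range (P + t • Q)) < finrank K (LinearMap.range P)}.Finite := by
  classical
  obtain ⟨r, hr⟩ : ∃ r, r = finrank K (LinearMap.range P) := ⟨_, rfl⟩
  let b : Basis (Fin r) K (LinearMap.range P) := finBasisOfFinrankEq K _ hr.symm
  have hv : ∀ i : Fin r, ∃ v : V, P v = b i := fun i => (b i).2
  choose v hv using hv
  have hφ : ∀ j : Fin r, ∃ φ : W →ₗ[K] K, φ ∘ₗ (LinearMap.range P).subtype = b.coord j :=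
    fun j => LinearMap.exists_extend (b.coord j)
  choose φ hφ using hφ
  have hφ' : ∀ i j, φ j (P (v i)) = if i = j then 1 else 0 := by
    intro i j
    rw [hv i]
    have h1 : φ j ((b i : LinearMap.range P) : W) = b.coord j (b i) := by
      rw [← hφ j]; rfl
    rw [h1, Basis.coord_apply, Basis.repr_self, Finsupp.single_apply]
  let B : Matrix (Fin r) (Fin r) K := Matrix.of fun i j => φ j (Q (v i))
  let M : Matrix (Fin r) (Fin r) (Polynomial K) := 1 + (Polynomial.X : Polynomial K) • B.map Polynomial.C
  let N : K → Matrix (Fin r) (Fin r) K := fun t => Matrix.of fun i j => φ j ((P + t • Q) (v i))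
  have hev : ∀ t : K, Polynomial.eval t M.det = (N t).det := by
    intro t
    have h1 : Polynomial.eval t M.det = ((Polynomial.evalRingHom t).mapMatrix M).det := by
      rw [← RingHom.map_det]; rfl
    rw [h1]
    congr 1
    ext i j
    simp only [RingHom.mapMatrix_apply, Matrix.map_apply, M, N, Matrix.of_apply, Matrix.add_apply,
      Matrix.smul_apply, LinearMap.add_apply, LinearMap.smul_apply, map_add, map_smul, smul_eq_mul,
      hφ', B, Polynomial.coe_evalRingHom, Polynomial.eval_mul, Polynomial.eval_X,
      Polynomial.eval_C, Matrix.one_apply]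
    split_ifs <;> simp
  have h0 : M.det ≠ 0 := by
    intro h
    have h2 := hev 0
    rw [h, Polynomial.eval_zero] at h2
    have h3 : N 0 = 1 := by
      ext i j
      simp only [N, Matrix.of_apply, zero_smul, add_zero, hφ', Matrix.one_apply]
    rw [h3, Matrix.det_one] at h2
    exact zero_ne_one h2
  refine (M.det.roots.toFinset.finite_toSet).subset ?_
  intro t ht
  replace ht : finrank K (LinearMap.range (P + t • Q)) < finrank K (LinearMap.range P) := ht
  rw [Finset.mem_coe, Multiset.mem_toFinset, Polynomial.mem_roots h0, Polynomial.IsRoot.def]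
  by_contra hne
  rw [hev t] at hne
  have hli : LinearIndependent K (fun i : Fin r => (P + t • Q) (v i)) := by
    rw [Fintype.linearIndependent_iff]
    intro g hg
    have h4 : Matrix.vecMul g (N t) = 0 := by
      funext j
      have h5 := congrArg (φ j) hg
      rw [map_sum, map_zero] at h5
      simp only [map_smul, smul_eq_mul] at h5
      exact h5
    have h6 := Matrix.eq_zero_of_vecMul_eq_zero hne h4
    intro i
    exact congrFun h6 i
  have hsub : Submodule.span K (Set.range fun i : Fin r => (P + t • Q) (v i)) ≤
      LinearMap.range (P + t • Q) := by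
    rw [Submodule.span_le]
    rintro _ ⟨i, rfl⟩
    exact LinearMap.mem_range_self _ _
  have h7 := Submodule.finrank_mono hsub
  rw [finrank_span_eq_card hli, Fintype.card_fin] at h7
  omega

end MP_b83a82_al.H82
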