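import Pool.Agent.Lib.MP_b83a82_al.H82.Alg1

namespace MP_b83a82_al.H82

open Module

/-- [RK82 E2] generic kernel lemma.  Proof: suppose `P v = 0` and `Q v ∉ range P`.  Consider the
pencil `P' + t Q' : V × K → W`, `P' (x, s) = P x + s • Q v`, `Q' (x, s) = Q x`.  At `t = 0` its rank
is `rank P + 1`.  For `t ≠ 0` we have `Q v = t⁻¹ • (P + t Q) v ∈ range (P + t Q)`, so its range is
`range (P + t Q)`, of rank at most `rank P`.  This contradicts `semicont` for the infinitely many
`t ≠ 0`. -/
theorem kernel_lemma {K : Type*} [Field K] [Infinite K] {V W : Type*} [AddCommGroup V]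
    [Module K V] [AddCommGroup W] [Module K W] [FiniteDimensional K V] [FiniteDimensional K W]
    (S : Submodule K (V →ₗ[K] W)) {P : V →ₗ[K] W} (hP : P ∈ S)
    (hmax : ∀ Q ∈ S, finrank K (LinearMap.range Q) ≤ finrank K (LinearMap.range P)) :
    ∀ Q ∈ S, ∀ v : V, P v = 0 → Q v ∈ LinearMap.range P := by
  intro Q hQ v hv
  by_contra hnot
  let P' : (V × K) →ₗ[K] W := P.coprod (LinearMap.toSpanSingleton K W (Q v))
  let Q' : (V × K) →ₗ[K] W := Q.coprod 0
  have hP' : ∀ x s, P' (x, s) = P x + s • Q v := by
    intro x s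
    simp [P', LinearMap.coprod_apply]
  have hQ' : ∀ x s, Q' (x, s) = Q x := by
    intro x s
    simp [Q', LinearMap.coprod_apply]
  have hlt : LinearMap.range P < LinearMap.range P' := by
    refine lt_of_le_of_ne ?_ ?_
    · rintro _ ⟨x, rfl⟩
      exact ⟨(x, 0), by rw [hP', zero_smul, add_zero]⟩
    · intro h
      apply hnot
      rw [h]
      exact ⟨(0, 1), by rw [hP', map_zero, zero_add, one_smul]⟩
  have hrk := Submodule.finrank_lt_finrank_of_lt hlt
  have hfin := semicont P' Q'
  have hsub : ({0} : Set K)ᶜ ⊆ {t : K | finrank K (LinearMap.range (P' + t • Q')) <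
      finrank K (LinearMap.range P')} := by
    intro t ht
    have ht0 : t ≠ 0 := fun h => ht (by rw [h]; exact rfl)
    have hmem : P + t • Q ∈ S := S.add_mem hP (S.smul_mem t hQ)
    have h1 := hmax _ hmem
    have h2 : LinearMap.range (P' + t • Q') ≤ LinearMap.range (P + t • Q) := by
      rintro _ ⟨⟨x, s⟩, rfl⟩
      refine ⟨x + (s * t⁻¹) • v, ?_⟩
      rw [LinearMap.add_apply, LinearMap.add_apply, LinearMap.smul_apply, LinearMap.smul_apply,
        hP', hQ', map_add, map_add, map_smul, map_smul, hv, smul_zero, add_zero, smul_add, smul_smul]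
      have : t * (s * t⁻¹) = s := by field_simp
      rw [this]
      abel
    have h3 := Submodule.finrank_mono h2
    change finrank K (LinearMap.range (P' + t • Q')) < finrank K (LinearMap.range P')
    omega
  exact (Set.Finite.infinite_compl (Set.finite_singleton (0 : K))) (hfin.subset hsub)

end MP_b83a82_al.H82
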