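import Mathlib

namespace MP_b83a82_al.H82

open Module

/-- [RK82 E3] dimension of `im X^i ∩ ker X^j`: rank-nullity for `X ^ j` on `im (X ^ i)`. -/
theorem finrank_range_inf_ker {K : Type*} [Field K] {V : Type*} [AddCommGroup V] [Module K V]
    [FiniteDimensional K V] (X : V →ₗ[K] V) (i j : ℕ) :
    finrank K (↥(LinearMap.range (X ^ i) ⊓ LinearMap.ker (X ^ j))) +
      finrank K (LinearMap.range (X ^ (i + j))) = finrank K (LinearMap.range (X ^ i)) := by
  have h1 := LinearMap.finrank_range_add_finrank_ker ((X ^ j).domRestrict (LinearMap.range (X ^ i)))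
  have h2 : LinearMap.range ((X ^ j).domRestrict (LinearMap.range (X ^ i)))
      = LinearMap.range (X ^ (i + j)) := by
    rw [LinearMap.range_domRestrict, ← LinearMap.range_comp, add_comm i j, pow_add,
      Module.End.mul_eq_comp]
  have h3 : finrank K (LinearMap.ker ((X ^ j).domRestrict (LinearMap.range (X ^ i))))
      = finrank K (↥(LinearMap.range (X ^ i) ⊓ LinearMap.ker (X ^ j))) := by
    rw [LinearMap.ker_domRestrict, ← Submodule.map_comap_subtype,
      Submodule.finrank_map_subtype_eq]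
  rw [h2, h3] at h1
  omega

/-- [RK82 E3] chain lemma.  Proof: let `g i = finrank (T ⊓ range (X^i))`.  Since
`range (X^i) ⊓ ker (X^(f i)) ≤ T`, `T ⊓ range (X^i)` contains the sum of
`range (X^i) ⊓ ker (X^(f i))` and `T ⊓ range (X^(i+1))`, whose intersection is
`range (X^(i+1)) ⊓ ker (X^(f i))` (`range (X^(i+1)) ≤ range (X^i)`), so
`g i ≥ g (i+1) + (r i - r (i + f i)) - (r (i+1) - r (i+1+f i))`.  Sum over `i < n`. -/
theorem chain_lemma {K : Type*} [Field K] {V : Type*} [AddCommGroup V] [Module K V]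
    [FiniteDimensional K V] (X : V →ₗ[K] V) (f : ℕ → ℕ) (T : Submodule K V)
    (hT : ∀ i, LinearMap.range (X ^ i) ⊓ LinearMap.ker (X ^ (f i)) ≤ T) (n : ℕ) :
    ∑ i ∈ Finset.range n,
      (((finrank K (LinearMap.range (X ^ i)) : ℤ) - finrank K (LinearMap.range (X ^ (i + f i)))) -
        ((finrank K (LinearMap.range (X ^ (i + 1))) : ℤ) -
          finrank K (LinearMap.range (X ^ (i + 1 + f i))))) ≤ (finrank K T : ℤ) := by
  have hanti : ∀ i, LinearMap.range (X ^ (i + 1)) ≤ LinearMap.range (X ^ i) := by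
    intro i
    rw [pow_succ, Module.End.mul_eq_comp]
    exact LinearMap.range_comp_le_range _ _
  have hstep : ∀ i, (((finrank K (LinearMap.range (X ^ i)) : ℤ) -
      finrank K (LinearMap.range (X ^ (i + f i)))) -
        ((finrank K (LinearMap.range (X ^ (i + 1))) : ℤ) -
          finrank K (LinearMap.range (X ^ (i + 1 + f i))))) ≤
      (finrank K (↥(T ⊓ LinearMap.range (X ^ i))) : ℤ) -
        finrank K (↥(T ⊓ LinearMap.range (X ^ (i + 1)))) := by
    intro i
    set A := LinearMap.range (X ^ i) ⊓ LinearMap.ker (X ^ (f i)) with hA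
    set B := T ⊓ LinearMap.range (X ^ (i + 1)) with hB
    have hsup : A ⊔ B ≤ T ⊓ LinearMap.range (X ^ i) :=
      sup_le (le_inf (hT i) inf_le_left) (inf_le_inf_left _ (hanti i))
    have hinf : A ⊓ B ≤ LinearMap.range (X ^ (i + 1)) ⊓ LinearMap.ker (X ^ (f i)) :=
      le_inf (inf_le_right.trans inf_le_right) (inf_le_left.trans inf_le_right)
    have h1 := Submodule.finrank_sup_add_finrank_inf_eq A B
    have h2 := Submodule.finrank_mono hsup
    have h3 := Submodule.finrank_mono hinf
    have h4 := finrank_range_inf_ker X i (f i)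
    have h5 := finrank_range_inf_ker X (i + 1) (f i)
    rw [← hA] at h4
    omega
  calc ∑ i ∈ Finset.range n,
      (((finrank K (LinearMap.range (X ^ i)) : ℤ) - finrank K (LinearMap.range (X ^ (i + f i)))) -
        ((finrank K (LinearMap.range (X ^ (i + 1))) : ℤ) -
          finrank K (LinearMap.range (X ^ (i + 1 + f i)))))
      ≤ ∑ i ∈ Finset.range n, ((finrank K (↥(T ⊓ LinearMap.range (X ^ i))) : ℤ) -
        finrank K (↥(T ⊓ LinearMap.range (X ^ (i + 1))))) :=
        Finset.sum_le_sum fun i _ => hstep i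
    _ = (finrank K (↥(T ⊓ LinearMap.range (X ^ 0))) : ℤ) -
        finrank K (↥(T ⊓ LinearMap.range (X ^ n))) :=
        Finset.sum_range_sub' (fun i => (finrank K (↥(T ⊓ LinearMap.range (X ^ i))) : ℤ)) n
    _ ≤ (finrank K T : ℤ) := by
        have h6 := Submodule.finrank_mono (inf_le_left : T ⊓ LinearMap.range (X ^ 0) ≤ T)
        omega

end MP_b83a82_al.H82
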