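import Mathlib

namespace MP_b83a82_al.H82

open Module

/-- vectors of `T` which are linearly independent modulo `Z` -/
private theorem semilin_count_aux {K : Type*} [Field K] {V : Type*} [AddCommGroup V] [Module K V]
    [FiniteDimensional K V] (Z T : Submodule K V) :
    ∃ (m : ℕ) (x : Fin m → V), (∀ i, x i ∈ T) ∧
      (∀ d : Fin m → K, ∑ i, d i • x i ∈ Z → ∀ i, d i = 0) ∧
      finrank K T ≤ m + finrank K Z := by
  classical
  obtain ⟨C, hC⟩ := Submodule.exists_isCompl (Z.comap T.subtype)
  have h1 : finrank K (Z.comap T.subtype) + finrank K C = finrank K T :=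
    Submodule.finrank_add_eq_of_isCompl hC
  have h2 : finrank K (Z.comap T.subtype) ≤ finrank K Z := by
    refine LinearMap.finrank_le_finrank_of_injective
      (f := (T.subtype.comp (Z.comap T.subtype).subtype).codRestrict Z (fun x => x.2)) ?_
    intro x y hxy
    have := congrArg Subtype.val hxy
    exact Subtype.ext (Subtype.ext this)
  have b := finBasis K C
  refine ⟨finrank K C, fun i => ((b i : T) : V), fun i => (b i : T).2, ?_, by omega⟩
  intro d hd
  have h6 : (∑ i, d i • b i : C) = 0 := by
    have h7 : ((∑ i, d i • b i : C) : T) ∈ Z.comap T.subtype := by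
      rw [Submodule.mem_comap]
      have h8 : T.subtype ((∑ i, d i • b i : C) : T) = ∑ i, d i • ((b i : T) : V) := by
        simp
      rw [h8]
      exact hd
    have h9 : ((∑ i, d i • b i : C) : T) ∈ (Z.comap T.subtype) ⊓ C := ⟨h7, Subtype.mem _⟩
    rw [hC.inf_eq_bot, Submodule.mem_bot] at h9
    exact Subtype.ext h9
  exact Fintype.linearIndependent_iff.1 b.linearIndependent d h6

/-- [RK82 E4] counting for the `p`-semilinear map `x ↦ x ^ p`.  Proof: choose `x 1, …, x m ∈ T`
linearly independent modulo `Z ⊓ T` with `m = finrank T - finrank (T ⊓ Z)`.  Then the `x i ^ p ∈ U`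
are linearly independent: if `∑ c i • x i ^ p = 0`, write `c i = d i ^ p` (perfect field), then
`(∑ d i • x i) ^ p = 0`, so `∑ d i • x i ∈ Z`, so all `d i = 0`. -/
theorem semilin_count {K : Type*} [Field K] (p : ℕ) [Fact p.Prime] [CharP K p]
    (hperf : ∀ c : K, ∃ d : K, d ^ p = c) {A : Type*} [CommRing A] [Algebra K A]
    [FiniteDimensional K A] (Z T U : Submodule K A) (hZ : ∀ x, x ∈ Z ↔ x ^ p = 0)
    (hTU : ∀ x ∈ T, x ^ p ∈ U) : finrank K T ≤ finrank K U + finrank K Z := by
  classical
  obtain ⟨m, x, hxT, hxZ, hm⟩ := semilin_count_aux Z T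
  rcases subsingleton_or_nontrivial A with hA | hA
  · have h1 : finrank K T = 0 := finrank_zero_of_subsingleton
    omega
  have hp : p ≠ 0 := (Fact.out : p.Prime).ne_zero
  have : CharP A p := charP_of_injective_algebraMap (algebraMap K A).injective p
  have h3 : m ≤ finrank K U := by
    have hli : LinearIndependent K (fun i => (⟨(x i) ^ p, hTU _ (hxT i)⟩ : U)) := by
      rw [Fintype.linearIndependent_iff]
      intro g hg
      choose d hd using fun i => hperf (g i)
      have h4 : (∑ i, d i • x i) ^ p = 0 := by
        rw [sum_pow_char]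
        have h5 := congrArg U.subtype hg
        rw [map_sum, map_zero] at h5
        rw [← h5]
        refine Finset.sum_congr rfl fun i _ => ?_
        rw [smul_pow, hd, map_smul]
        rfl
      intro i
      have h10 := hxZ d ((hZ _).2 h4) i
      rw [← hd i, h10, zero_pow hp]
    have := hli.fintype_card_le_finrank
    rwa [Fintype.card_fin] at this
  omega

end MP_b83a82_al.H82
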