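import Pool.Agent.Lib.MP_b83a82_al.H82.Alg2
import Pool.Agent.Lib.MP_b83a82_al.H82.Alg3
import Pool.Agent.Lib.MP_b83a82_al.H82.Alg4

namespace MP_b83a82_al.H82

open Module

private theorem weak_eggert_sum (p : ℕ) (hp : 2 ≤ p) (r : ℕ → ℤ) (hr : Antitone r) (n : ℕ) :
    ∑ i ∈ Finset.range n, ((r (p * i) - r (p * i + 1)) + (r (p * i + 1) - r (p * i + 2)))
      ≤ r 0 - r (p * n) := by
  induction n with
  | zero => simp
  | succ n ih =>
    rw [Finset.sum_range_succ]
    have h : r (p * (n + 1)) ≤ r (p * n + 2) := hr (by nlinarith)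
    linarith

private theorem weak_eggert_arith (p : ℕ) (hp : 2 ≤ p) (r : ℕ → ℤ) (hr : Antitone r)
    (hr0 : ∀ k, 0 ≤ r k) (n : ℕ) (hn : 1 ≤ n) (hrn : r n = 0) (δ : ℤ)
    (h1 : ∑ i ∈ Finset.range n, ((r i - r (i + (p - 1) * i)) -
      (r (i + 1) - r (i + 1 + (p - 1) * i))) ≤ δ)
    (h2 : ∑ i ∈ Finset.range n, ((r i - r (i + ((p - 1) * i + 1))) -
      (r (i + 1) - r (i + 1 + ((p - 1) * i + 1)))) ≤ δ + (r 1 - r 2)) :
    r 0 ≤ 3 * δ := by
  obtain ⟨q, rfl⟩ : ∃ q, p = q + 1 := ⟨p - 1, by omega⟩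
  rw [Nat.add_sub_cancel] at h1 h2
  have e1 : ∑ i ∈ Finset.range n, ((r i - r (i + q * i)) - (r (i + 1) - r (i + 1 + q * i))) =
      r 0 - ∑ i ∈ Finset.range n, (r ((q + 1) * i) - r ((q + 1) * i + 1)) := by
    have t : r 0 = ∑ i ∈ Finset.range n, (r i - r (i + 1)) := by
      rw [Finset.sum_range_sub', hrn, sub_zero]
    rw [t, ← Finset.sum_sub_distrib]
    refine Finset.sum_congr rfl fun i _ => ?_
    have a1 : i + q * i = (q + 1) * i := by ring
    have a2 : i + 1 + q * i = (q + 1) * i + 1 := by ring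
    rw [a1, a2]
    ring
  have e2 : ∑ i ∈ Finset.range n, ((r i - r (i + (q * i + 1))) -
      (r (i + 1) - r (i + 1 + (q * i + 1)))) =
      r 0 - ∑ i ∈ Finset.range n, (r ((q + 1) * i + 1) - r ((q + 1) * i + 2)) := by
    have t : r 0 = ∑ i ∈ Finset.range n, (r i - r (i + 1)) := by
      rw [Finset.sum_range_sub', hrn, sub_zero]
    rw [t, ← Finset.sum_sub_distrib]
    refine Finset.sum_congr rfl fun i _ => ?_
    have a1 : i + (q * i + 1) = (q + 1) * i + 1 := by ring
    have a2 : i + 1 + (q * i + 1) = (q + 1) * i + 2 := by ring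
    rw [a1, a2]
    ring
  rw [e1] at h1
  rw [e2] at h2
  have h3 := weak_eggert_sum (q + 1) hp r hr n
  rw [Finset.sum_add_distrib] at h3
  have h4 : r 1 - r 2 ≤ ∑ i ∈ Finset.range n, (r ((q + 1) * i + 1) - r ((q + 1) * i + 2)) := by
    have h5 := Finset.single_le_sum (f := fun i => r ((q + 1) * i + 1) - r ((q + 1) * i + 2))
      (s := Finset.range n) (fun i _ => sub_nonneg.2 (hr (by omega)))
      (Finset.mem_range.2 hn : (0 : ℕ) ∈ Finset.range n)
    simpa using h5
  have h6 := hr0 ((q + 1) * n)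
  linarith

/-- [RK82 E5] weak form of Eggert's conjecture over an infinite perfect field.
Proof.  `N` = nilpotent elements.  Choose `a ∈ N` with `finrank (range (mulLeft a))` maximal;
`a ≠ 0` by `hne`.  `X = LinearMap.mulLeft K a`, `X ^ n = 0` for `n` large.  If `a y = 0` then `y` is
nilpotent (otherwise `y = c + nilpotent`, `c ≠ 0`, is a unit), so by `kernel_lemma` (for the space
of all `mulLeft K b`, `b ∈ N`) `y * y ∈ range X`, so `y ^ p ∈ range X ⊓ ker X`.
`r i = finrank (range (X^i))`, `δ = finrank Z`.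
(i) `range (X^i) ⊓ ker (X^((p-1) i)) ≤ Z`: `x = a^i y`, `a^(p i) y = 0`,
`x^p = a^(p i) y^p = 0`.  `chain_lemma` with `f i = (p-1) i`.
(ii) `T2 = {x | x^p ∈ range X ⊓ ker X}` (a submodule) contains
`range (X^i) ⊓ ker (X^((p-1) i + 1))` (`i = 0` by the above, `i ≥ 1` directly).
`chain_lemma` with `f i = (p-1) i + 1`, and `finrank T2 ≤ δ + (r 1 - r 2)` by `semilin_count` and
`finrank_range_inf_ker`.
With `μ k = r (k-1) - r k ≥ 0`, `∑ μ = r 0 = finrank A =: D`:
(i) `D - ∑_i μ (p i + 1) ≤ δ`, (ii) `D - ∑_i μ (p i + 2) ≤ δ + μ 2`.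
`2 (i) + (ii)`: `3 D ≤ 3 δ + (∑ μ (p i + 1) + ∑ μ (p i + 2)) + (∑ μ (p i + 1) + μ 2) ≤ 3 δ + 2 D`
(distinct indices in each bracket), so `D ≤ 3 δ`. -/
theorem weak_eggert {K : Type*} [Field K] [Infinite K] (p : ℕ) [Fact p.Prime] [CharP K p]
    (hperf : ∀ c : K, ∃ d : K, d ^ p = c) {A : Type*} [CommRing A] [Algebra K A]
    [FiniteDimensional K A] (hloc : ∀ x : A, ∃ c : K, IsNilpotent (x - algebraMap K A c))
    (hne : ∃ x : A, x ≠ 0 ∧ IsNilpotent x) (Z : Submodule K A) (hZ : ∀ x, x ∈ Z ↔ x ^ p = 0) :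
    finrank K A ≤ 3 * finrank K Z := by
  have hp : 2 ≤ p := (Fact.out : p.Prime).two_le
  have : CharP A p := by
    have : Nontrivial A := ⟨hne.choose, 0, hne.choose_spec.1⟩
    exact charP_of_injective_algebraMap (algebraMap K A).injective p
  have : ExpChar A p := expChar_prime A p
  -- the choice of `a`
  obtain ⟨a, ha, hmax⟩ : ∃ a : A, IsNilpotent a ∧ ∀ b : A, IsNilpotent b →
      finrank K (LinearMap.range (LinearMap.mulLeft K b)) ≤
        finrank K (LinearMap.range (LinearMap.mulLeft K a)) := by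
    let S : Set ℕ := {k | ∃ b : A, IsNilpotent b ∧
      finrank K (LinearMap.range (LinearMap.mulLeft K b)) = k}
    have hS : S.Nonempty := ⟨_, 0, IsNilpotent.zero, rfl⟩
    have hB : BddAbove S := by
      refine ⟨finrank K A, ?_⟩
      rintro k ⟨b, _, rfl⟩
      exact Submodule.finrank_le _
    obtain ⟨a, ha, hk⟩ := Nat.sSup_mem hS hB
    refine ⟨a, ha, fun b hb => ?_⟩
    rw [hk]
    exact le_csSup hB ⟨b, hb, rfl⟩
  have ha0 : a ≠ 0 := by
    rintro rfl
    obtain ⟨x, hx, hxn⟩ := hne
    have h := hmax x hxn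
    rw [LinearMap.mulLeft_zero_eq_zero, LinearMap.range_zero, finrank_bot, Nat.le_zero,
      Submodule.finrank_eq_zero, LinearMap.range_eq_bot] at h
    apply hx
    have := congrArg (fun f : A →ₗ[K] A => f 1) h
    simpa using this
  -- elements killed by `a`
  have hnil : ∀ y : A, a * y = 0 → IsNilpotent y := by
    intro y hy
    obtain ⟨c, hc⟩ := hloc y
    by_cases hc0 : c = 0
    · rw [hc0, map_zero, sub_zero] at hc
      exact hc
    · exfalso
      have hu : IsUnit y := by
        have h1 : IsUnit (algebraMap K A c) := (IsUnit.mk0 c hc0).map (algebraMap K A)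
        have h2 := hc.isUnit_add_left_of_commute h1 (Commute.all _ _)
        rwa [add_sub_cancel] at h2
      exact ha0 ((hu.mul_left_eq_zero).1 hy)
  have hX : ∀ i, (LinearMap.mulLeft K a) ^ i = LinearMap.mulLeft K (a ^ i) :=
    fun i => by rw [LinearMap.pow_mulLeft]
  have hsq : ∀ y : A, a * y = 0 → ∃ z, a * z = y * y := by
    intro y hy
    have h := kernel_lemma (Submodule.map (LinearMap.mul K A)
      ((nilradical A).restrictScalars K)) (P := LinearMap.mul K A a)
      (Submodule.mem_map_of_mem (by simpa [mem_nilradical] using ha)) (by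
        rintro _ ⟨b, hb, rfl⟩
        exact hmax b (by simpa [mem_nilradical] using hb))
      (LinearMap.mul K A y)
      (Submodule.mem_map_of_mem (by simpa [mem_nilradical] using hnil y hy)) y
      (by simpa using hy)
    obtain ⟨z, hz⟩ := h
    exact ⟨z, by simpa using hz⟩
  obtain ⟨n0, hn0⟩ := ha
  set X : A →ₗ[K] A := LinearMap.mulLeft K a with hXdef
  set r : ℕ → ℤ := fun i => (finrank K (LinearMap.range (X ^ i)) : ℤ) with hr
  -- the subspace `T2`
  let T2 : Submodule K A :=
    { carrier := {x | x ^ p ∈ LinearMap.range X ⊓ LinearMap.ker X}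
      zero_mem' := by
        change (0 : A) ^ p ∈ LinearMap.range X ⊓ LinearMap.ker X
        rw [zero_pow (by omega)]
        exact Submodule.zero_mem _
      add_mem' := by
        intro x y hx hy
        change (x + y) ^ p ∈ LinearMap.range X ⊓ LinearMap.ker X
        rw [add_pow_char]
        exact Submodule.add_mem _ hx hy
      smul_mem' := by
        intro c x hx
        change (c • x) ^ p ∈ LinearMap.range X ⊓ LinearMap.ker X
        rw [smul_pow]
        exact Submodule.smul_mem _ _ hx }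
  have hT2 : ∀ x, x ∈ T2 ↔ x ^ p ∈ LinearMap.range X ⊓ LinearMap.ker X := fun x => Iff.rfl
  have anti : Antitone r := by
    apply antitone_nat_of_succ_le
    intro i
    have : LinearMap.range (X ^ (i + 1)) ≤ LinearMap.range (X ^ i) := by
      rw [pow_succ]
      exact LinearMap.range_comp_le_range X (X ^ i)
    have h2 := Submodule.finrank_mono this
    simp only [hr]
    exact_mod_cast h2
  have c1 := chain_lemma X (fun i => (p - 1) * i) Z (by
    intro i x hx
    obtain ⟨⟨y, hy⟩, hk⟩ := Submodule.mem_inf.1 hx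
    rw [hX, LinearMap.mulLeft_apply] at hy
    rw [LinearMap.mem_ker, hX, LinearMap.mulLeft_apply, ← hy, ← mul_assoc, ← pow_add] at hk
    rw [hZ, ← hy, mul_pow, ← pow_mul]
    have e : i * p = (p - 1) * i + i := by
      obtain ⟨q, rfl⟩ : ∃ q, p = q + 1 := ⟨p - 1, by omega⟩
      rw [Nat.add_sub_cancel]
      ring
    have e' : y ^ p = y * y ^ (p - 1) := by
      rw [← pow_succ']
      congr 1
      omega
    rw [e, e', ← mul_assoc, hk, zero_mul]) (n0 + 1)
  have c2 := chain_lemma X (fun i => (p - 1) * i + 1) T2 (by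
    intro i x hx
    obtain ⟨⟨y, hy⟩, hk⟩ := Submodule.mem_inf.1 hx
    rw [hX, LinearMap.mulLeft_apply] at hy
    rw [LinearMap.mem_ker, hX, LinearMap.mulLeft_apply] at hk
    rw [hT2, Submodule.mem_inf, LinearMap.mem_ker, LinearMap.mulLeft_apply]
    rcases Nat.eq_zero_or_pos i with hi | hi
    · subst hi
      rw [mul_zero, zero_add, pow_one] at hk
      constructor
      · obtain ⟨z, hz⟩ := hsq x hk
        refine ⟨z * x ^ (p - 2), ?_⟩
        rw [LinearMap.mulLeft_apply, ← mul_assoc, hz, ← pow_two, ← pow_add]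
        congr 1
        omega
      · have e' : x ^ p = x * x ^ (p - 1) := by
          rw [← pow_succ']
          congr 1
          omega
        rw [e', ← mul_assoc, hk, zero_mul]
    · have e' : y ^ p = y * y ^ (p - 1) := by
        rw [← pow_succ']
        congr 1
        omega
      have e : i * p + 1 = (p - 1) * i + 1 + i := by
        obtain ⟨q, rfl⟩ : ∃ q, p = q + 1 := ⟨p - 1, by omega⟩
        rw [Nat.add_sub_cancel]
        ring
      constructor
      · refine ⟨a ^ (i * p - 1) * y ^ p, ?_⟩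
        have hip : 1 ≤ i * p := Nat.mul_pos hi (by omega)
        rw [LinearMap.mulLeft_apply, ← hy, mul_pow, ← pow_mul, ← mul_assoc, ← pow_succ',
          Nat.sub_add_cancel hip]
      · rw [← hy, ← mul_assoc, ← pow_add, ← e] at hk
        rw [← hy, mul_pow, ← pow_mul, ← mul_assoc, ← pow_succ', e', ← mul_assoc, hk, zero_mul])
    (n0 + 1)
  have c3 := semilin_count p hperf Z T2 (LinearMap.range X ⊓ LinearMap.ker X) hZ
    (fun x hx => (hT2 x).1 hx)
  have c4 := finrank_range_inf_ker X 1 1
  rw [pow_one] at c4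
  have key := weak_eggert_arith p hp r anti (fun k => by simp [hr]) (n0 + 1) (by omega) (by
      have : X ^ (n0 + 1) = 0 := by
        rw [hX, pow_succ, hn0, zero_mul]
        exact LinearMap.mulLeft_zero_eq_zero K A
      simp only [hr]
      rw [this, LinearMap.range_zero, finrank_bot]
      rfl) (finrank K Z : ℤ) c1 (by
      refine le_trans c2 ?_
      have c5 : (finrank K T2 : ℤ) ≤
          finrank K (↥(LinearMap.range X ⊓ LinearMap.ker X)) + finrank K Z := by
        exact_mod_cast c3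
      have c6 : (finrank K (↥(LinearMap.range X ⊓ LinearMap.ker X)) : ℤ) + r 2 = r 1 := by
        simp only [hr]
        rw [pow_one]
        exact_mod_cast c4
      linarith)
  have hr0 : r 0 = finrank K A := by
    simp only [hr]
    rw [pow_zero]
    have : LinearMap.range (1 : A →ₗ[K] A) = ⊤ := LinearMap.range_id
    rw [this, finrank_top]
  rw [hr0] at key
  exact_mod_cast key

end MP_b83a82_al.H82
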