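import Pool.Agent.Lib.MP_b83a82_al.Alg.Bridge

namespace MP_b83a82_al.H82

open Module

/-- the non-unital ring of nilpotent elements -/
private def nilS (R : Type*) [CommRing R] : NonUnitalSubring R where
  carrier := {x | IsNilpotent x}
  add_mem' := fun {_ _} hx hy => (Commute.all _ _).isNilpotent_add hx hy
  zero_mem' := IsNilpotent.zero
  mul_mem' := fun {_ _} hx _ => (Commute.all _ _).isNilpotent_mul_right hx
  neg_mem' := fun {_} hx => hx.neg

/-- [RK82 E6] weak Eggert for finite rings: `|F(N)|^3 ≤ |N|^2`, `N` = nilpotent elements,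
`F x = x ^ p`.  From `|N| ≤ |{x ∈ N : x ^ p = 0}| ^ 3` (`Alg.algCard_three`). -/
theorem eggert_card (p : ℕ) [Fact p.Prime] {R : Type*} [CommRing R] [Finite R] [CharP R p]
    (hloc : ∀ x : R, ∃ c : ℕ, IsNilpotent (x - (c : R))) :
    (Nat.card ((fun x : R => x ^ p) '' {x : R | IsNilpotent x})) ^ 3 ≤
      (Nat.card {x : R | IsNilpotent x}) ^ 2 := by
  have hp : p.Prime := Fact.out
  have hpM : ∀ x : nilS R, p • x = 0 := by
    intro x
    apply Subtype.ext
    rw [show ((p • x : nilS R) : R) = p • (x : R) from map_nsmul (NonUnitalSubringClass.subtype (nilS R)) p x, nsmul_eq_mul, CharP.cast_eq_zero, zero_mul]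
    rfl
  let _ : Module (ZMod p) (nilS R) := AddCommGroup.zmodModule (n := p) hpM
  have : IsScalarTower (ZMod p) (nilS R) (nilS R) := ⟨fun c x y => by
    obtain ⟨m, rfl⟩ := ZMod.natCast_zmod_surjective c
    simp only [Nat.cast_smul_eq_nsmul, smul_eq_mul, smul_mul_assoc]⟩
  have : SMulCommClass (ZMod p) (nilS R) (nilS R) := ⟨fun c x y => by
    obtain ⟨m, rfl⟩ := ZMod.natCast_zmod_surjective c
    simp only [Nat.cast_smul_eq_nsmul, smul_eq_mul, mul_smul_comm]⟩
  have key : ∀ (x : nilS R) (n : ℕ), ∃ y : nilS R,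
      (Unitization.inr x : Unitization (ZMod p) (nilS R)) ^ (n + 1) = Unitization.inr y ∧
        (y : R) = (x : R) ^ (n + 1) := by
    intro x n
    induction n with
    | zero => exact ⟨x, by simp, by simp⟩
    | succ n ih =>
      obtain ⟨y, h1, h2⟩ := ih
      refine ⟨y * x, ?_, ?_⟩
      · rw [pow_succ, h1, ← Unitization.inr_mul]
      · rw [pow_succ, ← h2]; rfl
  have key2 : ∀ (x : nilS R) (n : ℕ), 1 ≤ n →
      ((Unitization.inr x : Unitization (ZMod p) (nilS R)) ^ n = 0 ↔ (x : R) ^ n = 0) := by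
    intro x n hn
    obtain ⟨m, rfl⟩ := Nat.exists_eq_add_of_le' hn
    obtain ⟨y, h1, h2⟩ := key x m
    rw [h1, ← h2]
    constructor
    · intro h
      have : y = 0 := by
        apply Unitization.inr_injective (R := ZMod p)
        rw [h, Unitization.inr_zero]
      rw [this]; rfl
    · intro h
      have : y = 0 := Subtype.ext h
      rw [this, Unitization.inr_zero]
  have hA := Pool.Agent.Lib.MP_b83a82_al.Alg.algCard_three p (nilS R) (by
    intro x
    obtain ⟨m, hm⟩ := x.2
    refine ⟨m, (key2 x _ (Nat.one_le_pow _ _ hp.pos)).2 ?_⟩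
    exact pow_eq_zero_of_le (Nat.lt_pow_self hp.one_lt).le hm)
  let F : nilS R →+ R :=
    { toFun := fun x => (x : R) ^ p
      map_zero' := by
        change (0 : R) ^ p = 0
        exact zero_pow hp.ne_zero
      map_add' := fun x y => by
        change ((x : R) + (y : R)) ^ p = _
        exact add_pow_char (x : R) (y : R) p }
  have hF : ∀ x : nilS R, F x = (x : R) ^ p := fun _ => rfl
  have hker : Nat.card F.ker =
      Nat.card {x : nilS R // (Unitization.inr x : Unitization (ZMod p) (nilS R)) ^ p = 0} := by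
    apply Nat.card_congr
    apply Equiv.subtypeEquivRight
    intro x
    rw [AddMonoidHom.mem_ker, hF, key2 x p hp.one_le]
  have hran : Nat.card F.range = Nat.card ((fun x : R => x ^ p) '' {x : R | IsNilpotent x}) := by
    apply Nat.card_congr
    apply Equiv.subtypeEquivRight
    intro y
    constructor
    · rintro ⟨x, rfl⟩
      exact ⟨x, x.2, rfl⟩
    · rintro ⟨x, hx, rfl⟩
      exact ⟨⟨x, hx⟩, rfl⟩
  have h1 := AddSubgroup.card_mul_index F.ker
  rw [AddSubgroup.index_ker, hran, hker] at h1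
  have hN : Nat.card (nilS R) = Nat.card {x : R | IsNilpotent x} := rfl
  rw [← hN]
  set a := Nat.card ((fun x : R => x ^ p) '' {x : R | IsNilpotent x})
  set z := Nat.card {x : nilS R // (Unitization.inr x : Unitization (ZMod p) (nilS R)) ^ p = 0}
  set n := Nat.card (nilS R)
  have hn0 : 0 < n := Nat.card_pos
  have h2 : n * a ^ 3 ≤ n * n ^ 2 := by
    calc n * a ^ 3 ≤ z ^ 3 * a ^ 3 := Nat.mul_le_mul_right _ hA
      _ = n * n ^ 2 := by rw [← mul_pow, h1]; ring
  exact Nat.le_of_mul_le_mul_left h2 hn0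

end MP_b83a82_al.H82
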