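import Pool.Agent.Lib.MP_b83a82_al.H82.Alg6

namespace MP_b83a82_al.H82

open Module

/-- [RK82 E7] iterated version.  Proof: apply `eggert_card` to the subring
`R' = (iterateFrobenius R p i).range` (also of characteristic `p` and local in the sense of
`hloc`, since `c ^ p = c` for images of natural numbers); its nilpotent elements are exactly the
`x ^ (p^i)` with `x` nilpotent. -/
theorem eggert_iter (p : ℕ) [Fact p.Prime] {R : Type*} [CommRing R] [Finite R] [CharP R p]
    (hloc : ∀ x : R, ∃ c : ℕ, IsNilpotent (x - (c : R))) (i : ℕ) :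
    (Nat.card ((fun x : R => x ^ (p ^ (i + 1))) '' {x : R | IsNilpotent x})) ^ 3 ≤
      (Nat.card ((fun x : R => x ^ (p ^ i)) '' {x : R | IsNilpotent x})) ^ 2 := by
  have : ExpChar R p := ExpChar.prime Fact.out
  set R' : Subring R := (iterateFrobenius R p i).range with hR'
  have : CharP R' p := ⟨fun n => by
    rw [← CharP.cast_eq_zero_iff R p n]
    constructor
    · intro h
      have := congrArg (fun x : R' => (x : R)) h
      simpa using this
    · intro h
      apply Subtype.val_injective
      simpa using h⟩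
  have hnil : ∀ x : R', IsNilpotent x ↔ IsNilpotent (x : R) := fun x =>
    (IsNilpotent.map_iff (f := R'.subtype) Subtype.val_injective).symm
  have hloc' : ∀ x : R', ∃ c : ℕ, IsNilpotent (x - (c : R')) := by
    rintro ⟨x, y, rfl⟩
    obtain ⟨c, hc⟩ := hloc y
    refine ⟨c ^ p ^ i, ?_⟩
    rw [hnil]
    have h1 : (((⟨iterateFrobenius R p i y, ⟨y, rfl⟩⟩ : R') - ((c ^ p ^ i : ℕ) : R') : R') : R)
        = (y - c) ^ p ^ i := by
      rw [sub_pow_expChar_pow]
      simp [iterateFrobenius_def]
    rw [h1]
    exact hc.pow_of_pos (pow_ne_zero _ (Fact.out : p.Prime).ne_zero)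
  have key := eggert_card p hloc'
  have e1 : Subtype.val '' {x : R' | IsNilpotent x} =
      (fun x : R => x ^ (p ^ i)) '' {x : R | IsNilpotent x} := by
    ext z
    constructor
    · rintro ⟨⟨x, y, rfl⟩, hx, rfl⟩
      have hx' := (hnil _).1 hx
      refine ⟨y, ?_, by simp [iterateFrobenius_def]⟩
      simp only [iterateFrobenius_def] at hx'
      exact (IsNilpotent.pow_iff_pos (pow_ne_zero _ (Fact.out : p.Prime).ne_zero)).1 hx'
    · rintro ⟨y, hy, rfl⟩
      refine ⟨⟨iterateFrobenius R p i y, ⟨y, rfl⟩⟩, ?_, by simp [iterateFrobenius_def]⟩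
      rw [Set.mem_ofPred_eq, hnil]
      simp only [iterateFrobenius_def]
      exact IsNilpotent.pow_of_pos hy (pow_ne_zero _ (Fact.out : p.Prime).ne_zero)
  have e2 : Subtype.val '' ((fun x : R' => x ^ p) '' {x : R' | IsNilpotent x}) =
      (fun x : R => x ^ (p ^ (i + 1))) '' {x : R | IsNilpotent x} := by
    have e3 : Subtype.val '' ((fun x : R' => x ^ p) '' {x : R' | IsNilpotent x}) =
        (fun x : R => x ^ p) '' (Subtype.val '' {x : R' | IsNilpotent x}) := by
      rw [Set.image_image, Set.image_image]
      rfl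
    rw [e3, e1, Set.image_image]
    simp only [← pow_mul, pow_succ]
  rw [← e1, ← e2, Nat.card_image_of_injective Subtype.val_injective,
    Nat.card_image_of_injective Subtype.val_injective]
  exact key

end MP_b83a82_al.H82
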