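import Pool.Agent.Lib.MP_b83a82_al.H82.Alg2

namespace MP_b83a82_al.H82

open Module

private theorem exists_generic_not_mem {K : Type*} [Field K] {V : Type*} [AddCommGroup V]
    [Module K V] {u : Module.End K V} (hu : IsNilpotent u) {v : V} (h : u v = v) : v = 0 := by
  obtain ⟨n, hn⟩ := hu
  have : ∀ m : ℕ, (u ^ m) v = v := by
    intro m
    induction m with
    | zero => simp
    | succ m ih => rw [pow_succ, Module.End.mul_apply, h, ih]
  have h1 := this n
  rw [hn] at h1
  simpa using h1.symm

/-- [RK82 E8] commuting nilpotent operators over an infinite field: there is `v` such that `u v = 0`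
implies `u * u = 0`, and the evaluation at `v` has rank at most `finrank V - 1`.
Proof: `kernel_lemma` for the space of the maps `T w : S → V`, `T w u = u w` (`w : V`): take `v` with
`T v` of maximal rank; if `u v = 0` then `u w ∈ S v` for all `w`, so `u (u w) ∈ u S v = S u v = 0`.
`v ∉ S v` if `v ≠ 0` (an element of `S` is nilpotent), so `S v ≠ ⊤`. -/
theorem exists_generic {K : Type*} [Field K] [Infinite K] {V : Type*} [AddCommGroup V]
    [Module K V] [FiniteDimensional K V] [Nontrivial V] (S : Submodule K (Module.End K V))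
    (hcomm : ∀ x ∈ S, ∀ y ∈ S, x * y = y * x) (hnil : ∀ x ∈ S, IsNilpotent x) :
    ∃ v : V, (∀ u ∈ S, u v = 0 → u * u = 0) ∧
      finrank K S < finrank K V + finrank K (↥(S ⊓ LinearMap.ker (LinearMap.applyₗ v : Module.End K V →ₗ[K] V))) := by
  set T : V →ₗ[K] (S →ₗ[K] V) := (S.subtype : S →ₗ[K] (V →ₗ[K] V)).flip with hT
  have hTa : ∀ (w : V) (u : S), T w u = (u : Module.End K V) w := fun w u => rfl
  -- a vector with `T v` of maximal rank
  have hbdd : BddAbove (Set.range fun w : V => finrank K (LinearMap.range (T w))) := by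
    refine ⟨finrank K V, ?_⟩
    rintro _ ⟨w, rfl⟩
    exact Submodule.finrank_le _
  obtain ⟨v, hv⟩ : ∃ v : V, ∀ w : V,
      finrank K (LinearMap.range (T w)) ≤ finrank K (LinearMap.range (T v)) := by
    obtain ⟨v, hv⟩ := Nat.sSup_mem (Set.range_nonempty _) hbdd
    refine ⟨v, fun w => ?_⟩
    rw [show finrank K (LinearMap.range (T v)) = _ from hv]
    exact le_csSup hbdd ⟨w, rfl⟩
  refine ⟨v, ?_, ?_⟩
  · intro u hu huv
    have key := kernel_lemma (LinearMap.range T) (P := T v) ⟨v, rfl⟩ (by
      rintro _ ⟨w, rfl⟩
      exact hv w)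
    ext w
    have h1 := key (T w) ⟨w, rfl⟩ ⟨u, hu⟩ (by rw [hTa]; exact huv)
    obtain ⟨⟨u', hu'⟩, h2⟩ := h1
    rw [hTa, hTa] at h2
    simp only at h2
    rw [Module.End.mul_apply, ← h2, ← Module.End.mul_apply, hcomm u hu u' hu',
      Module.End.mul_apply, huv, map_zero, LinearMap.zero_apply]
  · have h1 : finrank K (LinearMap.range (T v)) + finrank K (LinearMap.ker (T v)) = finrank K S :=
      LinearMap.finrank_range_add_finrank_ker _
    have h2 : finrank K (LinearMap.ker (T v)) = finrank K (↥(S ⊓ LinearMap.ker
        (LinearMap.applyₗ v : Module.End K V →ₗ[K] V))) := by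
      have hmap : Submodule.map S.subtype (LinearMap.ker (T v)) = S ⊓ LinearMap.ker
          (LinearMap.applyₗ v : Module.End K V →ₗ[K] V) := ?_
      · rw [← Submodule.finrank_map_subtype_eq S (LinearMap.ker (T v)), hmap]
      ext x
      simp only [Submodule.mem_map, LinearMap.mem_ker, Submodule.subtype_apply, Subtype.exists,
        exists_and_right, exists_eq_right, Submodule.mem_inf, LinearMap.applyₗ_apply_apply]
      constructor
      · rintro ⟨hx, h⟩
        exact ⟨hx, h⟩
      · rintro ⟨hx, h⟩
        exact ⟨hx, h⟩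
    have h3 : finrank K (LinearMap.range (T v)) < finrank K V := by
      apply Submodule.finrank_lt
      intro htop
      by_cases hv0 : v = 0
      · have : T v = 0 := by rw [hv0, map_zero]
        rw [this, LinearMap.range_zero] at htop
        exact bot_ne_top htop
      · have hmem : v ∈ LinearMap.range (T v) := by rw [htop]; trivial
        obtain ⟨⟨u, hu⟩, h⟩ := hmem
        exact hv0 (exists_generic_not_mem (hnil u hu) h)
    omega

end MP_b83a82_al.H82
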