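import Pool.Agent.Lib.MP_b83a82_al.H82.Alg8

namespace MP_b83a82_al.H82

open Module TensorProduct

/-- a finite sum of commuting elements: the `p`-th power is additive -/
private theorem frob_rank_sum_pow {A ι : Type*} [Ring A] (p : ℕ) [Fact p.Prime] [CharP A p]
    (s : Finset ι) (y : ι → A) (h : ∀ i ∈ s, ∀ j ∈ s, Commute (y i) (y j)) :
    (∑ i ∈ s, y i) ^ p = ∑ i ∈ s, y i ^ p := by
  classical
  induction s using Finset.induction_on with
  | empty => simp [(Fact.out : p.Prime).ne_zero]
  | insert a s ha ih =>
    rw [Finset.sum_insert ha, Finset.sum_insert ha]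
    have hc : Commute (y a) (∑ i ∈ s, y i) := by
      apply Commute.sum_right
      intro i hi
      exact h a (Finset.mem_insert_self a s) i (Finset.mem_insert_of_mem hi)
    rw [add_pow_char_of_commute p hc, ih]
    intro i hi j hj
    exact h i (Finset.mem_insert_of_mem hi) j (Finset.mem_insert_of_mem hj)

/-- base change preserves linear independence of operators -/
private theorem frob_rank_indep {F K V ι : Type*} [Field F] [Field K] [Algebra F K]
    [AddCommGroup V] [Module F V] [Fintype ι] (y : ι → Module.End F V) (hy : LinearIndependent F y)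
    (c : ι → K) (hc : ∑ i, c i • (LinearMap.baseChange K (y i) : Module.End K (K ⊗[F] V)) = 0) :
    ∀ i, c i = 0 := by
  intro i
  rw [← Module.forall_dual_apply_eq_zero_iff F]
  intro φ
  have key : ∑ j, φ (c j) • y j = 0 := by
    ext v
    have h1 := congrArg (fun f : Module.End K (K ⊗[F] V) => f (1 ⊗ₜ v)) hc
    simp only [LinearMap.sum_apply, LinearMap.smul_apply, LinearMap.baseChange_tmul,
      LinearMap.zero_apply] at h1
    have h2 := congrArg (TensorProduct.lift ((LinearMap.lsmul F V).comp φ)) h1
    simp only [map_sum, TensorProduct.smul_tmul', TensorProduct.lift.tmul, map_zero,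
      LinearMap.comp_apply, smul_eq_mul, mul_one] at h2
    simpa using h2
  exact (Fintype.linearIndependent_iff.1 hy) (fun j => φ (c j)) key i

/-- [RK82 E9] `|{x^p : x ∈ N}| ≤ |V| / p` for a commutative ring `R` of operators on a finite
vector space `V ≠ 0` over `ZMod p`, `N` = the nilpotent elements of `R`.
Proof: `n = finrank V`.  The set `F(N)` of `p`-th powers of elements of `N` is a `ZMod p`-subspace;
suppose its dimension is at least `n`, choose `x 1, …, x n ∈ N` with linearly independent `x i ^ p`.
`K` = algebraic closure of `ZMod p`, `V_K = K ⊗ V` (or matrices over `K`), `X i` the base change of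
`x i`: commuting nilpotent operators, `X i ^ p` linearly independent over `K`, so the `X i` are
linearly independent and `S = span (X i)` has dimension `n`.  `exists_generic` gives `v` and
`0 ≠ u = ∑ c i • X i ∈ S` with `u v = 0`, so `u^2 = 0`, so `u^p = ∑ c i ^ p • X i ^ p = 0`, so
`c i = 0`: contradiction. -/
theorem frob_rank (p : ℕ) [Fact p.Prime] {V : Type*} [AddCommGroup V] [Module (ZMod p) V]
    [Finite V] [Nontrivial V] (R : Subalgebra (ZMod p) (Module.End (ZMod p) V))
    (hcomm : ∀ x ∈ R, ∀ y ∈ R, x * y = y * x) :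
    p * Nat.card ((fun x : Module.End (ZMod p) V => x ^ p) '' {x | x ∈ R ∧ IsNilpotent x}) ≤
      Nat.card V := by
  classical
  have hp : p.Prime := Fact.out
  have : FiniteDimensional (ZMod p) V := Module.Finite.of_finite
  have hchar : CharP (Module.End (ZMod p) V) p :=
    charP_of_injective_algebraMap (algebraMap (ZMod p) (Module.End (ZMod p) V)).injective p
  -- the subspace of p-th powers
  let P : Submodule (ZMod p) (Module.End (ZMod p) V) :=
    { carrier := (fun x : Module.End (ZMod p) V => x ^ p) '' {x | x ∈ R ∧ IsNilpotent x}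
      zero_mem' := ⟨0, ⟨R.zero_mem, IsNilpotent.zero⟩, by simp [hp.ne_zero]⟩
      add_mem' := by
        rintro _ _ ⟨x, ⟨hx, hx'⟩, rfl⟩ ⟨y, ⟨hy, hy'⟩, rfl⟩
        have hc : Commute x y := hcomm x hx y hy
        exact ⟨x + y, ⟨R.add_mem hx hy, hc.isNilpotent_add hx' hy'⟩,
          add_pow_char_of_commute p hc⟩
      smul_mem' := by
        rintro c _ ⟨x, ⟨hx, hx'⟩, rfl⟩
        refine ⟨c • x, ⟨R.smul_mem hx c, ?_⟩, ?_⟩
        · obtain ⟨k, hk⟩ := hx'
          exact ⟨k, by rw [smul_pow, hk, smul_zero]⟩
        · show (c • x) ^ p = c • x ^ p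
          rw [smul_pow, ZMod.pow_card] }
  have hcardP : Nat.card ((fun x : Module.End (ZMod p) V => x ^ p) ''
      {x | x ∈ R ∧ IsNilpotent x}) = p ^ finrank (ZMod p) P := by
    have h1 : Nat.card P = Nat.card (ZMod p) ^ finrank (ZMod p) P := Module.natCard_eq_pow_finrank
    rw [Nat.card_zmod] at h1
    exact h1
  have hcardV : Nat.card V = p ^ finrank (ZMod p) V := by
    have h1 : Nat.card V = Nat.card (ZMod p) ^ finrank (ZMod p) V := Module.natCard_eq_pow_finrank
    rw [Nat.card_zmod] at h1
    exact h1
  rw [hcardP, hcardV, ← pow_succ']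
  apply Nat.pow_le_pow_right hp.pos
  by_contra hlt
  have hle : finrank (ZMod p) V ≤ finrank (ZMod p) P := by omega
  set n := finrank (ZMod p) V with hn
  obtain ⟨f, hf⟩ := exists_linearIndependent_of_le_finrank hle
  have hf2 : LinearIndependent (ZMod p) (fun i => (f i : Module.End (ZMod p) V)) :=
    hf.map' P.subtype (Submodule.ker_subtype P)
  have hx : ∀ i, ∃ x : Module.End (ZMod p) V, (x ∈ R ∧ IsNilpotent x) ∧
      x ^ p = (f i : Module.End (ZMod p) V) := fun i => (f i).2
  choose x hxR hxf using hx
  let K := AlgebraicClosure (ZMod p)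
  have : CharP K p := charP_of_injective_algebraMap (algebraMap (ZMod p) K).injective p
  have : Infinite K := IsAlgClosed.instInfinite
  let b : Module.End (ZMod p) V → Module.End K (K ⊗[ZMod p] V) := fun y => y.baseChange K
  have hfr : finrank K (K ⊗[ZMod p] V) = n := Module.finrank_baseChange
  have : Nontrivial (K ⊗[ZMod p] V) := by
    apply Module.nontrivial_of_finrank_pos (R := K)
    rw [hfr, hn]
    exact Module.finrank_pos
  have : CharP (Module.End K (K ⊗[ZMod p] V)) p :=
    charP_of_injective_algebraMap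
      (algebraMap K (Module.End K (K ⊗[ZMod p] V))).injective p
  have hb : ∀ y, b y = Module.End.baseChangeHom (ZMod p) K V y := fun y => rfl
  have hbpow : ∀ (y : Module.End (ZMod p) V) (k : ℕ), b (y ^ k) = b y ^ k := by
    intro y k
    rw [hb, hb, map_pow]
  have hbmul : ∀ y z : Module.End (ZMod p) V, b (y * z) = b y * b z := by
    intro y z
    rw [hb, hb, hb, map_mul]
  have hbcomm : ∀ i j, Commute (b (x i)) (b (x j)) := by
    intro i j
    show b (x i) * b (x j) = b (x j) * b (x i)
    rw [← hbmul, ← hbmul, hcomm _ (hxR i).1 _ (hxR j).1]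
  have hpow : ∀ c : Fin n → K, (∑ i, c i • b (x i)) ^ p = ∑ i, c i ^ p • b (f i) := by
    intro c
    have h0 := frob_rank_sum_pow (A := Module.End K (K ⊗[ZMod p] V)) p Finset.univ
      (fun i => c i • b (x i)) (by
        intro i _ j _
        exact ((hbcomm i j).smul_left (c i)).smul_right (c j))
    refine h0.trans ?_
    refine Finset.sum_congr rfl fun i _ => ?_
    rw [smul_pow, ← hbpow, hxf]
  have hzero : ∀ c : Fin n → K, (∑ i, c i • b (x i)) ^ p = 0 → c = 0 := by
    intro c hc
    rw [hpow] at hc
    have h1 := frob_rank_indep (F := ZMod p) (K := K) (fun i => (f i : Module.End (ZMod p) V)) hf2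
      (fun i => c i ^ p) hc
    funext i
    exact (pow_eq_zero_iff hp.ne_zero).1 (h1 i)
  have hli0 : ∀ c : Fin n → K, ∑ i, c i • b (x i) = 0 → ∀ i, c i = 0 := by
    intro c hc i
    have := hzero c (by rw [hc, zero_pow hp.ne_zero])
    rw [this]; rfl
  have hli : LinearIndependent K (fun i => b (x i)) :=
    (Fintype.linearIndependent_iff (R := K) (M := Module.End K (K ⊗[ZMod p] V)) (ι := Fin n)
      (v := fun i => b (x i))).2 hli0
  let S : Submodule K (Module.End K (K ⊗[ZMod p] V)) := Submodule.span K (Set.range (fun i => b (x i)))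
  have hS : finrank K S = n := by
    show finrank K (Submodule.span K (Set.range (fun i => b (x i)))) = n
    rw [finrank_span_eq_card hli, Fintype.card_fin]
  have hmemS : ∀ u ∈ S, ∃ c : Fin n → K, ∑ i, c i • b (x i) = u := by
    intro u hu
    exact (Submodule.mem_span_range_iff_exists_fun K).1 hu
  obtain ⟨v, hv1, hv2⟩ := exists_generic S
    (by
      intro y hy z hz
      obtain ⟨c, rfl⟩ := hmemS y hy
      obtain ⟨d, rfl⟩ := hmemS z hz
      have : Commute (∑ i, c i • b (x i)) (∑ i, d i • b (x i)) := by
        apply Commute.sum_left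
        intro i _
        apply Commute.sum_right
        intro j _
        exact ((hbcomm i j).smul_left (c i)).smul_right (d j)
      exact this)
    (by
      intro y hy
      obtain ⟨c, rfl⟩ := hmemS y hy
      apply Commute.isNilpotent_sum
      · intro i _
        obtain ⟨k, hk⟩ := (hxR i).2
        refine ⟨k, ?_⟩
        rw [smul_pow, ← hbpow, hk]
        simp [b]
      · intro i j _ _
        exact ((hbcomm i j).smul_left (c i)).smul_right (c j))
  rw [hS, hfr] at hv2
  have hpos : 0 < finrank K (↥(S ⊓ LinearMap.ker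
      (LinearMap.applyₗ v : Module.End K (K ⊗[ZMod p] V) →ₗ[K] (K ⊗[ZMod p] V)))) := by omega
  have := Module.nontrivial_of_finrank_pos hpos
  obtain ⟨⟨u, hu⟩, hune⟩ := exists_ne (0 : ↥(S ⊓ LinearMap.ker
      (LinearMap.applyₗ v : Module.End K (K ⊗[ZMod p] V) →ₗ[K] (K ⊗[ZMod p] V))))
  apply hune
  obtain ⟨huS, huk⟩ := hu
  have huv : u v = 0 := by simpa using huk
  have hu2 := hv1 u huS huv
  obtain ⟨c, rfl⟩ := hmemS u huS
  have hup : (∑ i, c i • b (x i)) ^ p = 0 := by
    exact pow_eq_zero_of_le hp.two_le (by rw [pow_two]; exact hu2)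
  have := hzero c hup
  apply Subtype.ext
  simp [this]

end MP_b83a82_al.H82
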