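import Pool.Agent.Lib.MP_b83a82_al.H82.Lin5
import Pool.Agent.Lib.MP_b83a82_al.H82.Aff

namespace MP_b83a82_al.H82

open Module
open scoped commutatorElement

universe u

/-- [RK82 T2] bound for `G`-normal elementary abelian sections.
`|X : Y| = |X : D| |D : Y|` with `D = Y ⊔ (X ⊓ B)`, `|D : Y| = |X ⊓ B : Y ⊓ B| ≤ p^b`, and
`|X : D| = p^n` with (`aff_rep`, `lin_main` for `A ⊓ (X ⊔ B)`, `j = 4`)
`81 n ≤ 81 (13 a + 7 ℓ a) + 32 n`, so `n ≤ (12 (ℓ + 1) + 10) a`. -/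
theorem sec_bound2 {G : Type u} [Group G] [Finite G] {p : ℕ} [hp : Fact p.Prime]
    (hG : IsPGroup p G) {A B : Subgroup G} (hAB : ∀ g : G, ∃ a ∈ A, ∃ b ∈ B, a * b = g)
    {a b ℓ : ℕ} (hA : RkLE p A a) (hB : RkLE p B b)
    (hℓ : derivedSeries A (ℓ + 1) = ⊥ ∨ a ≤ 2 ^ ℓ) {Y X : Subgroup G} (hY : Y.Normal)
    (hX : X.Normal) (hS : ElSec p Y X) {d : ℕ} (hd : Y.relIndex X = p ^ d) :
    d ≤ b + (12 * (ℓ + 1) + 10) * a := by
  have hp1 : 1 < p := hp.out.one_lt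
  set D : Subgroup G := Y ⊔ (X ⊓ B) with hD
  have hYD : Y ≤ D := le_sup_left
  have hDX : D ≤ X := sup_le hS.1 inf_le_left
  obtain ⟨n, hn⟩ := relIndex_eq_pow hG D X
  have h1 : Y.relIndex D * D.relIndex X = Y.relIndex X :=
    Subgroup.relIndex_mul_relIndex _ _ _ hYD hDX
  have h2 : Y.relIndex D ≤ p ^ b := by
    rw [hD, Subgroup.relIndex_sup_left]
    calc Y.relIndex (X ⊓ B) ≤ (Y ⊓ B).relIndex (X ⊓ B) := relIndex_anti_left inf_le_left _
      _ ≤ p ^ b := hB _ _ inf_le_right (hS.inf B)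
  have h3 : d ≤ b + n := by
    have : p ^ d ≤ p ^ (b + n) := by
      rw [← hd, ← h1, hn, pow_add]
      exact Nat.mul_le_mul_right _ h2
    exact (Nat.pow_le_pow_iff_right hp1).mp this
  obtain ⟨V, iV1, iV2, iV3, ρ, hV, hker⟩ := aff_rep p hAB hY hX hS
  rw [← hD, hn] at hV hker
  have hV' : Nat.card V = p ^ (n + 1) := by rw [hV, pow_succ']
  have hVn : Nontrivial V := by
    have : 1 < Nat.card V := by
      rw [hV']
      exact Nat.one_lt_pow (Nat.succ_ne_zero n) hp1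
    exact Finite.one_lt_card_iff_nontrivial.mp this
  have hA1 : RkLE p (⊤ : Subgroup ↥(A ⊓ (X ⊔ B))) a := RkLE_coe (RkLE_mono inf_le_left hA)
  have hℓ' : derivedSeries ↥(A ⊓ (X ⊔ B)) (ℓ + 1) ≤ ρ.ker ∨ a ≤ 2 ^ ℓ := by
    rcases hℓ with h | h
    · left
      have hle : A ⊓ (X ⊔ B) ≤ A := inf_le_left
      have h4 := map_derivedSeries_le_derivedSeries (Subgroup.inclusion hle) (ℓ + 1)
      rw [h, le_bot_iff, Subgroup.map_eq_bot_iff_of_injective _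
        (Subgroup.inclusion_injective hle)] at h4
      rw [h4]
      exact bot_le
    · exact Or.inr h
  have h5 := lin_main p (hG.to_subgroup _) ρ hA1 hV'.le ℓ hℓ' 4
  have h6 : p ^ (n * 81) ≤ p ^ (3 ^ 4 * ((2 * 4 + 5) * a + 7 * ℓ * a) + 2 * 2 ^ 4 * (n + 1 - 1)) := by
    refine le_trans ?_ h5
    rw [pow_mul]
    exact Nat.pow_le_pow_left hker _
  have h7 := (Nat.pow_le_pow_iff_right hp1).mp h6
  have h8 : n ≤ (12 * (ℓ + 1) + 10) * a := by
    rw [Nat.add_sub_cancel] at h7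
    nlinarith [Nat.zero_le (ℓ * a)]
  omega

end MP_b83a82_al.H82
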