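import Pool.Agent.Lib.MP_b83a82_al.Main
import Pool.Agent.Lib.MP_b83a82_al.H82.Sec2

namespace MP_b83a82_al.H82

open Module
open scoped commutatorElement

universe u

/-- [RK82 F1] the section `(H W) / (K0 W)` (copy the corresponding part of `main_rk` in
`Main.lean`): its order is at most `p^m * (B ⊔ W).index`. -/
theorem sup_index {G : Type u} [Group G] [Finite G] {p m : ℕ} {B W : Subgroup G} (hW : W.Normal)
    (hB : RkLE p B m) {K0 H : Subgroup G} (hKH : ElSec p K0 H) :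
    (K0 ⊔ W).relIndex (H ⊔ W) ≤ p ^ m * (B ⊔ W).index := by
  set T := B ⊔ W with hT
  have h3 : (K0 ⊔ W).relIndex (H ⊔ W) ≤ ((K0 ⊔ W) ⊓ T).relIndex ((H ⊔ W) ⊓ T) * T.index :=
    relIndex_le_inf_mul_index T
  -- the section (H W) / (K0 W)
  have hsup : ElSec p (K0 ⊔ W) (H ⊔ W) := by
    refine ⟨sup_le_sup_right hKH.1 W, ?_, ?_⟩
    · intro x hx
      obtain ⟨h, hh, w, hw, rfl⟩ := (Subgroup.mem_sup_of_normal_right).mp hx
      have e : ((h * w : G) : G ⧸ W) = (h : G ⧸ W) := by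
        rw [QuotientGroup.mk_mul, (QuotientGroup.eq_one_iff _).mpr hw, mul_one]
      have e2 : (((h * w) ^ p : G) : G ⧸ W) = ((h ^ p : G) : G ⧸ W) := by
        rw [QuotientGroup.mk_pow, e, ← QuotientGroup.mk_pow]
      have e3 : (h ^ p)⁻¹ * (h * w) ^ p ∈ W := QuotientGroup.eq.mp e2.symm
      have e4 : (h * w) ^ p = h ^ p * ((h ^ p)⁻¹ * (h * w) ^ p) := by group
      rw [e4]
      exact Subgroup.mul_mem _ (Subgroup.mem_sup_left (hKH.2.1 h hh)) (Subgroup.mem_sup_right e3)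
    · intro x hx x' hx'
      obtain ⟨h, hh, w, hw, rfl⟩ := (Subgroup.mem_sup_of_normal_right).mp hx
      obtain ⟨h', hh', w', hw', rfl⟩ := (Subgroup.mem_sup_of_normal_right).mp hx'
      have e : ((h * w : G) : G ⧸ W) = (h : G ⧸ W) := by
        rw [QuotientGroup.mk_mul, (QuotientGroup.eq_one_iff _).mpr hw, mul_one]
      have e' : ((h' * w' : G) : G ⧸ W) = (h' : G ⧸ W) := by
        rw [QuotientGroup.mk_mul, (QuotientGroup.eq_one_iff _).mpr hw', mul_one]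
      have e2 : ((⁅h * w, h' * w'⁆ : G) : G ⧸ W) = ((⁅h, h'⁆ : G) : G ⧸ W) := by
        have e5 : ∀ a b : G, ((⁅a, b⁆ : G) : G ⧸ W) =
            (a : G ⧸ W) * (b : G ⧸ W) * (a : G ⧸ W)⁻¹ * (b : G ⧸ W)⁻¹ := fun a b => rfl
        rw [e5, e5, e, e']
      have e3 : ⁅h, h'⁆⁻¹ * ⁅h * w, h' * w'⁆ ∈ W := QuotientGroup.eq.mp e2.symm
      have e4 : ⁅h * w, h' * w'⁆ = ⁅h, h'⁆ * (⁅h, h'⁆⁻¹ * ⁅h * w, h' * w'⁆) := by group
      rw [e4]
      exact Subgroup.mul_mem _ (Subgroup.mem_sup_left (hKH.2.2 h hh h' hh'))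
        (Subgroup.mem_sup_right e3)
  have h4 : ((K0 ⊔ W) ⊓ T).relIndex ((H ⊔ W) ⊓ T) ≤ p ^ m := by
    have h5 : ((K0 ⊔ W) ⊓ T).relIndex ((H ⊔ W) ⊓ T) ≤
        ((K0 ⊔ W) ⊓ T).relIndex ((H ⊔ W) ⊓ B) := by
      refine relIndex_le_of_cover (inf_le_inf_left _ le_sup_left) ?_
      intro t ht
      obtain ⟨b, hb, w, hw, rfl⟩ := (Subgroup.mem_sup_of_normal_right).mp ht.2
      have hb' : b ∈ H ⊔ W := by
        have : b * w * w⁻¹ ∈ H ⊔ W :=
          Subgroup.mul_mem _ ht.1 (Subgroup.inv_mem _ (Subgroup.mem_sup_right hw))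
        simpa using this
      refine ⟨b, ⟨hb', hb⟩, ?_⟩
      have : b⁻¹ * (b * w) = w := by group
      rw [this]
      exact ⟨Subgroup.mem_sup_right hw, Subgroup.mem_sup_right hw⟩
    refine h5.trans ?_
    have h6 : ((K0 ⊔ W) ⊓ T).relIndex ((H ⊔ W) ⊓ B) ≤
        ((K0 ⊔ W) ⊓ B).relIndex ((H ⊔ W) ⊓ B) :=
      relIndex_anti_left (inf_le_inf_left _ le_sup_left) _
    exact h6.trans (hB _ _ inf_le_right (hsup.inf B))
  exact h3.trans (Nat.mul_le_mul_right _ h4)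

/-- [RK82 F1] ranks inside the centralizer of a maximal abelian normal subgroup of exponent `p^2`:
`H ⊓ C` (as a type) is `PC`, so by `PC.rank` the index is at most the number of elements of
`H ⊓ C` with `x ^ p = 1`, all of which lie in `M` (`alperin`), so in `U`. -/
theorem rank_cent {G : Type u} [Group G] [Finite G] {p : ℕ} [hp : Fact p.Prime]
    (hG : IsPGroup p G) {M U : Subgroup G} (hM : MaxAb p M)
    (hU : ∀ x, x ∈ U ↔ x ∈ M ∧ x ^ p = 1) {K0 H : Subgroup G} (hKH : ElSec p K0 H) :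
    (K0 ⊓ Subgroup.centralizer (M : Set G)).relIndex (H ⊓ Subgroup.centralizer (M : Set G)) ≤
      Nat.card U := by
  have hpp : p.Prime := hp.out
  set C := Subgroup.centralizer (M : Set G) with hC
  set T := H ⊓ C with hT
  have hTp : IsPGroup p T := hG.to_subgroup T
  have hPC : PC p T := by
    rintro ⟨x, hx⟩ hx2 ⟨y, hy⟩
    have h2 : x ^ (p ^ 2) = 1 := by
      have := congrArg Subtype.val hx2
      simpa using this
    have hxM := alperin hG hM hx.2 h2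
    apply Subtype.ext
    exact Subgroup.mem_centralizer_iff.mp hy.2 x hxM
  have h1 : ∀ x : T, x ^ p ∈ (K0 ⊓ C).subgroupOf T := by
    intro x
    rw [Subgroup.mem_subgroupOf]
    exact ⟨hKH.2.1 x x.2.1, Subgroup.pow_mem _ x.2.2 p⟩
  have h2 : ∀ x y : T, ⁅x, y⁆ ∈ (K0 ⊓ C).subgroupOf T := by
    intro x y
    rw [Subgroup.mem_subgroupOf]
    refine ⟨hKH.2.2 x x.2.1 y y.2.1, ?_⟩
    have e : ((⁅x, y⁆ : T) : G) = (x : G) * y * (x : G)⁻¹ * (y : G)⁻¹ := rfl
    rw [e]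
    exact Subgroup.mul_mem _ (Subgroup.mul_mem _ (Subgroup.mul_mem _ x.2.2 y.2.2)
      (Subgroup.inv_mem _ x.2.2)) (Subgroup.inv_mem _ y.2.2)
  have h3 := PC.rank hpp hTp hPC ((K0 ⊓ C).subgroupOf T) h1 h2
  refine le_trans h3 ?_
  have h4 : ∀ q : {x : T // x ^ p = 1}, (q.1 : G) ∈ U := by
    intro q
    have h5 : (q.1 : G) ^ p = 1 := by
      have := congrArg Subtype.val q.2
      simpa using this
    rw [hU]
    refine ⟨alperin hG hM q.1.2.2 ?_, h5⟩
    rw [pow_two, pow_mul, h5, one_pow]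
  refine Nat.card_le_card_of_injective (fun q : {x : T // x ^ p = 1} => (⟨(q.1 : G), h4 q⟩ : U)) ?_
  intro q r hqr
  have h6 : ((q.1 : T) : G) = ((r.1 : T) : G) := congrArg (fun u : U => (u : G)) hqr
  exact Subtype.ext (Subtype.ext h6)

end MP_b83a82_al.H82
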