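import Pool.Agent.Lib.MP_b83a82_al.H82.Fin1

namespace MP_b83a82_al.H82

open Module
open scoped commutatorElement

universe u

private theorem cent_idx_elsec {G : Type u} [Group G] {p : ℕ} {M U : Subgroup G}
    (hMc : ∀ x ∈ M, ∀ y ∈ M, x * y = y * x) (hU : ∀ x, x ∈ U ↔ x ∈ M ∧ x ^ p = 1) :
    ElSec p (⊥ : Subgroup G) U := by
  refine ⟨bot_le, ?_, ?_⟩
  · intro x hx
    rw [Subgroup.mem_bot]
    exact ((hU x).1 hx).2
  · intro x hx y hy
    rw [Subgroup.mem_bot, commutatorElement_eq_one_iff_mul_comm]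
    exact hMc x ((hU x).1 hx).1 y ((hU y).1 hy).1

private theorem cent_idx_normal {G : Type u} [Group G] {p : ℕ} {M U : Subgroup G}
    (hMn : M.Normal) (hU : ∀ x, x ∈ U ↔ x ∈ M ∧ x ^ p = 1) : U.Normal := by
  constructor
  intro x hx g
  rw [hU] at hx ⊢
  refine ⟨hMn.conj_mem x hx.1 g, ?_⟩
  rw [conj_pow, hx.2, mul_one, mul_inv_cancel]

/-- [RK82 F2] the index of the centralizer of `M` in `A`: `U = {x ∈ M | x^p = 1}` has order
`≤ p^d`; the kernel of `A` on `U` has index `≤ p^(5 a + 7 ℓ a + 2 (d - 1))` in `A` (`sect_rep` for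
`⊥ ≤ U`, restricted to `A`, `lin_main` with `j = 0`; if `U = ⊥` the index is `1`), and the
centralizer of `M` in it has index `≤ p^a` (`elsec_two_step`, `act_of_act_om`, `ElSec.inf`). -/
theorem cent_idx {G : Type u} [Group G] [Finite G] {p : ℕ} [hp : Fact p.Prime]
    (hG : IsPGroup p G) {A : Subgroup G} {a ℓ d : ℕ} (hA : RkLE p A a)
    (hℓ : derivedSeries A (ℓ + 1) = ⊥ ∨ a ≤ 2 ^ ℓ) {M U : Subgroup G} (hM : MaxAb p M)
    (hU : ∀ x, x ∈ U ↔ x ∈ M ∧ x ^ p = 1) (hd : Nat.card U ≤ p ^ d) :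
    (Subgroup.centralizer (M : Set G)).relIndex A ≤ p ^ (6 * a + 7 * ℓ * a + 2 * d) := by
  have hUn : U.Normal := cent_idx_normal hM.normal hU
  have hbn : (⊥ : Subgroup G).Normal := inferInstance
  have hMn : M.Normal := hM.normal
  have hUM : U ≤ M := fun x hx => ((hU x).1 hx).1
  have hS : ElSec p (⊥ : Subgroup G) U := cent_idx_elsec hM.comm hU
  obtain ⟨V, _, _, _, ρ, hcard, hker⟩ := sect_rep p hbn hUn hS
  rw [Subgroup.relIndex_bot_left] at hcard
  -- the kernel of `A` on `U`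
  have h1 : (actS U (⊥ : Subgroup G) hbn).relIndex A ≤ p ^ (5 * a + 7 * ℓ * a + 2 * d) := by
    have hidx : (actS U (⊥ : Subgroup G) hbn).relIndex A = (ρ.comp A.subtype).ker.index := by
      rw [← hker]
      rfl
    rw [hidx]
    by_cases hV : Nontrivial V
    · have h2 := lin_main p (hG.to_subgroup A) (ρ.comp A.subtype) (RkLE_coe hA)
        (hcard.le.trans hd) ℓ (by
          rcases hℓ with h | h
          · left
            rw [h]
            exact bot_le
          · exact Or.inr h) 0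
      rw [pow_zero, pow_one, pow_zero, one_mul] at h2
      refine h2.trans (Nat.pow_le_pow_right hp.out.pos ?_)
      omega
    · rw [not_nontrivial_iff_subsingleton] at hV
      have h2 : (ρ.comp A.subtype).ker = ⊤ := by
        rw [Subgroup.eq_top_iff']
        intro x
        rw [MonoidHom.mem_ker]
        exact Subsingleton.elim _ _
      rw [h2, Subgroup.index_top]
      exact Nat.one_le_pow _ _ hp.out.pos
  -- the centralizer of `M`
  have hcent : Subgroup.centralizer (M : Set G) = actS M (⊥ : Subgroup G) hbn := by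
    ext g
    rw [Subgroup.mem_centralizer_iff, mem_actS]
    constructor
    · intro h u hu
      rw [Subgroup.mem_bot, commutatorElement_eq_one_iff_mul_comm]
      exact (h u hu).symm
    · intro h u hu
      have := h u hu
      rw [Subgroup.mem_bot, commutatorElement_eq_one_iff_mul_comm] at this
      exact this.symm
  have h2 := elsec_two_step hMn hUn hbn hUM hS
  have h3 : actS M U hUn ⊓ actS U (⊥ : Subgroup G) hbn = actS U (⊥ : Subgroup G) hbn := by
    refine inf_eq_right.mpr ?_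
    intro g hg
    exact act_of_act_om hMn hM.comm hM.exp hU hg
  rw [h3] at h2
  have h4 : (actS M (⊥ : Subgroup G) hbn ⊓ A).relIndex (actS U (⊥ : Subgroup G) hbn ⊓ A) ≤ p ^ a :=
    hA _ _ inf_le_right (h2.inf A)
  have h5 : (actS M (⊥ : Subgroup G) hbn ⊓ A).relIndex (actS U (⊥ : Subgroup G) hbn ⊓ A) *
      (actS U (⊥ : Subgroup G) hbn ⊓ A).relIndex A = (actS M (⊥ : Subgroup G) hbn ⊓ A).relIndex A :=
    Subgroup.relIndex_mul_relIndex _ _ _ (inf_le_inf_right A h2.1) inf_le_right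
  rw [Subgroup.inf_relIndex_right, Subgroup.inf_relIndex_right] at h5
  rw [hcent, ← h5]
  calc (actS M (⊥ : Subgroup G) hbn ⊓ A).relIndex (actS U (⊥ : Subgroup G) hbn ⊓ A) *
        (actS U (⊥ : Subgroup G) hbn).relIndex A ≤ p ^ a * p ^ (5 * a + 7 * ℓ * a + 2 * d) :=
        Nat.mul_le_mul h4 h1
    _ = p ^ (6 * a + 7 * ℓ * a + 2 * d) := by
        rw [← pow_add]
        congr 1
        ring

/-- [RK82 F2] the main bound.  `exists_d` (Main.lean) gives `d`, attained, so
`d ≤ b + (12 (ℓ+1) + 10) a` by `sec_bound2`.  `M` from `exists_maxAb` (with `M0 = ⊥`),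
`C = centralizer M` (normal), `U` normal elementary abelian, `|U| ≤ p^d`.
`relIndex_le_sup_mul_inf`, `sup_index` (with `W = C`), `rank_cent`,
`(B ⊔ C).index ≤ C.relIndex A` (`relIndex_le_of_cover`), `cent_idx`:
exponent `b + (6 a + 7 ℓ a + 2 d) + d ≤ 4 b + 72 (ℓ + 1) a`. -/
theorem main_lin {G : Type u} [Group G] [Finite G] {p : ℕ} [hp : Fact p.Prime]
    (hG : IsPGroup p G) {A B : Subgroup G} (hAB : ∀ g : G, ∃ a ∈ A, ∃ b ∈ B, a * b = g)
    {a b ℓ : ℕ} (hA : RkLE p A a) (hB : RkLE p B b)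
    (hℓ : derivedSeries A (ℓ + 1) = ⊥ ∨ a ≤ 2 ^ ℓ) :
    RkLE p (⊤ : Subgroup G) (4 * b + 72 * (ℓ + 1) * a) := by
  obtain ⟨d, hd, Y, X, hY, hX, hS, hYX⟩ := exists_d hG
  have hdb : d ≤ b + (12 * (ℓ + 1) + 10) * a := sec_bound2 hG hAB hA hB hℓ hY hX hS hYX
  obtain ⟨M, hM, -⟩ := exists_maxAb p (⊥ : Subgroup G) inferInstance
    (by
      intro x hx y hy
      rw [Subgroup.mem_bot] at hx hy
      rw [hx, hy])
    (by
      intro x hx
      rw [Subgroup.mem_bot] at hx
      rw [hx, one_pow])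
  have hMn : M.Normal := hM.normal
  have hbn : (⊥ : Subgroup G).Normal := inferInstance
  have hcom : ∀ x ∈ M, ∀ x' ∈ M, ⁅x, x'⁆ ∈ (⊥ : Subgroup G) := by
    intro x hx y hy
    rw [Subgroup.mem_bot, commutatorElement_eq_one_iff_mul_comm]
    exact hM.comm x hx y hy
  have hU : ∀ x, x ∈ rootS p hbn hcom ↔ x ∈ M ∧ x ^ p = 1 := by
    intro x
    rw [mem_rootS, Subgroup.mem_bot]
  generalize rootS p hbn hcom = U at hU
  have hUn : U.Normal := cent_idx_normal hMn hU
  have hUd : Nat.card U ≤ p ^ d := by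
    have := hd ⊥ U hbn hUn (cent_idx_elsec hM.comm hU)
    rwa [Subgroup.relIndex_bot_left] at this
  have hcidx := cent_idx hG hA hℓ hM hU hUd
  intro K0 H _ hKH
  have hrc := (rank_cent hG hM hU hKH).trans hUd
  have hCn : (Subgroup.centralizer (M : Set G)).Normal := inferInstance
  generalize Subgroup.centralizer (M : Set G) = C at hcidx hrc hCn
  have hsi := sup_index hCn hB hKH
  have hTidx : (B ⊔ C).index ≤ p ^ (6 * a + 7 * ℓ * a + 2 * d) := by
    rw [← Subgroup.relIndex_top_right]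
    refine (relIndex_le_of_cover (U := A) le_top ?_).trans
      ((relIndex_anti_left le_sup_right A).trans hcidx)
    intro t _
    obtain ⟨a, ha, b, hb, rfl⟩ := hAB t
    refine ⟨a, ha, ?_⟩
    have : a⁻¹ * (a * b) = b := by group
    rw [this]
    exact Subgroup.mem_sup_left hb
  calc K0.relIndex H ≤ (K0 ⊔ C).relIndex (H ⊔ C) * (K0 ⊓ C).relIndex (H ⊓ C) :=
        relIndex_le_sup_mul_inf hKH.1 C
    _ ≤ (p ^ b * p ^ (6 * a + 7 * ℓ * a + 2 * d)) * p ^ d :=
        Nat.mul_le_mul (hsi.trans (Nat.mul_le_mul_left _ hTidx)) hrc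
    _ = p ^ (b + (6 * a + 7 * ℓ * a + 2 * d) + d) := by rw [← pow_add, ← pow_add]
    _ ≤ p ^ (4 * b + 72 * (ℓ + 1) * a) := by
        refine Nat.pow_le_pow_right hp.out.pos ?_
        have e1 : (12 * (ℓ + 1) + 10) * a = 12 * (ℓ * a) + 22 * a := by ring
        have e2 : 72 * (ℓ + 1) * a = 72 * (ℓ * a) + 72 * a := by ring
        have e3 : 7 * ℓ * a = 7 * (ℓ * a) := by ring
        rw [e1] at hdb
        rw [e2, e3]
        omega

end MP_b83a82_al.H82
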