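import Pool.Agent.Lib.MP_b83a82_al.Core
import Pool.Agent.Lib.MP_b83a82_al.H82.Alg7
import Pool.Agent.Lib.MP_b83a82_al.H82.Alg9

namespace MP_b83a82_al.H82

open Module

/-- [RK82 E10] the ring generated by commuting unipotent operators.
Proof: `R = Algebra.adjoin (ZMod p) (Set.range ρ)` is commutative
(`Algebra.adjoinCommRingOfComm` / `Algebra.adjoin_comm`), every `ρ h - 1` is nilpotent
(`(ρ h - 1)^(p^k) = ρ h ^ (p^k) - 1 = 0`), and the elements `c + nilpotent` form a subalgebra.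
Apply `frob_rank` and `eggert_iter` (for the commutative ring `R`). -/
theorem ab_ring (p : ℕ) [Fact p.Prime] {H : Type*} [Group H] [Finite H] (hH : IsPGroup p H)
    (hcomm : ∀ x y : H, x * y = y * x) {V : Type*} [AddCommGroup V] [Module (ZMod p) V]
    [Finite V] [Nontrivial V] (ρ : H →* Module.End (ZMod p) V) :
    ∃ f : ℕ → ℕ, (∀ i, 0 < f i) ∧ p * f 1 ≤ Nat.card V ∧ (∀ i, f (i + 1) ^ 3 ≤ f i ^ 2) ∧
      ∀ i, Nat.card (Set.range fun h : H => ρ h ^ (p ^ i)) ≤ f i := by
  classical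
  have hcs : ∀ a ∈ Set.range ρ, ∀ b ∈ Set.range ρ, a * b = b * a := by
    rintro _ ⟨x, rfl⟩ _ ⟨y, rfl⟩
    rw [← map_mul, ← map_mul, hcomm]
  have hchE : CharP (Module.End (ZMod p) V) p :=
    charP_of_injective_algebraMap
      (FaithfulSMul.algebraMap_injective (ZMod p) (Module.End (ZMod p) V)) p
  have hfinE : Finite (Module.End (ZMod p) V) :=
    Finite.of_injective (fun g : Module.End (ZMod p) V => (g : V → V)) DFunLike.coe_injective
  set R : Subalgebra (ZMod p) (Module.End (ZMod p) V) :=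
    Algebra.adjoin (ZMod p) (Set.range ρ) with hR
  let _ : CommRing R := Algebra.adjoinCommRingOfComm (ZMod p) hcs
  have hchR : CharP R p :=
    charP_of_injective_ringHom (f := (algebraMap (ZMod p) R)) (algebraMap (ZMod p) R).injective p
  have hmem : ∀ h : H, ρ h ∈ R := fun h => Algebra.subset_adjoin ⟨h, rfl⟩
  -- `ρ h - 1` is nilpotent
  have hpow : ∀ (x : Module.End (ZMod p) V) (k : ℕ), (x - 1) ^ (p ^ k) = x ^ (p ^ k) - 1 := by
    intro x k
    rw [sub_pow_char_pow_of_commute _ _ (Commute.one_right x), one_pow]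
  have hnil : ∀ h : H, IsNilpotent ((⟨ρ h, hmem h⟩ : R) - 1) := by
    intro h
    obtain ⟨k, hk⟩ := hH h
    refine ⟨p ^ k, ?_⟩
    apply Subtype.ext
    change (ρ h - 1) ^ (p ^ k) = 0
    rw [hpow, ← map_pow, hk, map_one, sub_self]
  have hloc : ∀ x : R, ∃ c : ℕ, IsNilpotent (x - (c : R)) := by
    rintro ⟨x, hx⟩
    induction hx using Algebra.adjoin_induction with
    | mem x hx =>
      obtain ⟨h, rfl⟩ := hx
      exact ⟨1, by rw [Nat.cast_one]; exact hnil h⟩
    | algebraMap r =>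
      refine ⟨r.val, ?_⟩
      have : (⟨algebraMap (ZMod p) (Module.End (ZMod p) V) r, Subalgebra.algebraMap_mem _ _⟩ : R) -
          (r.val : R) = 0 := by
        rw [sub_eq_zero]
        have h1 : (algebraMap (ZMod p) R r) = ((r.val : ℕ) : R) := by
          conv_lhs => rw [← ZMod.natCast_zmod_val r]
          exact map_natCast _ _
        exact h1
      rw [this]
      exact IsNilpotent.zero
    | add x y hx hy ihx ihy =>
      obtain ⟨c, hc⟩ := ihx
      obtain ⟨d, hd⟩ := ihy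
      refine ⟨c + d, ?_⟩
      rw [← mem_nilradical] at hc hd ⊢
      have : (⟨x + y, Subalgebra.add_mem _ hx hy⟩ : R) - ((c + d : ℕ) : R) =
          ((⟨x, hx⟩ : R) - c) + ((⟨y, hy⟩ : R) - d) := by
        have h0 : (⟨x + y, Subalgebra.add_mem _ hx hy⟩ : R) = (⟨x, hx⟩ : R) + (⟨y, hy⟩ : R) := rfl
        rw [h0]
        push_cast
        ring
      rw [this]
      exact Ideal.add_mem _ hc hd
    | mul x y hx hy ihx ihy =>
      obtain ⟨c, hc⟩ := ihx
      obtain ⟨d, hd⟩ := ihy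
      refine ⟨c * d, ?_⟩
      rw [← mem_nilradical] at hc hd ⊢
      have : (⟨x * y, Subalgebra.mul_mem _ hx hy⟩ : R) - ((c * d : ℕ) : R) =
          ((⟨x, hx⟩ : R) - c) * (⟨y, hy⟩ : R) + (c : R) * ((⟨y, hy⟩ : R) - d) := by
        have h0 : (⟨x * y, Subalgebra.mul_mem _ hx hy⟩ : R) = (⟨x, hx⟩ : R) * (⟨y, hy⟩ : R) := rfl
        rw [h0]
        push_cast
        ring
      rw [this]
      exact Ideal.add_mem _ (Ideal.mul_mem_right _ _ hc) (Ideal.mul_mem_left _ _ hd)
  refine ⟨fun i => Nat.card ((fun x : R => x ^ (p ^ i)) '' {x : R | IsNilpotent x}), ?_, ?_, ?_, ?_⟩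
  · intro i
    have : Nonempty ((fun x : R => x ^ (p ^ i)) '' {x : R | IsNilpotent x}) :=
      ⟨⟨_, 0, IsNilpotent.zero, rfl⟩⟩
    exact Nat.card_pos
  · refine le_trans (Nat.mul_le_mul_left p ?_) (frob_rank p R ?_)
    · beta_reduce
      rw [← Nat.card_image_of_injective (Subtype.val_injective (p := fun x => x ∈ R))
        ((fun x : R => x ^ (p ^ 1)) '' {x : R | IsNilpotent x})]
      apply Nat.card_mono (Set.toFinite _)
      rintro _ ⟨_, ⟨x, hx, rfl⟩, rfl⟩
      obtain ⟨k, hk⟩ := hx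
      refine ⟨x.1, ⟨x.2, k, ?_⟩, ?_⟩
      · exact congrArg Subtype.val hk
      · change x.1 ^ p = (x ^ (p ^ 1)).1
        rw [pow_one]
        rfl
    · intro x hx y hy
      exact congrArg Subtype.val (mul_comm (⟨x, hx⟩ : R) (⟨y, hy⟩ : R))
  · intro i
    exact eggert_iter p hloc i
  · intro i
    have hinj : Function.Injective (fun y : Module.End (ZMod p) V => y - 1) := sub_left_injective
    beta_reduce
    rw [← Nat.card_image_of_injective hinj,
      ← Nat.card_image_of_injective (Subtype.val_injective (p := fun x => x ∈ R))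
        ((fun x : R => x ^ (p ^ i)) '' {x : R | IsNilpotent x})]
    apply Nat.card_mono (Set.toFinite _)
    rintro _ ⟨_, ⟨h, rfl⟩, rfl⟩
    refine ⟨_, ⟨(⟨ρ h, hmem h⟩ : R) - 1, hnil h, rfl⟩, ?_⟩
    change (ρ h - 1) ^ (p ^ i) = ρ h ^ (p ^ i) - 1
    exact hpow _ _

end MP_b83a82_al.H82
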