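import Pool.Agent.Lib.MP_b83a82_al.Core
import Pool.Agent.Lib.MP_b83a82_al.H82.Lin1a

namespace MP_b83a82_al.H82

open Module
open scoped commutatorElement

/-- powers of a commuting representation -/
private def abPow {R : Type*} [Monoid R] {H : Type*} [Group H]
    (hcomm : ∀ x y : H, x * y = y * x) (ρ : H →* R) (m : ℕ) : H →* R where
  toFun h := ρ h ^ m
  map_one' := by rw [map_one, one_pow]
  map_mul' x y := by
    have h : Commute (ρ x) (ρ y) := by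
      unfold Commute SemiconjBy
      rw [← map_mul, ← map_mul, hcomm x y]
    rw [map_mul, h.mul_pow]

private theorem abIndex {R : Type*} [Monoid R] {H : Type*} [Group H] (ψ : H →* R) :
    ψ.ker.index = Nat.card (Set.range ψ) := by
  have h1 : ψ.toHomUnits.ker = ψ.ker := by
    ext x
    rw [MonoidHom.mem_ker, MonoidHom.mem_ker, Units.ext_iff, MonoidHom.coe_toHomUnits]
    rfl
  rw [← h1, Subgroup.index_ker]
  have h2 : Set.range ψ = (fun u : Rˣ => (u : R)) '' (ψ.toHomUnits.range : Set Rˣ) := by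
    ext r
    constructor
    · rintro ⟨x, rfl⟩
      exact ⟨ψ.toHomUnits x, ⟨x, rfl⟩, MonoidHom.coe_toHomUnits ψ x⟩
    · rintro ⟨u, ⟨x, rfl⟩, rfl⟩
      exact ⟨x, (MonoidHom.coe_toHomUnits ψ x).symm⟩
  rw [h2, Nat.card_image_of_injective (fun _ _ h => Units.ext h)]
  rfl

private theorem abStep {R : Type*} [Monoid R] {H : Type*} [Group H] [Finite H]
    (hcomm : ∀ x y : H, x * y = y * x) (ρ : H →* R) {p a : ℕ} (ha : RkLE p (⊤ : Subgroup H) a)
    (i : ℕ) :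
    (abPow hcomm ρ (p ^ i)).ker.index ≤ p ^ a * (abPow hcomm ρ (p ^ (i + 1))).ker.index := by
  have hle : (abPow hcomm ρ (p ^ i)).ker ≤ (abPow hcomm ρ (p ^ (i + 1))).ker := by
    intro x hx
    rw [MonoidHom.mem_ker] at hx ⊢
    change ρ x ^ (p ^ i) = 1 at hx
    change ρ x ^ (p ^ (i + 1)) = 1
    rw [pow_succ, pow_mul, hx, one_pow]
  rw [← Subgroup.relIndex_mul_index hle]
  refine Nat.mul_le_mul_right _ (ha _ _ le_top ⟨hle, ?_, ?_⟩)
  · intro x hx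
    rw [MonoidHom.mem_ker] at hx ⊢
    change ρ x ^ (p ^ (i + 1)) = 1 at hx
    change ρ (x ^ p) ^ (p ^ i) = 1
    rw [map_pow, ← pow_mul, ← pow_succ', hx]
  · intro x _ y _
    have : ⁅x, y⁆ = 1 := commutatorElement_eq_one_iff_mul_comm.mpr (hcomm x y)
    rw [this]
    exact Subgroup.one_mem _

private theorem abIter {R : Type*} [Monoid R] {H : Type*} [Group H] [Finite H]
    (hcomm : ∀ x y : H, x * y = y * x) (ρ : H →* R) {p a : ℕ} (ha : RkLE p (⊤ : Subgroup H) a)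
    (j : ℕ) : ρ.ker.index ≤ p ^ (j * a) * (abPow hcomm ρ (p ^ j)).ker.index := by
  induction j with
  | zero =>
    have : (abPow hcomm ρ (p ^ 0)).ker = ρ.ker := by
      ext x
      rw [MonoidHom.mem_ker, MonoidHom.mem_ker]
      change ρ x ^ (p ^ 0) = 1 ↔ _
      rw [pow_zero, pow_one]
    rw [this, zero_mul, pow_zero, one_mul]
  | succ j ih =>
    refine ih.trans ?_
    calc p ^ (j * a) * (abPow hcomm ρ (p ^ j)).ker.index
        ≤ p ^ (j * a) * (p ^ a * (abPow hcomm ρ (p ^ (j + 1))).ker.index) :=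
          Nat.mul_le_mul_left _ (abStep hcomm ρ ha j)
      _ = p ^ ((j + 1) * a) * (abPow hcomm ρ (p ^ (j + 1))).ker.index := by
          rw [← mul_assoc, ← pow_add, add_mul, one_mul]

private theorem abSeq (f : ℕ → ℕ) (hf : ∀ i, f (i + 1) ^ 3 ≤ f i ^ 2) (j : ℕ) :
    f (j + 1) ^ (3 ^ j) ≤ f 1 ^ (2 ^ j) := by
  induction j with
  | zero => simp
  | succ j ih =>
    calc f (j + 1 + 1) ^ (3 ^ (j + 1)) = (f (j + 1 + 1) ^ 3) ^ (3 ^ j) := by
          rw [← pow_mul, pow_succ' 3 j]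
      _ ≤ (f (j + 1) ^ 2) ^ (3 ^ j) := Nat.pow_le_pow_left (hf (j + 1)) _
      _ = (f (j + 1) ^ (3 ^ j)) ^ 2 := by rw [← pow_mul, ← pow_mul, mul_comm]
      _ ≤ (f 1 ^ (2 ^ j)) ^ 2 := Nat.pow_le_pow_left ih 2
      _ = f 1 ^ (2 ^ (j + 1)) := by rw [← pow_mul, pow_succ 2 j]

/-- [RK82 E11] abelian linear `p`-groups.
Proof: `g i = Nat.card (range (h ↦ ρ h ^ (p^i)))`.  `g i ≤ p^a * g (i+1)`: the `p`-th power map on
the abelian group `(H / ker ρ)^(p^i)` has as kernel a section of `H` of exponent `p` (use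
`RkLE` with `K = ker ρ`-type subgroups of `H`).  So `ρ.ker.index = g 0 ≤ p^((j+1) a) * g (j+1)`,
`g (j+1) ≤ f (j+1)`, `f (j+1)^(3^j) ≤ f 1 ^ (2^j) ≤ p^(2^j (n-1))`. -/
theorem ab_bound (p : ℕ) [Fact p.Prime] {H : Type*} [Group H] [Finite H] (hH : IsPGroup p H)
    (hcomm : ∀ x y : H, x * y = y * x) {V : Type*} [AddCommGroup V] [Module (ZMod p) V]
    [Finite V] [Nontrivial V] (ρ : H →* Module.End (ZMod p) V) {a n : ℕ}
    (ha : RkLE p (⊤ : Subgroup H) a) (hn : Nat.card V ≤ p ^ n) (j : ℕ) :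
    ρ.ker.index ^ (3 ^ j) ≤ p ^ (3 ^ j * ((j + 1) * a) + 2 ^ j * (n - 1)) := by
  obtain ⟨f, hf0, hf1, hf2, hf3⟩ := ab_ring p hH hcomm ρ
  have hp : 0 < p := (Fact.out : p.Prime).pos
  have hp1 : 1 < p := (Fact.out : p.Prime).one_lt
  have hn1 : f 1 ≤ p ^ (n - 1) := by
    have h1 : p * f 1 ≤ p ^ n := hf1.trans hn
    rcases Nat.eq_zero_or_pos n with h0 | h0
    · exfalso
      rw [h0, pow_zero] at h1
      have h2 : p * 1 ≤ p * f 1 := Nat.mul_le_mul_left _ (hf0 1)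
      omega
    · obtain ⟨m, rfl⟩ : ∃ m, n = m + 1 := ⟨n - 1, by omega⟩
      rw [pow_succ'] at h1
      exact Nat.le_of_mul_le_mul_left h1 hp
  have h1 := abIter hcomm ρ ha (j + 1)
  have h2 : (abPow hcomm ρ (p ^ (j + 1))).ker.index ≤ f (j + 1) := by
    rw [abIndex]
    exact hf3 (j + 1)
  calc ρ.ker.index ^ (3 ^ j) ≤ (p ^ ((j + 1) * a) * f (j + 1)) ^ (3 ^ j) :=
        Nat.pow_le_pow_left (h1.trans (Nat.mul_le_mul_left _ h2)) _
    _ = p ^ (3 ^ j * ((j + 1) * a)) * f (j + 1) ^ (3 ^ j) := by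
        rw [mul_pow, ← pow_mul, mul_comm ((j + 1) * a) (3 ^ j)]
    _ ≤ p ^ (3 ^ j * ((j + 1) * a)) * (p ^ (n - 1)) ^ (2 ^ j) :=
        Nat.mul_le_mul_left _ ((abSeq f hf2 j).trans (Nat.pow_le_pow_left hn1 _))
    _ = p ^ (3 ^ j * ((j + 1) * a) + 2 ^ j * (n - 1)) := by
        rw [← pow_mul, ← pow_add, mul_comm (n - 1) (2 ^ j)]

end MP_b83a82_al.H82
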