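import Pool.Agent.Lib.MP_b83a82_al.Core

/-! derived length of linear `p`-groups. -/

namespace MP_b83a82_al.H82

open Module
open scoped commutatorElement

universe u

section aux

variable {p : ℕ} {A : Type u} [Group A] {V : Type u} [AddCommGroup V] [Module (ZMod p) V]

/-- the preimage of the fixed vectors of the quotient by `W` -/
private def dlFx (ρ : A →* Module.End (ZMod p) V) (W : Submodule (ZMod p) V) :
    Submodule (ZMod p) V := ⨅ g : A, W.comap (ρ g - 1)

private theorem mem_dlFx (ρ : A →* Module.End (ZMod p) V) (W : Submodule (ZMod p) V) (v : V) :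
    v ∈ dlFx ρ W ↔ ∀ g : A, ρ g v - v ∈ W := by
  simp [dlFx, Submodule.mem_iInf]

private theorem dlFx_mono (ρ : A →* Module.End (ZMod p) V) {W W' : Submodule (ZMod p) V}
    (h : W ≤ W') : dlFx ρ W ≤ dlFx ρ W' := by
  intro v hv
  rw [mem_dlFx] at hv ⊢
  exact fun g => h (hv g)

/-- the ascending filtration -/
private def dlU (ρ : A →* Module.End (ZMod p) V) : ℕ → Submodule (ZMod p) V
  | 0 => ⊥
  | n + 1 => dlFx ρ (dlU ρ n)

private theorem dlU_succ (ρ : A →* Module.End (ZMod p) V) (n : ℕ) :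
    dlU ρ (n + 1) = dlFx ρ (dlU ρ n) := rfl

private theorem dlU_le_succ (ρ : A →* Module.End (ZMod p) V) (n : ℕ) :
    dlU ρ n ≤ dlU ρ (n + 1) := by
  induction n with
  | zero => exact bot_le
  | succ n ih => exact dlFx_mono ρ ih

private theorem dlU_mono (ρ : A →* Module.End (ZMod p) V) : Monotone (dlU ρ) :=
  monotone_nat_of_le_succ (dlU_le_succ ρ)

private theorem dlU_sub (ρ : A →* Module.End (ZMod p) V) (n : ℕ) (g : A) {v : V}
    (hv : v ∈ dlU ρ (n + 1)) : ρ g v - v ∈ dlU ρ n := by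
  rw [dlU_succ, mem_dlFx] at hv
  exact hv g

private theorem dlU_inv (ρ : A →* Module.End (ZMod p) V) (n : ℕ) (g : A) {v : V}
    (hv : v ∈ dlU ρ n) : ρ g v ∈ dlU ρ n := by
  have h := dlU_sub ρ n g (dlU_le_succ ρ n hv)
  have h2 := (dlU ρ n).add_mem h hv
  rwa [sub_add_cancel] at h2

private theorem dlU_lt (ρ : A →* Module.End (ZMod p) V) [Fact p.Prime] [Finite A] [Finite V]
    (hA : IsPGroup p A) (n : ℕ) (h : dlU ρ n ≠ ⊤) : dlU ρ n < dlU ρ (n + 1) := by
  refine lt_of_le_of_ne (dlU_le_succ ρ n) fun heq => ?_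
  set W := dlU ρ n with hW
  have hinv : ∀ g : A, W ≤ W.comap (ρ g) := fun g v hv => dlU_inv ρ n g hv
  let act : MulAction A (V ⧸ W) :=
    { smul := fun g x => W.mapQ W (ρ g) (hinv g) x
      one_smul := by
        intro x
        obtain ⟨v, rfl⟩ := Submodule.Quotient.mk_surjective W x
        change W.mapQ W (ρ 1) (hinv 1) (Submodule.Quotient.mk v) = _
        rw [Submodule.mapQ_apply, map_one]
        rfl
      mul_smul := by
        intro g h x
        obtain ⟨v, rfl⟩ := Submodule.Quotient.mk_surjective W x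
        change W.mapQ W (ρ (g * h)) (hinv (g * h)) (Submodule.Quotient.mk v) =
          W.mapQ W (ρ g) (hinv g) (W.mapQ W (ρ h) (hinv h) (Submodule.Quotient.mk v))
        rw [Submodule.mapQ_apply, Submodule.mapQ_apply, Submodule.mapQ_apply, map_mul]
        rfl }
  have hact : ∀ (g : A) (v : V), act.smul g (Submodule.Quotient.mk v) =
      (Submodule.Quotient.mk (ρ g v) : V ⧸ W) := fun g v => rfl
  have hnt : Nontrivial (V ⧸ W) := Submodule.Quotient.nontrivial_iff.2 h
  have hfin : Finite (V ⧸ W) := Finite.of_surjective _ (Submodule.mkQ_surjective W)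
  have hcard : p ∣ Nat.card (V ⧸ W) := by
    have h1 : Nat.card (V ⧸ W) = p ^ Module.finrank (ZMod p) (V ⧸ W) := by
      rw [Module.natCard_eq_pow_finrank (K := ZMod p), Nat.card_zmod]
    rw [h1]
    exact dvd_pow_self p (Module.finrank_pos).ne'
  have h0 : (0 : V ⧸ W) ∈ @MulAction.fixedPoints A (V ⧸ W) _ act := by
    intro g
    change W.mapQ W (ρ g) (hinv g) 0 = 0
    exact map_zero _
  obtain ⟨b, hb, hb0⟩ := @IsPGroup.exists_fixed_point_of_prime_dvd_card_of_fixed_point p A _ hA _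
    (V ⧸ W) act _ hcard 0 h0
  obtain ⟨v, rfl⟩ := Submodule.Quotient.mk_surjective W b
  have hv : v ∈ dlU ρ (n + 1) := by
    rw [dlU_succ, mem_dlFx]
    intro g
    have h1 : W.mapQ W (ρ g) (hinv g) (Submodule.Quotient.mk v) = Submodule.Quotient.mk v := hb g
    rw [Submodule.mapQ_apply, Submodule.Quotient.eq] at h1
    exact h1
  rw [← heq] at hv
  exact hb0 ((Submodule.Quotient.mk_eq_zero W).2 hv).symm

private theorem dlU_top (ρ : A →* Module.End (ZMod p) V) [Fact p.Prime] [Finite A] [Finite V]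
    (hA : IsPGroup p A) (n : ℕ) : dlU ρ n = ⊤ ∨ n ≤ Module.finrank (ZMod p) (dlU ρ n) := by
  induction n with
  | zero => exact Or.inr (Nat.zero_le _)
  | succ n ih =>
    by_cases h : dlU ρ n = ⊤
    · left
      have := dlU_le_succ ρ n
      rw [h] at this
      exact top_le_iff.1 this
    · right
      rcases ih with h1 | h1
      · exact absurd h1 h
      · have h2 := Submodule.finrank_lt_finrank_of_lt (dlU_lt ρ hA n h)
        omega

/-- the elements that shift the filtration by `i` -/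
private def dlD (ρ : A →* Module.End (ZMod p) V) (i : ℕ) : Subgroup A where
  carrier := {g | ∀ j, ∀ v ∈ dlU ρ (j + i), ρ g v - v ∈ dlU ρ j}
  one_mem' := by
    intro j v _
    rw [map_one]
    simp
  mul_mem' := by
    intro g h hg hh j v hv
    have e : ρ (g * h) v - v = ρ g (ρ h v - v) + (ρ g v - v) := by
      rw [map_mul, Module.End.mul_apply, map_sub]
      abel
    rw [e]
    exact (dlU ρ j).add_mem (dlU_inv ρ j g (hh j v hv)) (hg j v hv)
  inv_mem' := by
    intro g hg j v hv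
    have e : ρ g⁻¹ v - v = -ρ g⁻¹ (ρ g v - v) := by
      rw [map_sub, ← Module.End.mul_apply, ← map_mul, inv_mul_cancel, map_one,
        Module.End.one_apply, neg_sub]
    rw [e]
    exact (dlU ρ j).neg_mem (dlU_inv ρ j g⁻¹ (hg j v hv))

private theorem mem_dlD (ρ : A →* Module.End (ZMod p) V) (i : ℕ) (g : A) :
    g ∈ dlD ρ i ↔ ∀ j, ∀ v ∈ dlU ρ (j + i), ρ g v - v ∈ dlU ρ j := Iff.rfl

private theorem dlD_comm (ρ : A →* Module.End (ZMod p) V) (i : ℕ) :
    ⁅dlD ρ i, dlD ρ i⁆ ≤ dlD ρ (i + i) := by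
  rw [Subgroup.commutator_le]
  intro g hg h hh
  rw [mem_dlD] at *
  intro j v hv
  rw [← add_assoc] at hv
  set w : V := ρ (g⁻¹ * h⁻¹) v with hw
  have hwm : w ∈ dlU ρ (j + i + i) := dlU_inv ρ _ _ hv
  have e1 : ρ ⁅g, h⁆ v = ρ g (ρ h w) := by
    rw [hw, ← Module.End.mul_apply, ← Module.End.mul_apply, ← map_mul, ← map_mul]
    congr 2
    rw [commutatorElement_def]
    group
  have e2 : v = ρ h (ρ g w) := by
    rw [hw, ← Module.End.mul_apply, ← Module.End.mul_apply, ← map_mul, ← map_mul]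
    have : h * g * (g⁻¹ * h⁻¹) = 1 := by group
    rw [this, map_one, Module.End.one_apply]
  have e : ρ ⁅g, h⁆ v - v = (ρ g (ρ h w - w) - (ρ h w - w)) - (ρ h (ρ g w - w) - (ρ g w - w)) := by
    rw [e1]
    conv_lhs => rw [e2]
    rw [map_sub, map_sub]
    abel
  rw [e]
  exact (dlU ρ j).sub_mem (hg j _ (hh (j + i) w hwm)) (hh j _ (hg (j + i) w hwm))

private theorem dlD_ds (ρ : A →* Module.End (ZMod p) V) (k : ℕ) :
    derivedSeries A k ≤ dlD ρ (2 ^ k) := by
  induction k with
  | zero =>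
    intro g _
    rw [mem_dlD]
    intro j v hv
    exact dlU_sub ρ j g hv
  | succ k ih =>
    rw [derivedSeries_succ, pow_succ, mul_two]
    exact (Subgroup.commutator_mono ih ih).trans (dlD_comm ρ _)

end aux

/-- [RK82 L0] a `p`-group of operators on a space of order `≤ p ^ m` has derived length `≤ k` if
`m ≤ 2 ^ k`.  Proof: `V 0 = ⊤`, `V (j+1) = span {ρ g v - v | g : A, v ∈ V j}`; `V (j+1) < V j` if
`V j ≠ ⊥` (a `p`-group acting on a nonzero finite `ZMod p`-space has a nonzero fixed quotient; e.g.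
`V j` is not the span of the `ρ g v - v` because all `ρ g - 1` lie in the augmentation ideal, which
acts nilpotently), so `V m = ⊥`.  `D i = {g | ∀ j, ∀ v ∈ V j, ρ g v - v ∈ V (j + i)}` is a subgroup,
`D 1 = ⊤`, `⁅D i, D i⁆ ≤ D (2 i)`, so `derivedSeries A k ≤ D (2^k) ≤ ker ρ`. -/
theorem dl_bound (p : ℕ) [Fact p.Prime] {A : Type u} [Group A] [Finite A] (hA : IsPGroup p A)
    {V : Type u} [AddCommGroup V] [Module (ZMod p) V] [Finite V]
    (ρ : A →* Module.End (ZMod p) V) {m k : ℕ} (hm : Nat.card V ≤ p ^ m) (hk : m ≤ 2 ^ k) :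
    derivedSeries A k ≤ ρ.ker := by
  have hrk : Module.finrank (ZMod p) V ≤ m := by
    rw [Module.natCard_eq_pow_finrank (K := ZMod p), Nat.card_zmod] at hm
    exact (Nat.pow_le_pow_iff_right (Fact.out : p.Prime).one_lt).1 hm
  have htop : dlU ρ (2 ^ k) = ⊤ := by
    rw [← top_le_iff]
    refine le_trans ?_ (dlU_mono ρ hk)
    rw [top_le_iff]
    rcases dlU_top ρ hA m with h | h
    · exact h
    · apply Submodule.eq_top_of_finrank_eq
      have := Submodule.finrank_le (dlU ρ m)
      omega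
  intro g hg
  have h1 := dlD_ds ρ k hg
  rw [mem_dlD] at h1
  rw [MonoidHom.mem_ker]
  ext v
  have h2 := h1 0 v (by rw [zero_add, htop]; trivial)
  have h3 : ρ g v - v = 0 := h2
  rw [Module.End.one_apply]
  exact sub_eq_zero.1 h3

end MP_b83a82_al.H82
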