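import Pool.Agent.Lib.MP_b83a82_al.Strong

/-! sections: transfer lemmas and the representation on a section. -/

namespace MP_b83a82_al.H82

open Module
open scoped commutatorElement

universe u

/-- [RK82 L1] ranks of quotients (`Subgroup.comap (QuotientGroup.mk' N)` of a section). -/
theorem RkLE_quot {p : ℕ} {A : Type u} [Group A] [Finite A] {a : ℕ}
    (h : RkLE p (⊤ : Subgroup A) a) (N : Subgroup A) [N.Normal] :
    RkLE p (⊤ : Subgroup (A ⧸ N)) a := by
  intro K H _ hS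
  have hsurj : Function.Surjective (QuotientGroup.mk' N) := QuotientGroup.mk'_surjective _
  have h1 := h (K.comap (QuotientGroup.mk' N)) (H.comap (QuotientGroup.mk' N)) le_top
    ⟨Subgroup.comap_mono hS.1, fun x hx => ?_, fun x hx y hy => ?_⟩
  · rwa [Subgroup.relIndex_comap, Subgroup.map_comap_eq_self_of_surjective hsurj] at h1
  · rw [Subgroup.mem_comap, map_pow]
    exact hS.2.1 _ hx
  · rw [Subgroup.mem_comap, map_commutatorElement]
    exact hS.2.2 _ hx _ hy

/-- [RK82 L1] rank of a subgroup as a type (`Subgroup.map S.subtype` of a section). -/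
theorem RkLE_coe {p : ℕ} {G : Type u} [Group G] [Finite G] {S : Subgroup G} {a : ℕ}
    (h : RkLE p S a) : RkLE p (⊤ : Subgroup S) a := by
  intro K H _ hS
  have h1 := h (K.map S.subtype) (H.map S.subtype) (Subgroup.map_subtype_le H)
    ⟨Subgroup.map_mono hS.1, ?_, ?_⟩
  · rwa [← Subgroup.relIndex_comap, Subgroup.comap_map_eq_self_of_injective
      (Subgroup.subtype_injective S)] at h1
  · rintro x ⟨y, hy, rfl⟩
    exact ⟨y ^ p, hS.2.1 y hy, map_pow _ _ _⟩
  · rintro x ⟨x', hx', rfl⟩ y ⟨y', hy', rfl⟩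
    exact ⟨⁅x', y'⁆, hS.2.2 x' hx' y' hy', map_commutatorElement _ _ _⟩

/-- [RK82 L1] monotonicity. -/
theorem RkLE_mono {p : ℕ} {G : Type u} [Group G] {S T : Subgroup G} (hST : S ≤ T) {a : ℕ}
    (h : RkLE p T a) : RkLE p S a := fun K H hH hS => h K H (hH.trans hST) hS

/-- [RK82 L1] two step lemma for sections: elements acting trivially on `X / Z` and on the
elementary abelian `Z / Y` form, modulo those acting trivially on `X / Y`, an elementary abelian
section (`two_step_comm`, `two_step_pow`). -/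
theorem elsec_two_step {p : ℕ} {G : Type u} [Group G] {X Z Y : Subgroup G} (hX : X.Normal)
    (hZ : Z.Normal) (hY : Y.Normal) (hZX : Z ≤ X) (hS : ElSec p Y Z) :
    ElSec p (actS X Y hY) (actS X Z hZ ⊓ actS Z Y hY) := by
  refine ⟨?_, ?_, ?_⟩
  · intro g hg
    have hg' : Act g X Y := hg
    exact ⟨fun u hu => hS.1 (hg' u hu), fun u hu => hg' u (hZX hu)⟩
  · rintro g ⟨g1, g2⟩
    exact two_step_pow hS.2.1 g1 g2
  · rintro g ⟨g1, g2⟩ h ⟨h1, h2⟩
    exact two_step_comm hS.2.2 g1 g2 h1 h2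

/-- [RK82 L1] `M` abelian normal, `U = {x ∈ M | x^p = 1}`: acting trivially on `U` implies acting
trivially on `M / U`. -/
theorem act_of_act_om {p : ℕ} {G : Type u} [Group G] {M U : Subgroup G} (hM : M.Normal)
    (hab : ∀ x ∈ M, ∀ y ∈ M, x * y = y * x) (hexp : ∀ x ∈ M, x ^ (p ^ 2) = 1)
    (hU : ∀ x, x ∈ U ↔ x ∈ M ∧ x ^ p = 1) {g : G} (hg : Act g U ⊥) : Act g M U := by
  intro x hx
  have hc : g * x * g⁻¹ ∈ M := hM.conj_mem x hx g
  have e0 : ⁅g, x⁆ = (g * x * g⁻¹) * x⁻¹ := by rw [commutatorElement_def]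
  rw [hU, e0]
  refine ⟨M.mul_mem hc (M.inv_mem hx), ?_⟩
  have hcomm : Commute (g * x * g⁻¹) x⁻¹ := hab _ hc _ (M.inv_mem hx)
  rw [hcomm.mul_pow, conj_pow, inv_pow]
  have hxp : x ^ p ∈ U := by
    rw [hU]
    refine ⟨M.pow_mem hx p, ?_⟩
    rw [← pow_mul, ← pow_two]
    exact hexp x hx
  have h1 := hg _ hxp
  rw [Subgroup.mem_bot, commutatorElement_def] at h1
  exact h1

end MP_b83a82_al.H82
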