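import Mathlib.Algebra.Module.ZMod
import Mathlib.LinearAlgebra.Prod
import Pool.Agent.Lib.MP_b83a82_al.Strong

namespace MP_b83a82_al.H82

open Module
open scoped commutatorElement

universe u

/-- a homomorphism into the automorphism group of an abelian group of exponent `p` gives a linear
representation with the same kernel. -/
private theorem sect_rep_aux (p : ℕ) {G : Type u} [Group G] {Q : Type u} [CommGroup Q]
    [Module (ZMod p) (Additive Q)] (φ : G →* MulAut Q) :
    ∃ (ρ : G →* Module.End (ZMod p) (Additive Q)), ρ.ker = φ.ker := by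
  refine ⟨{ toFun := fun g =>
              AddMonoidHom.toZModLinearMap p (MonoidHom.toAdditive (φ g).toMonoidHom)
            map_one' := ?_
            map_mul' := ?_ }, ?_⟩
  · ext x
    show Additive.ofMul ((φ 1) x.toMul) = x
    rw [map_one]
    rfl
  · intro g h
    ext x
    show Additive.ofMul ((φ (g * h)) x.toMul) = Additive.ofMul ((φ g) ((φ h) x.toMul))
    rw [map_mul]
    rfl
  · ext g
    rw [MonoidHom.mem_ker, MonoidHom.mem_ker]
    constructor
    · intro h
      ext x
      have := LinearMap.congr_fun h (Additive.ofMul x)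
      exact this
    · intro h
      ext x
      show Additive.ofMul ((φ g) x.toMul) = x
      rw [h]
      rfl

private theorem sect_rep_aux' (p : ℕ) {G : Type u} [Group G] {Q : Type u} [CommGroup Q]
    [Finite Q] (hQ : ∀ x : Q, x ^ p = 1) (φ : G →* MulAut Q) :
    ∃ (V : Type u) (_ : AddCommGroup V) (_ : Module (ZMod p) V) (_ : Finite V)
      (ρ : G →* Module.End (ZMod p) V), Nat.card V = Nat.card Q ∧ ρ.ker = φ.ker := by
  have hV : ∀ x : Additive Q, p • x = 0 := fun x => hQ x.toMul
  obtain ⟨ρ, hρ⟩ := @sect_rep_aux p G _ Q _ (AddCommGroup.zmodModule hV) φ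
  exact ⟨Additive Q, _, AddCommGroup.zmodModule hV, inferInstance, ρ, rfl, hρ⟩

/-- [RK82 L2] the conjugation representation on a normal elementary abelian section: `V =
Additive (X ⧸ Y.subgroupOf X)` with its `ZMod p`-module structure, `ρ g` = conjugation by `g`. -/
theorem sect_rep (p : ℕ) [Fact p.Prime] {G : Type u} [Group G] [Finite G] {Y X : Subgroup G}
    (hY : Y.Normal) (hX : X.Normal) (hS : ElSec p Y X) :
    ∃ (V : Type u) (_ : AddCommGroup V) (_ : Module (ZMod p) V) (_ : Finite V)
      (ρ : G →* Module.End (ZMod p) V), Nat.card V = Y.relIndex X ∧ ρ.ker = actS X Y hY := by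
  obtain ⟨hYX, hpow, hcom⟩ := hS
  have hN : (Y.subgroupOf X).Normal := Subgroup.Normal.subgroupOf hY X
  let cg : CommGroup (X ⧸ Y.subgroupOf X) :=
    { (inferInstance : Group (X ⧸ Y.subgroupOf X)) with
      mul_comm := by
        intro a b
        obtain ⟨x, rfl⟩ := QuotientGroup.mk_surjective a
        obtain ⟨y, rfl⟩ := QuotientGroup.mk_surjective b
        show ((x * y : X) : X ⧸ Y.subgroupOf X) = ((y * x : X) : X ⧸ Y.subgroupOf X)
        rw [QuotientGroup.eq_iff_div_mem, Subgroup.mem_subgroupOf]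
        have h1 := hcom x x.2 y y.2
        rw [commutatorElement_def] at h1
        have e : ((x * y / (y * x) : X) : G) = x * y * (x : G)⁻¹ * (y : G)⁻¹ := by
          push_cast
          rw [div_eq_mul_inv, mul_inv_rev]
          group
        rw [e]
        exact h1 }
  have hmap : ∀ g : G, (Y.subgroupOf X).map (MulAut.conjNormal g : X ≃* X).toMonoidHom =
      Y.subgroupOf X := by
    intro g
    apply le_antisymm
    · rintro _ ⟨x, hx, rfl⟩
      rw [SetLike.mem_coe, Subgroup.mem_subgroupOf] at hx
      rw [Subgroup.mem_subgroupOf]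
      show ((MulAut.conjNormal g x : X) : G) ∈ Y
      rw [MulAut.conjNormal_apply]
      exact hY.conj_mem _ hx g
    · intro x hx
      rw [Subgroup.mem_subgroupOf] at hx
      refine ⟨MulAut.conjNormal g⁻¹ x, ?_, ?_⟩
      · rw [SetLike.mem_coe, Subgroup.mem_subgroupOf, MulAut.conjNormal_apply]
        exact hY.conj_mem _ hx g⁻¹
      · apply Subtype.ext
        show ((MulAut.conjNormal g (MulAut.conjNormal g⁻¹ x) : X) : G) = x
        rw [MulAut.conjNormal_apply, MulAut.conjNormal_apply]
        group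
  let φ : G →* MulAut (X ⧸ Y.subgroupOf X) :=
    { toFun := fun g => QuotientGroup.congr _ _ (MulAut.conjNormal g : X ≃* X) (hmap g)
      map_one' := by
        ext a
        obtain ⟨x, rfl⟩ := QuotientGroup.mk_surjective a
        show ((MulAut.conjNormal (1 : G) x : X) : X ⧸ Y.subgroupOf X) = (x : X ⧸ Y.subgroupOf X)
        rw [map_one]
        rfl
      map_mul' := by
        intro g h
        ext a
        obtain ⟨x, rfl⟩ := QuotientGroup.mk_surjective a
        show ((MulAut.conjNormal (g * h) x : X) : X ⧸ Y.subgroupOf X) =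
          ((MulAut.conjNormal g (MulAut.conjNormal h x) : X) : X ⧸ Y.subgroupOf X)
        rw [map_mul]
        rfl }
  have hφ : φ.ker = actS X Y hY := by
    ext g
    rw [MonoidHom.mem_ker]
    have hact : g ∈ actS X Y hY ↔ ∀ x ∈ X, ⁅g, x⁆ ∈ Y := Iff.rfl
    rw [hact]
    constructor
    · intro h x hx
      have h1 := DFunLike.congr_fun h ((⟨x, hx⟩ : X) : X ⧸ Y.subgroupOf X)
      have h2 : ((MulAut.conjNormal g (⟨x, hx⟩ : X) : X) : X ⧸ Y.subgroupOf X) =
        ((⟨x, hx⟩ : X) : X ⧸ Y.subgroupOf X) := h1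
      rw [QuotientGroup.eq_iff_div_mem, Subgroup.mem_subgroupOf] at h2
      have e : ((MulAut.conjNormal g (⟨x, hx⟩ : X) / (⟨x, hx⟩ : X) : X) : G) = ⁅g, x⁆ := by
        rw [Subgroup.coe_div, MulAut.conjNormal_apply, commutatorElement_def, div_eq_mul_inv]
      rwa [e] at h2
    · intro h
      ext a
      obtain ⟨⟨x, hx⟩, rfl⟩ := QuotientGroup.mk_surjective a
      show ((MulAut.conjNormal g (⟨x, hx⟩ : X) : X) : X ⧸ Y.subgroupOf X) =
        ((⟨x, hx⟩ : X) : X ⧸ Y.subgroupOf X)
      rw [QuotientGroup.eq_iff_div_mem, Subgroup.mem_subgroupOf]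
      have e : ((MulAut.conjNormal g (⟨x, hx⟩ : X) / (⟨x, hx⟩ : X) : X) : G) = ⁅g, x⁆ := by
        rw [Subgroup.coe_div, MulAut.conjNormal_apply, commutatorElement_def, div_eq_mul_inv]
      rw [e]
      exact h x hx
  have hQ : ∀ a : X ⧸ Y.subgroupOf X, a ^ p = 1 := by
    intro a
    obtain ⟨x, rfl⟩ := QuotientGroup.mk_surjective a
    show ((x ^ p : X) : X ⧸ Y.subgroupOf X) = 1
    rw [QuotientGroup.eq_one_iff, Subgroup.mem_subgroupOf]
    exact hpow x x.2
  obtain ⟨V, i1, i2, i3, ρ, h1, h2⟩ := sect_rep_aux' p hQ φ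
  exact ⟨V, i1, i2, i3, ρ, h1, h2.trans hφ⟩

/-- [RK82 L2] direct sum of two representations. -/
theorem rep_prod (p : ℕ) [Fact p.Prime] {G : Type u} [Group G] {V W : Type u} [AddCommGroup V]
    [Module (ZMod p) V] [AddCommGroup W] [Module (ZMod p) W] (ρ : G →* Module.End (ZMod p) V)
    (σ : G →* Module.End (ZMod p) W) :
    ∃ τ : G →* Module.End (ZMod p) (V × W), τ.ker = ρ.ker ⊓ σ.ker := by
  refine ⟨{ toFun := fun g => LinearMap.prodMap (ρ g) (σ g)
            map_one' := by
              rw [map_one, map_one]; exact LinearMap.prodMap_one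
            map_mul' := by
              intro g h
              rw [map_mul, map_mul]
              exact (LinearMap.prodMap_mul _ _ _ _).symm }, ?_⟩
  ext g
  rw [Subgroup.mem_inf, MonoidHom.mem_ker, MonoidHom.mem_ker, MonoidHom.mem_ker]
  constructor
  · intro h
    have h' : LinearMap.prodMap (ρ g) (σ g) = 1 := h
    constructor
    · ext v
      have := congrArg Prod.fst (LinearMap.congr_fun h' (v, 0))
      exact this
    · ext w
      have := congrArg Prod.snd (LinearMap.congr_fun h' (0, w))
      exact this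
  · rintro ⟨h1, h2⟩
    show LinearMap.prodMap (ρ g) (σ g) = 1
    rw [h1, h2]
    exact LinearMap.prodMap_one

end MP_b83a82_al.H82
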