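import Pool.Agent.Lib.MP_b83a82_al.H82.Pc3

namespace MP_b83a82_al.H82

open scoped commutatorElement

private theorem rank_inj {p : ℕ} {K : Type*} [Group K] [Finite K]
    (h : PC p K) (K0 : Subgroup K) (h1 : ∀ x : K, x ^ p ∈ K0) :
    Nat.card {x : K ⧸ om1 h // x ^ p = 1} ≤ Nat.card (K0 ⊓ om1 h : Subgroup K) := by
  have hout : ∀ q : {x : K ⧸ om1 h // x ^ p = 1}, (q.1.out ^ p) ^ p = 1 := by
    intro q
    have h2 := q.2
    have h3 : ((q.1.out : K) : K ⧸ om1 h) = q.1 := q.1.out_eq'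
    rw [← h3, ← QuotientGroup.mk_pow, QuotientGroup.eq_one_iff] at h2
    exact h2
  have hsq : ∀ q : {x : K ⧸ om1 h // x ^ p = 1}, q.1.out ^ (p ^ 2) = 1 := by
    intro q
    rw [pow_two, pow_mul]
    exact hout q
  refine Nat.card_le_card_of_injective
    (fun q : {x : K ⧸ om1 h // x ^ p = 1} =>
      (⟨q.1.out ^ p, h1 _, hout q⟩ : (K0 ⊓ om1 h : Subgroup K))) ?_
  intro q r hqr
  have h4 : q.1.out ^ p = r.1.out ^ p := congrArg Subtype.val hqr
  have h5 : (q.1.out)⁻¹ * r.1.out ∈ om1 h := by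
    rw [mem_om1]
    have hc : Commute (q.1.out)⁻¹ r.1.out := (show Commute q.1.out r.1.out from h _ (hsq q) _).inv_left
    rw [hc.mul_pow, inv_pow, h4, inv_mul_cancel]
  have h6 : ((q.1.out : K) : K ⧸ om1 h) = ((r.1.out : K) : K ⧸ om1 h) := QuotientGroup.eq.2 h5
  apply Subtype.ext
  have h7 : ((q.1.out : K) : K ⧸ om1 h) = q.1 := q.1.out_eq'
  have h8 : ((r.1.out : K) : K ⧸ om1 h) = r.1 := r.1.out_eq'
  rw [← h7, ← h8, h6]

/-- [RK82 P3] rank bound.  Proof: strong induction on `|K|`; `Q = K ⧸ om1 h`, `K0' = image of K0`.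
`K0.index = (K0 ⊔ om1).index * K0.relIndex (K0 ⊔ om1)`, the first factor is `K0'.index ≤
card {x : Q | x^p = 1}` by induction; `K0.relIndex (K0 ⊔ om1) = |om1| / |K0 ⊓ om1|`.
`card {x : Q | x^p = 1} = |{x : K | x ^ (p^2) = 1}| / |om1| ≤ |K0 ⊓ om1|`, because `x ↦ x ^ p` maps
the central subgroup `{x | x^(p^2) = 1}` homomorphically to `K0 ⊓ om1` with kernel `om1`. -/
theorem PC.rank {p : ℕ} (hp : p.Prime) {K : Type*} [Group K] [Finite K] (hK : IsPGroup p K)
    (h : PC p K) (K0 : Subgroup K) (h1 : ∀ x : K, x ^ p ∈ K0) (h2 : ∀ x y : K, ⁅x, y⁆ ∈ K0) :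
    K0.index ≤ Nat.card {x : K // x ^ p = 1} := by
  induction hn : Nat.card K using Nat.strong_induction_on generalizing K with
  | _ n ih =>
  rcases subsingleton_or_nontrivial K with hs | hne
  · have e1 : K0 = ⊤ := Subsingleton.elim _ _
    have : Nonempty {x : K // x ^ p = 1} := ⟨⟨1, one_pow p⟩⟩
    rw [e1, Subgroup.index_top]
    exact Nat.card_pos
  · have hlt := card_quot_lt hp hK h hne
    have hQ := PC.quot hp hK h
    have hKQ : IsPGroup p (K ⧸ om1 h) := hK.to_quotient (om1 h)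
    have hnorm : K0.Normal := by
      constructor
      intro x hx g
      have e1 : g * x * g⁻¹ = ⁅g, x⁆ * x := by
        rw [commutatorElement_def]; group
      rw [e1]
      exact K0.mul_mem (h2 g x) hx
    have hsurj : Function.Surjective (QuotientGroup.mk' (om1 h)) := QuotientGroup.mk'_surjective _
    have hih := ih (Nat.card (K ⧸ om1 h)) (hn ▸ hlt) hKQ hQ (K0.map (QuotientGroup.mk' (om1 h)))
      (fun x => by
        obtain ⟨y, rfl⟩ := hsurj x
        exact ⟨y ^ p, h1 y, map_pow _ _ _⟩)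
      (fun x y => by
        obtain ⟨a, rfl⟩ := hsurj x
        obtain ⟨b, rfl⟩ := hsurj y
        exact ⟨⁅a, b⁆, h2 a b, map_commutatorElement _ _ _⟩) rfl
    rw [Subgroup.index_map, QuotientGroup.ker_mk', MonoidHom.range_eq_top.2 hsurj,
      Subgroup.index_top, mul_one] at hih
    have e2 : K0.relIndex (K0 ⊔ om1 h) * (K0 ⊔ om1 h).index = K0.index :=
      Subgroup.relIndex_mul_index le_sup_left
    have e3 : K0.relIndex (K0 ⊔ om1 h) = K0.relIndex (om1 h) := by
      rw [sup_comm]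
      exact Subgroup.relIndex_sup_right _ _
    have e4 : Nat.card (K0 ⊓ om1 h : Subgroup K) * K0.relIndex (om1 h) = Nat.card (om1 h) := by
      have := Subgroup.relIndex_mul_relIndex ⊥ (K0 ⊓ om1 h) (om1 h) bot_le inf_le_right
      rwa [Subgroup.relIndex_bot_left, Subgroup.relIndex_bot_left, Subgroup.inf_relIndex_right]
        at this
    have e5 : Nat.card (om1 h) = Nat.card {x : K // x ^ p = 1} := rfl
    have e6 := rank_inj h K0 h1
    rw [← e2, e3, ← e5, ← e4, mul_comm]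
    exact Nat.mul_le_mul_right _ (hih.trans e6)

end MP_b83a82_al.H82
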