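import Pool.Agent.Lib.MP_b83a82_al.H82.Pc5

namespace MP_b83a82_al.H82

open scoped commutatorElement

/-- comparison of indices by a map which separates cosets. -/
theorem PC.abelian_relIndex_le {K : Type*} [Group K] [Finite K] {S T S' T' : Subgroup K}
    (f : K → K) (hf : ∀ x ∈ T, f x ∈ T')
    (h : ∀ x ∈ T, ∀ y ∈ T, (f x)⁻¹ * f y ∈ S' → x⁻¹ * y ∈ S) :
    S.relIndex T ≤ S'.relIndex T' := by
  rw [Subgroup.relIndex, Subgroup.relIndex, Subgroup.index_eq_card, Subgroup.index_eq_card]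
  let g : T ⧸ (S.subgroupOf T) → T' ⧸ (S'.subgroupOf T') := fun q =>
    QuotientGroup.mk (⟨f (Quotient.out q : T).1, hf _ (Quotient.out q : T).2⟩ : T')
  have hg : Function.Injective g := by
    intro q q' hqq
    have h1 := QuotientGroup.eq.mp hqq
    rw [Subgroup.mem_subgroupOf] at h1
    have h2 := h _ (Quotient.out q : T).2 _ (Quotient.out q' : T).2 (by simpa using h1)
    have h3 : (QuotientGroup.mk (Quotient.out q : T) : T ⧸ (S.subgroupOf T)) =
        QuotientGroup.mk (Quotient.out q' : T) := by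
      rw [QuotientGroup.eq, Subgroup.mem_subgroupOf]
      simpa using h2
    rw [QuotientGroup.out_eq', QuotientGroup.out_eq'] at h3
    exact h3
  exact Nat.card_le_card_of_injective g hg

/-- the subgroup of the elements of order dividing `p ^ k`. -/
def PC.abelian_Om {p : ℕ} (hp : p.Prime) {K : Type*} [Group K] [Finite K] (hK : IsPGroup p K)
    (h : PC p K) (k : ℕ) : Subgroup K where
  carrier := {x | x ^ (p ^ k) = 1}
  mul_mem' := fun {a b} ha hb => PC.mul_mem hp hK h k a b ha hb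
  one_mem' := one_pow _
  inv_mem' := by
    intro a ha
    change a⁻¹ ^ (p ^ k) = 1
    rw [inv_pow, show a ^ (p ^ k) = 1 from ha, inv_one]

theorem PC.abelian_card_prod {K : Type*} [Group K] [Finite K] (F : ℕ → Subgroup K)
    (h0 : F 0 = ⊥) (hm : Monotone F) (n : ℕ) :
    Nat.card (F n) = ∏ k ∈ Finset.range n, (F k).relIndex (F (k + 1)) := by
  induction n with
  | zero =>
    rw [h0]
    simp
  | succ n ih =>
    rw [Finset.prod_range_succ, ← ih]
    have := Subgroup.relIndex_mul_relIndex ⊥ (F n) (F (n + 1)) bot_le (hm (Nat.le_succ n))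
    rw [Subgroup.relIndex_bot_left, Subgroup.relIndex_bot_left] at this
    exact this.symm

/-- [RK82 P6] a large abelian subgroup.  Proof: `Om k = {x | x^(p^k) = 1}` (a normal subgroup by
`PC.mul_mem`).  `H` = the subgroup generated by all `y^(p^i)` with `i ≥ 1`, `y^(p^(2i)) = 1`.  These
generators commute: `u = y^(p^i)`, `v = z^(p^j)`, `i ≤ j`, `u^(p^j) = 1`, `PC.comm_pw`; so `H` is
abelian.  For `i ≥ 1`: `|Om (2i) : Om (2i-1)| ≤ |H ⊓ Om i : H ⊓ Om (i-1)|`, because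
`y ↦ y^(p^i) ∈ H ⊓ Om i` (for `y ∈ Om (2i)`) satisfies: `x^(p^i)` and `y^(p^i)` in the same left
coset of `Om (i-1)` implies `x⁻¹ y ∈ Om (2i-1)` (`PC.pow_mul` with `k = i-1`).  Also
`|Om (k+1) : Om k| ≤ |Om k : Om (k-1)|` for `k ≥ 1` (`y ↦ y^p`, same argument with `i = 1`).
So `|K| = ∏_{k ≥ 1} |Om k : Om (k-1)| ≤ |Om 1| ∏_{i ≥ 1} |Om (2i) : Om (2i-1)|^2 ≤ |Om 1| |H|^2`. -/
theorem PC.abelian {p : ℕ} (hp : p.Prime) {K : Type*} [Group K] [Finite K] (hK : IsPGroup p K)
    (h : PC p K) : ∃ H : Subgroup K, (∀ x ∈ H, ∀ y ∈ H, x * y = y * x) ∧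
      Nat.card K ≤ Nat.card {x : K // x ^ p = 1} * (Nat.card H) ^ 2 := by
  classical
  have hmem : ∀ {k : ℕ} {x : K}, x ∈ PC.abelian_Om hp hK h k ↔ x ^ (p ^ k) = 1 :=
    fun {k x} => Iff.rfl
  set Om := PC.abelian_Om hp hK h with hOm
  have hpw : ∀ {i j : ℕ} {x : K}, i ≤ j → x ^ (p ^ i) = 1 → x ^ (p ^ j) = 1 := by
    intro i j x hij hx
    obtain ⟨d, rfl⟩ := Nat.exists_eq_add_of_le hij
    rw [pow_add, _root_.pow_mul, hx, one_pow]
  have hOm0 : Om 0 = ⊥ := by
    ext x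
    rw [hmem, Subgroup.mem_bot, pow_zero, pow_one]
  have hOmm : Monotone Om := fun i j hij x hx => hmem.2 (hpw hij (hmem.1 hx))
  have hF : Fact p.Prime := ⟨hp⟩
  obtain ⟨n, hn⟩ := IsPGroup.iff_card.mp hK
  have hOmn : ∀ m, n ≤ m → Om m = ⊤ := by
    intro m hm
    rw [eq_top_iff]
    intro x _
    refine hmem.2 (hpw hm ?_)
    rw [← hn]
    exact pow_card_eq_one'
  let gen : Set K := {u | ∃ i, 1 ≤ i ∧ ∃ y : K, u = y ^ (p ^ i) ∧ y ^ (p ^ (2 * i)) = 1}
  have hgen : ∀ u ∈ gen, ∀ v ∈ gen, u * v = v * u := by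
    have key : ∀ (i j : ℕ) (y z : K), i ≤ j → y ^ (p ^ (2 * i)) = 1 →
        Commute (y ^ (p ^ i)) (z ^ (p ^ j)) := by
      intro i j y z hij hy
      refine PC.comm_pw hp hK h j _ z (hpw hij ?_)
      rw [← _root_.pow_mul, ← pow_add, ← two_mul, hy]
    rintro u ⟨i, _, y, rfl, hy⟩ v ⟨j, _, z, rfl, hz⟩
    rcases le_total i j with hij | hij
    · exact key i j y z hij hy
    · exact (key j i z y hij hz).symm
  have hc1 : Subgroup.closure gen ≤ Subgroup.centralizer gen :=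
    (Subgroup.closure_le _).2 fun u hu =>
      Subgroup.mem_centralizer_iff.2 fun v hv => hgen v hv u hu
  have hc2 : Subgroup.closure gen ≤
      Subgroup.centralizer ((Subgroup.closure gen : Subgroup K) : Set K) :=
    (Subgroup.closure_le _).2 fun u hu =>
      Subgroup.mem_centralizer_iff.2 fun w hw =>
        (Subgroup.mem_centralizer_iff.1 (hc1 hw) u hu).symm
  set H := Subgroup.closure gen with hH
  refine ⟨H, fun x hx y hy => Subgroup.mem_centralizer_iff.1 (hc2 hy) x hx, ?_⟩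
  -- the key comparison
  have hstep : ∀ (k i : ℕ) (x y : K), x ^ (p ^ (k + i + 1)) = 1 → y ^ (p ^ (k + i + 1)) = 1 →
      (x ^ (p ^ i))⁻¹ * y ^ (p ^ i) ∈ Om k → x⁻¹ * y ∈ Om (k + i) := by
    intro k i x y hx hy hxy
    have h1 := PC.pow_mul hp hK h k i x⁻¹ y (by rw [inv_pow, hx, inv_one]) hy
    rw [inv_pow] at h1
    have h2 : ((x⁻¹ * y) ^ (p ^ i))⁻¹ * ((x ^ (p ^ i))⁻¹ * y ^ (p ^ i)) ∈ Om k := hmem.2 h1
    have h3 : (x⁻¹ * y) ^ (p ^ i) ∈ Om k := by
      have h4 := (Om k).mul_mem hxy ((Om k).inv_mem h2)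
      have h5 : (x ^ (p ^ i))⁻¹ * y ^ (p ^ i) *
          (((x⁻¹ * y) ^ (p ^ i))⁻¹ * ((x ^ (p ^ i))⁻¹ * y ^ (p ^ i)))⁻¹ =
          (x⁻¹ * y) ^ (p ^ i) := by group
      rwa [h5] at h4
    rw [hmem] at h3 ⊢
    rw [add_comm k i, pow_add, _root_.pow_mul]
    exact h3
  have ha : ∀ k, (Om (k + 1)).relIndex (Om (k + 2)) ≤ (Om k).relIndex (Om (k + 1)) := by
    intro k
    refine PC.abelian_relIndex_le (fun x => x ^ p) ?_ ?_
    · intro x hx
      rw [hmem] at hx ⊢
      rw [← _root_.pow_mul, ← pow_succ']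
      exact hx
    · intro x hx y hy hxy
      have := hstep k 1 x y (hmem.1 hx) (hmem.1 hy) (by simpa using hxy)
      exact this
  have hb : ∀ j, (Om (2 * j + 1)).relIndex (Om (2 * j + 2)) ≤
      (H ⊓ Om j).relIndex (H ⊓ Om (j + 1)) := by
    intro j
    refine PC.abelian_relIndex_le (fun x => x ^ (p ^ (j + 1))) ?_ ?_
    · intro x hx
      rw [hmem] at hx
      have e2 : x ^ (p ^ (j + 1)) ∈ Om (j + 1) := by
        rw [hmem, ← _root_.pow_mul, ← pow_add, show j + 1 + (j + 1) = 2 * j + 2 by ring]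
        exact hx
      refine ⟨Subgroup.subset_closure ⟨j + 1, by omega, x, rfl, ?_⟩, e2⟩
      rw [show 2 * (j + 1) = 2 * j + 2 by ring]; exact hx
    · intro x hx y hy hxy
      have e : j + (j + 1) + 1 = 2 * j + 2 := by ring
      have := hstep j (j + 1) x y (by rw [e]; exact hmem.1 hx) (by rw [e]; exact hmem.1 hy)
        hxy.2
      rw [show 2 * j + 1 = j + (j + 1) by ring]
      exact this
  have hprod : ∀ m, ∏ k ∈ Finset.range (2 * m + 1), (Om k).relIndex (Om (k + 1)) ≤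
      (Om 0).relIndex (Om 1) *
        (∏ j ∈ Finset.range m, (H ⊓ Om j).relIndex (H ⊓ Om (j + 1))) ^ 2 := by
    intro m
    induction m with
    | zero => simp
    | succ m ih =>
      have h1 := hb m
      have h2 := (ha (2 * m + 1)).trans h1
      have h3 := Nat.mul_le_mul ih (Nat.mul_le_mul h1 h2)
      have e1 : ∏ k ∈ Finset.range (2 * (m + 1) + 1), (Om k).relIndex (Om (k + 1)) =
          (∏ k ∈ Finset.range (2 * m + 1), (Om k).relIndex (Om (k + 1))) *
            ((Om (2 * m + 1)).relIndex (Om (2 * m + 2)) *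
              (Om (2 * m + 1 + 1)).relIndex (Om (2 * m + 1 + 2))) := by
        rw [show 2 * (m + 1) + 1 = (2 * m + 1) + 1 + 1 by ring, Finset.prod_range_succ,
          Finset.prod_range_succ, mul_assoc]
      rw [e1, Finset.prod_range_succ _ m]
      refine h3.trans_eq ?_
      generalize ∏ j ∈ Finset.range m, (H ⊓ Om j).relIndex (H ⊓ Om (j + 1)) = X
      generalize (H ⊓ Om m).relIndex (H ⊓ Om (m + 1)) = Y
      ring
  have h1 : Nat.card K = Nat.card (Om (2 * n + 1)) := by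
    rw [hOmn _ (by omega)]
    exact Nat.card_congr (Subgroup.topEquiv.toEquiv).symm
  have h2 := PC.abelian_card_prod Om hOm0 hOmm (2 * n + 1)
  have h3 := PC.abelian_card_prod (fun j => H ⊓ Om j) (by simp [hOm0])
    (fun i j hij => inf_le_inf_left H (hOmm hij)) n
  have h4 : (Om 0).relIndex (Om 1) = Nat.card {x : K // x ^ p = 1} := by
    rw [hOm0, Subgroup.relIndex_bot_left]
    refine Nat.card_congr (Equiv.subtypeEquivRight fun x => ?_)
    rw [hmem, pow_one]
  rw [h1, h2]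
  refine (hprod n).trans ?_
  rw [h4, ← h3]
  refine Nat.mul_le_mul_left _ (Nat.pow_le_pow_left ?_ 2)
  exact Nat.card_mono (Set.toFinite _) (inf_le_left : H ⊓ Om n ≤ H)

end MP_b83a82_al.H82
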