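import Pool.Agent.Lib.MP_b83a82_al.H82.Pc5

namespace MP_b83a82_al.H82

open scoped commutatorElement

universe u

/-- the central part of the argument: conjugation by `x` moves an element of `K1` of order
dividing `p^3` by an element of order dividing `p`. -/
private theorem alp_step_conj {p : ℕ} (hp : p.Prime) {A : Type*} [Group A] [Finite A]
    (hA : IsPGroup p A) (K1 : Subgroup A) (hn : K1.Normal) (x : A)
    (h1 : ∀ u ∈ K1, u ^ (p ^ 2) = 1 → (∀ k ∈ K1, u * k = k * u) ∧ u * x = x * u)
    (hPC : PC p K1) (u : A) (hu : u ∈ K1) (hu3 : u ^ (p ^ 3) = 1) :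
    (x * u * x⁻¹ * u⁻¹) ^ p = 1 := by
  have hK : IsPGroup p K1 := hA.to_subgroup K1
  have hup : u ^ p ∈ K1 := K1.pow_mem hu p
  have hup2 : (u ^ p) ^ (p ^ 2) = 1 := by
    rw [← pow_mul, ← pow_succ']
    exact hu3
  have hc := (h1 _ hup hup2).2
  have hconj : x * u * x⁻¹ ∈ K1 := hn.conj_mem u hu x
  have h2 : (x * u * x⁻¹) ^ p = u ^ p := by
    rw [conj_pow, ← hc, mul_inv_cancel_right]
  have h3 := PC.inj hp hK hPC ⟨x * u * x⁻¹, hconj⟩ ⟨u, hu⟩ (by
    apply Subtype.ext
    push_cast
    exact h2)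
  have h4 := congrArg (fun y : K1 => (y : A)) h3
  push_cast at h4
  exact h4

private theorem alp_step_aux {p : ℕ} (hp : p.Prime) (n : ℕ) :
    ∀ (A : Type u) [Group A] [Finite A], IsPGroup p A → ∀ (K1 : Subgroup A), K1.Normal →
      ∀ x : A, (∀ u ∈ K1, u ^ (p ^ 2) = 1 → (∀ k ∈ K1, u * k = k * u) ∧ u * x = x * u) →
      x ^ (p ^ 2) = 1 → ∀ z ∈ K1, (z * x) ^ (p ^ 2) = 1 → Nat.card K1 ≤ n →
      z ^ (p ^ 2) = 1 := by
  have : Fact p.Prime := ⟨hp⟩
  induction n with
  | zero =>
    intro A _ _ hA K1 hn x h1 hx z hz hzx hcard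
    have : 0 < Nat.card K1 := Nat.card_pos
    omega
  | succ n ih =>
    intro A _ _ hA K1 hn x h1 hx z hz hzx hcard
    have hK : IsPGroup p K1 := hA.to_subgroup K1
    have hPC : PC p K1 := by
      intro u hu y
      apply Subtype.ext
      push_cast
      refine (h1 u u.2 ?_).1 y y.2
      have h4 := congrArg (fun y : K1 => (y : A)) hu
      push_cast at h4
      exact h4
    by_cases hbot : K1 = ⊥
    · rw [hbot, Subgroup.mem_bot] at hz
      rw [hz, one_pow]
    -- the subgroup `O`
    let O : Subgroup A := (om1 hPC).map K1.subtype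
    have hO : ∀ y : A, y ∈ O ↔ y ∈ K1 ∧ y ^ p = 1 := by
      intro y
      constructor
      · rintro ⟨w, hw, rfl⟩
        refine ⟨w.2, ?_⟩
        have h4 := congrArg (fun y : K1 => (y : A)) (mem_om1.mp hw)
        push_cast at h4
        exact h4
      · rintro ⟨h2, h3⟩
        refine ⟨⟨y, h2⟩, ?_, rfl⟩
        refine mem_om1.mpr ?_
        apply Subtype.ext
        push_cast
        exact h3
    have hOn : O.Normal := by
      constructor
      intro y hy g
      rw [hO] at hy ⊢
      refine ⟨hn.conj_mem y hy.1 g, ?_⟩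
      rw [conj_pow, hy.2, mul_one, mul_inv_cancel]
    have hOp2 : ∀ y ∈ O, y ^ (p ^ 2) = 1 := by
      intro y hy
      rw [pow_two, pow_mul, ((hO y).1 hy).2, one_pow]
    let q : A →* A ⧸ O := QuotientGroup.mk' O
    have hq : ∀ y : A, q y = 1 ↔ y ∈ O := by
      intro y
      rw [← MonoidHom.mem_ker, QuotientGroup.ker_mk']
    have hqsurj : Function.Surjective q := QuotientGroup.mk'_surjective O
    -- smaller cardinality
    have hlt : Nat.card (K1.map q) < Nat.card K1 := by
      classical
      have : Fintype K1 := Fintype.ofFinite _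
      have : Fintype (K1.map q) := Fintype.ofFinite _
      rw [Nat.card_eq_fintype_card, Nat.card_eq_fintype_card]
      refine Fintype.card_lt_of_surjective_not_injective (q.subgroupMap K1)
        (q.subgroupMap_surjective K1) ?_
      intro hinj
      have hnt : Nontrivial K1 := by
        rwa [Subgroup.nontrivial_iff_ne_bot]
      obtain ⟨m, hm, hcardm⟩ := hK.nontrivial_iff_card.mp hnt
      obtain ⟨y, hy⟩ := exists_prime_orderOf_dvd_card' (G := K1) p (by
        rw [hcardm]
        exact dvd_pow_self p (by omega))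
      have hyp : y ^ p = 1 := by rw [← hy]; exact pow_orderOf_eq_one y
      have hyO : (y : A) ∈ O := by
        rw [hO]
        refine ⟨y.2, ?_⟩
        have h4 := congrArg (fun y : K1 => (y : A)) hyp
        push_cast at h4
        exact h4
      have hy1 : y = 1 := by
        apply hinj
        rw [map_one]
        apply Subtype.ext
        show q (y : A) = 1
        exact (hq _).2 hyO
      rw [hy1, orderOf_one] at hy
      exact hp.one_lt.ne hy
    -- the general fact on elements of order dividing `p^3`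
    have key : ∀ u ∈ K1, u ^ (p ^ 3) = 1 → x * u * x⁻¹ * u⁻¹ ∈ O := by
      intro u hu hu3
      rw [hO]
      refine ⟨K1.mul_mem (hn.conj_mem u hu x) (K1.inv_mem hu), ?_⟩
      exact alp_step_conj hp hA K1 hn x h1 hPC u hu hu3
    have hp3 : ∀ u : A, u ^ (p ^ 2) ∈ O → u ^ (p ^ 3) = 1 := by
      intro u hu
      rw [pow_succ, pow_mul]
      exact ((hO _).1 hu).2
    -- induction
    have hz3 : z ^ (p ^ 2) ∈ O := by
      rw [← hq, map_pow]
      have hA' : IsPGroup p (A ⧸ O) := hA.to_quotient O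
      refine ih (A ⧸ O) hA' (K1.map q) (hn.map q hqsurj) (q x) ?_ ?_ (q z)
        (Subgroup.mem_map_of_mem q hz) ?_ (by omega)
      · intro u' hu' hu'2
        obtain ⟨u, hu, rfl⟩ := hu'
        rw [← map_pow, hq] at hu'2
        have hu3 := hp3 u hu'2
        constructor
        · intro k' hk'
          obtain ⟨k, hk, rfl⟩ := hk'
          have h2 := PC.comm_pow hp hK hPC ⟨u, hu⟩ (by
            apply Subtype.ext
            push_cast
            exact hu3) ⟨k, hk⟩
          have h4 := congrArg (fun y : K1 => (y : A)) h2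
          rw [commutatorElement_def] at h4
          push_cast at h4
          have h5 : u * k * u⁻¹ * k⁻¹ ∈ O := by
            rw [hO]
            exact ⟨K1.mul_mem (K1.mul_mem (K1.mul_mem hu hk) (K1.inv_mem hu)) (K1.inv_mem hk), h4⟩
          rw [← hq, map_mul, map_mul, map_mul, map_inv, map_inv, mul_inv_eq_one,
            mul_inv_eq_iff_eq_mul] at h5
          exact h5
        · have h5 := key u hu hu3
          rw [← hq, map_mul, map_mul, map_mul, map_inv, map_inv, mul_inv_eq_one,
            mul_inv_eq_iff_eq_mul] at h5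
          exact h5.symm
      · rw [← map_pow, hx, map_one]
      · rw [← map_mul, ← map_pow, hzx, map_one]
    have hc := key z hz (hp3 z hz3)
    obtain ⟨w, hw⟩ : ∃ w : A, w = x * z * x⁻¹ * z⁻¹ := ⟨_, rfl⟩
    rw [← hw] at hc
    obtain ⟨hcK, hcx⟩ := h1 w ((hO w).1 hc).1 (hOp2 w hc)
    have hcz := hcK z hz
    have h6 : x * z = z * x * w := by
      have h7 : x * z = w * (z * x) := by
        rw [hw]
        group
      rw [h7]
      calc w * (z * x) = (w * z) * x := by rw [mul_assoc]
        _ = (z * w) * x := by rw [hcz]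
        _ = z * (w * x) := by rw [mul_assoc]
        _ = z * (x * w) := by rw [hcx]
        _ = z * x * w := by rw [mul_assoc]
    have h8 := mul_pow_sq hp h6 hcz hcx ((hO w).1 hc).2
    rw [hzx, hx, mul_one] at h8
    exact h8.symm

/-- [RK82 P7] key step for Alperin's theorem.  `K1` is a normal subgroup all of whose elements of
order dividing `p^2` commute with `K1` and with `x`.  Proof: strong induction on `|K1|` (for all
groups `A`).  If `K1 = ⊥` trivial.  `K1` (as a type) has `PC`; let `O = {y ∈ K1 | y^p = 1}`, normal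
in `A`, `O ≠ ⊥`.  In `A ⧸ O` the subgroup `K1 ⧸ O` satisfies the hypotheses: elements of `K1` with
`u^(p^3) = 1`: `⁅u, k⁆^p = 1` for `k ∈ K1` (`PC.comm_pow`), and for `x`: `u' = x u x⁻¹` satisfies
`u'^p = x u^p x⁻¹ = u^p` (`u^p` has order dividing `p^2`), so `(u' u⁻¹)^p = 1` by `PC.inj`.  By
induction `z^(p^2) ∈ O`, so `z^(p^3) = 1`; as before `⁅x, z⁆ ∈ O`, which commutes with `x` and `z`;
by `mul_pow_sq` `1 = (z x)^(p^2) = z^(p^2) x^(p^2) = z^(p^2)`. -/
theorem alp_step {p : ℕ} (hp : p.Prime) {A : Type*} [Group A] [Finite A] (hA : IsPGroup p A)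
    (K1 : Subgroup A) (hn : K1.Normal) (x : A)
    (h1 : ∀ u ∈ K1, u ^ (p ^ 2) = 1 → (∀ k ∈ K1, u * k = k * u) ∧ u * x = x * u)
    (hx : x ^ (p ^ 2) = 1) (z : A) (hz : z ∈ K1) (hzx : (z * x) ^ (p ^ 2) = 1) :
    z ^ (p ^ 2) = 1 :=
  alp_step_aux hp (Nat.card K1) A hA K1 hn x h1 hx z hz hzx le_rfl

end MP_b83a82_al.H82
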