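import Pool.Agent.Lib.MP_b83a82_al.Series
import Pool.Agent.Lib.MP_b83a82_al.H82.Pc7

namespace MP_b83a82_al.H82

open scoped commutatorElement

/-- maximal abelian normal subgroup of exponent dividing `p^2`. -/
structure MaxAb (p : ℕ) {A : Type*} [Group A] (M : Subgroup A) : Prop where
  normal : M.Normal
  comm : ∀ x ∈ M, ∀ y ∈ M, x * y = y * x
  exp : ∀ x ∈ M, x ^ (p ^ 2) = 1
  max : ∀ M' : Subgroup A, M'.Normal → (∀ x ∈ M', ∀ y ∈ M', x * y = y * x) →
    (∀ x ∈ M', x ^ (p ^ 2) = 1) → M ≤ M' → M' = M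

/-- [RK82 P8] existence of `MaxAb` above a given one (`Set.Finite.exists_maximal`). -/
theorem exists_maxAb (p : ℕ) {A : Type*} [Group A] [Finite A] (M0 : Subgroup A) (hn : M0.Normal)
    (hc : ∀ x ∈ M0, ∀ y ∈ M0, x * y = y * x) (he : ∀ x ∈ M0, x ^ (p ^ 2) = 1) :
    ∃ M : Subgroup A, MaxAb p M ∧ M0 ≤ M := by
  classical
  let S : Set (Subgroup A) := {M' | M'.Normal ∧ (∀ x ∈ M', ∀ y ∈ M', x * y = y * x) ∧
    (∀ x ∈ M', x ^ (p ^ 2) = 1)}
  have hS : S.Finite := Set.toFinite S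
  obtain ⟨M, hle, hmax⟩ := hS.exists_le_maximal (show M0 ∈ S from ⟨hn, hc, he⟩)
  refine ⟨M, ⟨hmax.1.1, hmax.1.2.1, hmax.1.2.2, ?_⟩, hle⟩
  intro M' h1 h2 h3 h4
  exact le_antisymm (hmax.2 (show M' ∈ S from ⟨h1, h2, h3⟩) h4) h4

/-- [RK82 P8] Alperin's theorem.  Proof: suppose `x ∈ T = centralizer M`, `x^(p^2) = 1`, `x ∉ M`.
Among the normal subgroups `K` with `M ≤ K ≤ T` containing such an element take one minimal
(`Set.Finite.exists_minimal`); let `x ∈ K` be such an element.  `K1 = ⁅K, ⊤⁆ ⊔ M = ser M K 1` is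
normal, `M ≤ K1 ≤ K`, and `K1 ≠ K` (`ser_eq_of_stable` with `j = 0`: otherwise `K = M`).  By
minimality every element of `K1` of order dividing `p^2` lies in `M`, so it commutes with all of
`K` (`K ≤ T`).  For `g : A` let `z = ⁅g, x⁆ ∈ K1`; `g x g⁻¹ = z x` has order dividing `p^2`, so
`z^(p^2) = 1` by `alp_step`, so `z ∈ M`.  Hence `M ⊔ zpowers x` is normal, abelian, of exponent
dividing `p^2`, so it equals `M` by maximality: `x ∈ M`. -/
theorem alperin {p : ℕ} [Fact p.Prime] {A : Type*} [Group A] [Finite A] (hA : IsPGroup p A)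
    {M : Subgroup A} (hM : MaxAb p M) {x : A} (hx : x ∈ Subgroup.centralizer (M : Set A))
    (hx2 : x ^ (p ^ 2) = 1) : x ∈ M := by
  classical
  have hp : p.Prime := Fact.out
  have hnil : Group.IsNilpotent A := hA.isNilpotent
  have hMn : M.Normal := hM.normal
  by_contra hxM
  let S : Set (Subgroup A) := {K | K.Normal ∧ M ≤ K ∧ K ≤ Subgroup.centralizer (M : Set A) ∧
    ∃ x ∈ K, x ^ (p ^ 2) = 1 ∧ x ∉ M}
  have hTS : Subgroup.centralizer (M : Set A) ∈ S := by
    refine ⟨inferInstance, ?_, le_rfl, x, hx, hx2, hxM⟩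
    intro m hm
    rw [Subgroup.mem_centralizer_iff]
    intro m' hm'
    exact hM.comm m' hm' m hm
  obtain ⟨K, -, hKmin⟩ := (Set.toFinite S).exists_le_minimal hTS
  obtain ⟨⟨hKn, hMK, hKT, y, hyK, hy2, hyM⟩, hmin⟩ := hKmin
  have hn1 : (ser M K 1).Normal := ser_normal hMn hKn 1
  have hM1 : M ≤ ser M K 1 := le_ser hMK 1
  have h1K : ser M K 1 ≤ K := ser_succ_le hMn hKn hMK 0
  have hne : ¬ K ≤ ser M K 1 := by
    intro hle
    have h0 : ser M K 0 = M :=
      ser_eq_of_stable hMn hMK (j := 0) (le_antisymm h1K hle)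
    have h1 : K = M := h0
    rw [h1] at hyK
    exact hyM hyK
  have hord : ∀ u ∈ ser M K 1, u ^ (p ^ 2) = 1 → u ∈ M := by
    intro u hu hu2
    by_contra huM
    exact hne (hmin ⟨hn1, hM1, h1K.trans hKT, u, hu, hu2, huM⟩ h1K)
  have hcomm : ∀ u ∈ M, ∀ k ∈ K, u * k = k * u := by
    intro u hu k hk
    exact Subgroup.mem_centralizer_iff.mp (hKT hk) u hu
  have hz : ∀ g : A, ⁅g, y⁆ ∈ M := by
    intro g
    have hz1 : ⁅g, y⁆ ∈ ser M K 1 := act_ser M K g 0 y hyK
    refine hord _ hz1 (alp_step hp hA (ser M K 1) hn1 y ?_ hy2 _ hz1 ?_)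
    · intro u hu hu2
      have huM := hord u hu hu2
      exact ⟨fun k hk => hcomm u huM k (h1K hk), hcomm u huM y hyK⟩
    · have e : ⁅g, y⁆ * y = g * y * g⁻¹ := by
        simp only [commutatorElement_def]; group
      rw [e, conj_pow, hy2]
      group
  have hform : ∀ w ∈ M ⊔ Subgroup.zpowers y, ∃ m ∈ M, ∃ n : ℤ, w = m * y ^ n := by
    intro w hw
    obtain ⟨m, hm, c, hc, rfl⟩ := (Subgroup.mem_sup_of_normal_left).mp hw
    obtain ⟨n, rfl⟩ := Subgroup.mem_zpowers_iff.mp hc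
    exact ⟨m, hm, n, rfl⟩
  have hyc : ∀ m ∈ M, Commute m y := fun m hm => hcomm m hm y hyK
  have hmem : ∀ m ∈ M, m ∈ M ⊔ Subgroup.zpowers y := fun m hm => Subgroup.mem_sup_left hm
  have hymem : y ∈ M ⊔ Subgroup.zpowers y :=
    Subgroup.mem_sup_right (Subgroup.mem_zpowers y)
  have key : M ⊔ Subgroup.zpowers y = M := by
    refine hM.max _ ⟨?_⟩ ?_ ?_ le_sup_left
    · intro w hw g
      obtain ⟨m, hm, n, rfl⟩ := hform w hw
      have e : g * (m * y ^ n) * g⁻¹ = (g * m * g⁻¹) * (⁅g, y⁆ * y) ^ n := by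
        have e1 : ⁅g, y⁆ * y = g * y * g⁻¹ := by
          simp only [commutatorElement_def]; group
        rw [e1, conj_zpow]
        group
      rw [e]
      exact Subgroup.mul_mem _ (hmem _ (hMn.conj_mem m hm g))
        (Subgroup.zpow_mem _ (Subgroup.mul_mem _ (hmem _ (hz g)) hymem) n)
    · intro w hw w' hw'
      obtain ⟨m, hm, n, rfl⟩ := hform w hw
      obtain ⟨m', hm', n', rfl⟩ := hform w' hw'
      have c1 : Commute m m' := hM.comm m hm m' hm'
      have c2 : Commute m (y ^ n') := (hyc m hm).zpow_right n'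
      have c3 : Commute (y ^ n) m' := ((hyc m' hm').zpow_right n).symm
      have c4 : Commute (y ^ n) (y ^ n') := Commute.zpow_zpow_self y n n'
      exact ((c1.mul_right c2).mul_left (c3.mul_right c4)).eq
    · intro w hw
      obtain ⟨m, hm, n, rfl⟩ := hform w hw
      have c2 : Commute m (y ^ n) := (hyc m hm).zpow_right n
      rw [c2.mul_pow, hM.exp m hm, one_mul, ← zpow_natCast, ← zpow_mul, mul_comm, zpow_mul,
        zpow_natCast, hy2, one_zpow]
  apply hyM
  rw [← key]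
  exact hymem

/-- [RK82 P8] consequence. -/
theorem PC_centralizer {p : ℕ} [Fact p.Prime] {A : Type*} [Group A] [Finite A]
    (hA : IsPGroup p A) {M : Subgroup A} (hM : MaxAb p M) :
    PC p (Subgroup.centralizer (M : Set A)) := by
  rintro ⟨x, hx⟩ hx2 ⟨y, hy⟩
  have h2 : x ^ (p ^ 2) = 1 := by
    have := congrArg Subtype.val hx2
    simpa using this
  have hxM := alperin hA hM hx h2
  apply Subtype.ext
  exact Subgroup.mem_centralizer_iff.mp hy x hxM

end MP_b83a82_al.H82
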