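import Pool.Agent.Lib.MP_b83a82_al.H82.Lin1
import Pool.Agent.Lib.MP_b83a82_al.H82.Lin3
import Pool.Agent.Lib.MP_b83a82_al.H82.Lin3b
import Pool.Agent.Lib.MP_b83a82_al.H82.Pc4
import Pool.Agent.Lib.MP_b83a82_al.H82.Pc6
import Pool.Agent.Lib.MP_b83a82_al.H82.Pc8

/-! the `p^2`-central part in the inductive step for linear `p`-groups. -/

namespace MP_b83a82_al.H82

open Module
open scoped commutatorElement

universe u

private theorem lin_step_C_om {p : ℕ} {A : Type u} [Group A] [Finite A] {a : ℕ}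
    (ha : RkLE p (⊤ : Subgroup A) a) {C : Subgroup A} (h : PC p C) :
    Nat.card {x : C // x ^ p = 1} ≤ p ^ a := by
  have e1 : Nat.card {x : C // x ^ p = 1} = Nat.card (om1 h) := rfl
  rw [e1]
  set H : Subgroup A := (om1 h).map C.subtype with hH
  have hcard : Nat.card H = Nat.card (om1 h) :=
    Nat.card_congr ((om1 h).equivMapOfInjective C.subtype C.subtype_injective).toEquiv.symm
  have hsec : ElSec p (⊥ : Subgroup A) H := by
    refine ⟨bot_le, ?_, ?_⟩
    · rintro _ ⟨x, hx, rfl⟩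
      rw [Subgroup.mem_bot, ← map_pow]
      have : x ^ p = 1 := hx
      rw [this, map_one]
    · rintro _ ⟨x, hx, rfl⟩ _ ⟨y, hy, rfl⟩
      rw [Subgroup.mem_bot, commutatorElement_eq_one_iff_mul_comm, ← map_mul, ← map_mul,
        om1_central h hx y]
  have := ha ⊥ H le_top hsec
  rwa [Subgroup.relIndex_bot_left, hcard] at this

/-- [RK82 L3] the `p^2`-central part.  Proof: `C = centralizer M` has `PC` (`PC_centralizer`);
`PC.abelian` gives an abelian `H ≤ C` with `|C| ≤ |Ω| |H|^2`, `Ω = {x : C | x^p = 1}`, an elementary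
abelian subgroup of `A`, so `|Ω| ≤ p^a`; `ab_bound` for the restriction of `ρ` to the image of `H`
in `A` (injective): `|H|^(3^j) ≤ p^(3^j ((j+1) a) + 2^j (n-1))`. -/
theorem lin_step_C (p : ℕ) [Fact p.Prime] {A : Type u} [Group A] [Finite A] (hA : IsPGroup p A)
    {V : Type u} [AddCommGroup V] [Module (ZMod p) V] [Finite V] [Nontrivial V]
    (ρ : A →* Module.End (ZMod p) V) (hinj : Function.Injective ρ) {a n : ℕ}
    (ha : RkLE p (⊤ : Subgroup A) a) (hn : Nat.card V ≤ p ^ n) (j : ℕ) {M : Subgroup A}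
    (hM : MaxAb p M) :
    (Nat.card (Subgroup.centralizer (M : Set A))) ^ (3 ^ j) ≤
      p ^ (3 ^ j * ((2 * j + 3) * a) + 2 * 2 ^ j * (n - 1)) := by
  set C : Subgroup A := Subgroup.centralizer (M : Set A) with hC
  have hpc : PC p C := PC_centralizer hA hM
  have hpC : IsPGroup p C := hA.to_subgroup C
  obtain ⟨H, hHab, hHcard⟩ := PC.abelian (Fact.out : p.Prime) hpC hpc
  have hΩ := lin_step_C_om ha hpc
  have hpH : IsPGroup p H := hpC.to_subgroup H
  have haH : RkLE p (⊤ : Subgroup H) a := by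
    have h1 : RkLE p C a := RkLE_mono le_top ha
    have h2 : RkLE p (⊤ : Subgroup C) a := RkLE_coe h1
    have h3 : RkLE p H a := RkLE_mono le_top h2
    exact RkLE_coe h3
  set ρ' : H →* Module.End (ZMod p) V := (ρ.comp C.subtype).comp H.subtype with hρ'
  have hinj' : Function.Injective ρ' := by
    intro x y hxy
    exact H.subtype_injective (C.subtype_injective (hinj hxy))
  have hb := ab_bound p hpH (fun x y => by
    have := hHab x x.2 y y.2
    exact Subtype.ext this) ρ' haH hn j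
  have hker : ρ'.ker = ⊥ := (MonoidHom.ker_eq_bot_iff ρ').2 hinj'
  rw [hker, Subgroup.index_bot] at hb
  calc Nat.card C ^ (3 ^ j)
      ≤ (p ^ a * Nat.card H ^ 2) ^ (3 ^ j) :=
        Nat.pow_le_pow_left (hHcard.trans (Nat.mul_le_mul_right _ hΩ)) _
    _ = p ^ (a * 3 ^ j) * (Nat.card H ^ 3 ^ j) ^ 2 := by
        rw [mul_pow, ← pow_mul, ← pow_mul, ← pow_mul, mul_comm 2 (3 ^ j)]
    _ ≤ p ^ (a * 3 ^ j) * (p ^ (3 ^ j * ((j + 1) * a) + 2 ^ j * (n - 1))) ^ 2 :=
        Nat.mul_le_mul_left _ (Nat.pow_le_pow_left hb 2)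
    _ = p ^ (3 ^ j * ((2 * j + 3) * a) + 2 * 2 ^ j * (n - 1)) := by
        rw [← pow_mul, ← pow_add]
        congr 1
        ring

end MP_b83a82_al.H82
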