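import Pool.Agent.Lib.MP_b83a82_al.H82.Lin1
import Pool.Agent.Lib.MP_b83a82_al.H82.Lin3
import Pool.Agent.Lib.MP_b83a82_al.H82.Lin3b
import Pool.Agent.Lib.MP_b83a82_al.H82.Pc4
import Pool.Agent.Lib.MP_b83a82_al.H82.Pc6
import Pool.Agent.Lib.MP_b83a82_al.H82.Pc8
import Pool.Agent.Lib.MP_b83a82_al.H82.Lin4a

/-! the inductive step for linear `p`-groups. -/

namespace MP_b83a82_al.H82

open Module
open scoped commutatorElement

universe u

/-- every representation of `A` on a space of order `≤ p ^ a` with `D` in the kernel has image of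
order `≤ p ^ B`. -/
def BndA (p a B : ℕ) (A : Type u) [Group A] (D : Subgroup A) : Prop :=
  ∀ (V : Type u) [AddCommGroup V] [Module (ZMod p) V] [Finite V]
    (ρ : A →* Module.End (ZMod p) V), Nat.card V ≤ p ^ a → D ≤ ρ.ker → ρ.ker.index ≤ p ^ B

/-- the elements of exponent `p` in an abelian subgroup. -/
def omSub (p : ℕ) {A : Type u} [Group A] (N : Subgroup A)
    (hab : ∀ x ∈ N, ∀ y ∈ N, x * y = y * x) : Subgroup A where
  carrier := {x | x ∈ N ∧ x ^ p = 1}
  mul_mem' := by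
    rintro x y ⟨hx, hx1⟩ ⟨hy, hy1⟩
    refine ⟨N.mul_mem hx hy, ?_⟩
    have hc : Commute x y := hab x hx y hy
    rw [hc.mul_pow, hx1, hy1, one_mul]
  one_mem' := ⟨N.one_mem, one_pow p⟩
  inv_mem' := by
    rintro x ⟨hx, hx1⟩
    exact ⟨N.inv_mem hx, by rw [inv_pow, hx1, inv_one]⟩

theorem mem_omSub {p : ℕ} {A : Type u} [Group A] {N : Subgroup A}
    {hab : ∀ x ∈ N, ∀ y ∈ N, x * y = y * x} {x : A} :
    x ∈ omSub p N hab ↔ x ∈ N ∧ x ^ p = 1 := Iff.rfl

theorem omSub_normal {p : ℕ} {A : Type u} [Group A] {N : Subgroup A}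
    {hab : ∀ x ∈ N, ∀ y ∈ N, x * y = y * x} (hN : N.Normal) : (omSub p N hab).Normal := by
  constructor
  rintro x ⟨hx, hx1⟩ g
  refine ⟨hN.conj_mem x hx g, ?_⟩
  rw [conj_pow, hx1, mul_one, mul_inv_cancel]

theorem mem_actS {A : Type u} [Group A] {X Z : Subgroup A} {hZ : Z.Normal} {g : A} :
    g ∈ actS X Z hZ ↔ Act g X Z := Iff.rfl

/-- [RK82 L4] the index of the centralizer.  Proof: `D2 = {x ∈ D | x^(p^2) = 1} ≤ M`.
`U = {x ∈ M | x^p = 1}`, `U2 = {x ∈ D | x^p = 1} ≤ U`, both normal elementary abelian, of order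
`≤ p^a` (`ElSec p ⊥ U`).  `D` acts trivially on `U2` and on `U / U2` (`⁅U, D⁆ ≤ U ⊓ D ≤ U2`).
`V' = U2 ⊕ U / U2` (`sect_rep` for `⊥ ≤ U2` and for `U2 ≤ U`, `rep_prod`), of order `|U| ≤ p^a`, with
kernel `C' = actS U U2 ⊓ actS U2 ⊥ ≥ D`, so `C'.index ≤ p^B` by `hB`.
`ElSec p (actS U ⊥) C'` and `ElSec p (actS M ⊥) (actS M U ⊓ actS U ⊥)` (`elsec_two_step`),
`actS U ⊥ ≤ actS M U` (`act_of_act_om`), `actS M ⊥ = centralizer M`; so
`(centralizer M).index ≤ p^a * p^a * p^B`. -/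
theorem lin_step_idx (p : ℕ) [Fact p.Prime] {A : Type u} [Group A] [Finite A] (hA : IsPGroup p A)
    {a B : ℕ} (ha : RkLE p (⊤ : Subgroup A) a) (D : Subgroup A) (hD : D.Normal)
    (hDab : ∀ x ∈ D, ∀ y ∈ D, x * y = y * x) (hB : BndA p a B A D) {M : Subgroup A}
    (hM : MaxAb p M) (hDM : ∀ x ∈ D, x ^ (p ^ 2) = 1 → x ∈ M) :
    (Subgroup.centralizer (M : Set A)).index ≤ p ^ (2 * a + B) := by
  classical
  have hMn := hM.normal
  have hbn : (⊥ : Subgroup A).Normal := inferInstance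
  have hUn : (omSub p M hM.comm).Normal := omSub_normal hMn
  have hU2n : (omSub p D hDab).Normal := omSub_normal hD
  have hle : omSub p D hDab ≤ omSub p M hM.comm := by
    rintro x ⟨hx, hx1⟩
    refine ⟨hDM x hx ?_, hx1⟩
    rw [pow_two, pow_mul, hx1, one_pow]
  have hUM : omSub p M hM.comm ≤ M := fun x hx => hx.1
  have hcomU : ∀ h ∈ omSub p M hM.comm, ∀ h' ∈ omSub p M hM.comm, ⁅h, h'⁆ = 1 := by
    intro h hh h' hh'
    rw [commutatorElement_eq_one_iff_mul_comm]
    exact hM.comm h hh.1 h' hh'.1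
  have hEU : ElSec p ⊥ (omSub p M hM.comm) := by
    refine ⟨bot_le, ?_, ?_⟩
    · intro h hh
      rw [Subgroup.mem_bot]
      exact hh.2
    · intro h hh h' hh'
      rw [Subgroup.mem_bot]
      exact hcomU h hh h' hh'
  have hEU2 : ElSec p ⊥ (omSub p D hDab) := by
    refine ⟨bot_le, ?_, ?_⟩
    · intro h hh
      rw [Subgroup.mem_bot]
      exact hh.2
    · intro h hh h' hh'
      rw [Subgroup.mem_bot]
      exact hcomU h (hle hh) h' (hle hh')
  have hEUU : ElSec p (omSub p D hDab) (omSub p M hM.comm) := by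
    refine ⟨hle, ?_, ?_⟩
    · intro h hh
      rw [hh.2]
      exact Subgroup.one_mem _
    · intro h hh h' hh'
      rw [hcomU h hh h' hh']
      exact Subgroup.one_mem _
  obtain ⟨V1, i1, i2, i3, ρ1, hc1, hk1⟩ := sect_rep p hU2n hUn hEUU
  obtain ⟨V2, j1, j2, j3, ρ2, hc2, hk2⟩ := sect_rep p hbn hU2n hEU2
  obtain ⟨τ, hτ⟩ := rep_prod p ρ1 ρ2
  have hcard : Nat.card (V1 × V2) ≤ p ^ a := by
    rw [Nat.card_prod, hc1, hc2, mul_comm, Subgroup.relIndex_mul_relIndex _ _ _ bot_le hle]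
    exact ha _ _ le_top hEU
  have hDk : D ≤ τ.ker := by
    rw [hτ, hk1, hk2]
    intro d hd
    refine ⟨?_, ?_⟩
    · intro u hu
      refine ⟨?_, ?_⟩
      · have e : ⁅d, u⁆ = d * (u * d⁻¹ * u⁻¹) := by
          simp only [commutatorElement_def]; group
        rw [e]
        exact D.mul_mem hd (hD.conj_mem _ (D.inv_mem hd) u)
      · have h1 : ⁅d, u⁆ ∈ omSub p M hM.comm := by
          rw [commutatorElement_def]
          exact Subgroup.mul_mem _ (hUn.conj_mem u hu d) (Subgroup.inv_mem _ hu)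
        exact h1.2
    · intro u hu
      rw [Subgroup.mem_bot, commutatorElement_eq_one_iff_mul_comm]
      exact hDab d hd u hu.1
  have hidx := hB (V1 × V2) τ hcard hDk
  rw [hτ, hk1, hk2] at hidx
  have hs1 := elsec_two_step (p := p) hUn hU2n hbn hle hEU2
  have hs2 := elsec_two_step (p := p) hMn hUn hbn hUM hEU
  have hact : actS (omSub p M hM.comm) ⊥ hbn ≤ actS M (omSub p M hM.comm) hUn := by
    intro g hg
    exact act_of_act_om hMn hM.comm hM.exp (fun x => Iff.rfl) hg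
  rw [inf_eq_right.mpr hact] at hs2
  have hr1 := ha _ _ le_top hs1
  have hr2 := ha _ _ le_top hs2
  have hcen : actS M ⊥ hbn ≤ Subgroup.centralizer (M : Set A) := by
    intro g hg
    rw [Subgroup.mem_centralizer_iff]
    intro m hm
    have h1 := hg m hm
    rw [Subgroup.mem_bot, commutatorElement_eq_one_iff_mul_comm] at h1
    exact h1.symm
  have hi1 : (Subgroup.centralizer (M : Set A)).index ≤ (actS M ⊥ hbn).index :=
    Nat.le_of_dvd (Nat.pos_of_ne_zero Subgroup.index_ne_zero_of_finite)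
      (Subgroup.index_dvd_of_le hcen)
  have hi2 := Subgroup.relIndex_mul_index hs2.1
  have hi3 := Subgroup.relIndex_mul_index hs1.1
  calc (Subgroup.centralizer (M : Set A)).index ≤ (actS M ⊥ hbn).index := hi1
    _ = _ := hi2.symm
    _ ≤ p ^ a * (p ^ a * p ^ B) := by
        refine Nat.mul_le_mul hr2 ?_
        rw [← hi3]
        exact Nat.mul_le_mul hr1 hidx
    _ = p ^ (2 * a + B) := by
        rw [← pow_add, ← pow_add]
        congr 1
        omega

end MP_b83a82_al.H82
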