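import Pool.Agent.Lib.MP_b83a82_al.H82.Lin2
import Pool.Agent.Lib.MP_b83a82_al.H82.Lin4

namespace MP_b83a82_al.H82

open Module
open scoped commutatorElement

universe u

/-- [RK82 L5] the step: choose `M` by `exists_maxAb` above `{x ∈ D | x^(p^2) = 1}` and combine
`lin_step_C` and `lin_step_idx`. -/
theorem lin_step (p : ℕ) [Fact p.Prime] {A : Type u} [Group A] [Finite A] (hA : IsPGroup p A)
    {V : Type u} [AddCommGroup V] [Module (ZMod p) V] [Finite V] [Nontrivial V]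
    (ρ : A →* Module.End (ZMod p) V) (hinj : Function.Injective ρ) {a n B : ℕ}
    (ha : RkLE p (⊤ : Subgroup A) a) (hn : Nat.card V ≤ p ^ n) (j : ℕ) (D : Subgroup A)
    (hD : D.Normal) (hDab : ∀ x ∈ D, ∀ y ∈ D, x * y = y * x) (hB : BndA p a B A D) :
    (Nat.card A) ^ (3 ^ j) ≤
      p ^ (3 ^ j * ((2 * j + 5) * a + B) + 2 * 2 ^ j * (n - 1)) := by
  let M0 : Subgroup A :=
    { carrier := {x | x ∈ D ∧ x ^ (p ^ 2) = 1}
      one_mem' := ⟨D.one_mem, one_pow _⟩
      mul_mem' := by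
        rintro x y ⟨hx, hx'⟩ ⟨hy, hy'⟩
        refine ⟨D.mul_mem hx hy, ?_⟩
        rw [(show Commute x y from hDab x hx y hy).mul_pow, hx', hy', one_mul]
      inv_mem' := by
        rintro x ⟨hx, hx'⟩
        refine ⟨D.inv_mem hx, ?_⟩
        rw [inv_pow, hx', inv_one] }
  have hM0 : ∀ x, x ∈ M0 ↔ x ∈ D ∧ x ^ (p ^ 2) = 1 := fun x => Iff.rfl
  have hn0 : M0.Normal := by
    constructor
    intro x hx g
    rw [hM0] at hx ⊢
    refine ⟨hD.conj_mem x hx.1 g, ?_⟩
    rw [conj_pow, hx.2, mul_one, mul_inv_cancel]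
  obtain ⟨M, hM, hle⟩ := exists_maxAb p M0 hn0
    (fun x hx y hy => hDab x ((hM0 x).1 hx).1 y ((hM0 y).1 hy).1) (fun x hx => ((hM0 x).1 hx).2)
  have h1 := lin_step_C p hA ρ hinj ha hn j hM
  have h2 := lin_step_idx p hA ha D hD hDab hB hM (fun x hx hx2 => hle ((hM0 x).2 ⟨hx, hx2⟩))
  have h3 : Nat.card A = Nat.card (Subgroup.centralizer (M : Set A)) *
      (Subgroup.centralizer (M : Set A)).index :=
    (Subgroup.card_mul_index _).symm
  have hp : 0 < p := (Fact.out : p.Prime).pos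
  calc (Nat.card A) ^ (3 ^ j) = (Nat.card (Subgroup.centralizer (M : Set A))) ^ (3 ^ j) *
        (Subgroup.centralizer (M : Set A)).index ^ (3 ^ j) := by rw [h3, mul_pow]
    _ ≤ p ^ (3 ^ j * ((2 * j + 3) * a) + 2 * 2 ^ j * (n - 1)) * (p ^ (2 * a + B)) ^ (3 ^ j) :=
        Nat.mul_le_mul h1 (Nat.pow_le_pow_left h2 _)
    _ = p ^ (3 ^ j * ((2 * j + 5) * a + B) + 2 * 2 ^ j * (n - 1)) := by
        rw [← pow_mul, ← pow_add]
        congr 1
        ring

private theorem lin5_comm {Q : Type u} [Group Q] {ℓ : ℕ} (h : derivedSeries Q (ℓ + 1) = ⊥) :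
    ∀ x ∈ derivedSeries Q ℓ, ∀ y ∈ derivedSeries Q ℓ, x * y = y * x := by
  intro x hx y hy
  have h1 : ⁅x, y⁆ ∈ derivedSeries Q (ℓ + 1) := by
    rw [derivedSeries_succ]
    exact Subgroup.commutator_mem_commutator hx hy
  rw [h, Subgroup.mem_bot, commutatorElement_eq_one_iff_mul_comm] at h1
  exact h1

/-- the faithful quotient. -/
private theorem lin5_quot (p : ℕ) [Fact p.Prime] {A : Type u} [Group A] [Finite A]
    (hA : IsPGroup p A) {V : Type u} [AddCommGroup V] [Module (ZMod p) V]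
    (ρ : A →* Module.End (ZMod p) V) {a : ℕ} (ha : RkLE p (⊤ : Subgroup A) a) :
    ∃ (Q : Type u) (_ : Group Q) (_ : Finite Q) (ρ' : Q →* Module.End (ZMod p) V),
      IsPGroup p Q ∧ RkLE p (⊤ : Subgroup Q) a ∧ Function.Injective ρ' ∧
      ρ.ker.index = Nat.card Q ∧ ∀ k, derivedSeries A k ≤ ρ.ker → derivedSeries Q k = ⊥ := by
  refine ⟨A ⧸ ρ.ker, inferInstance, inferInstance, QuotientGroup.lift ρ.ker ρ le_rfl,
    hA.to_quotient ρ.ker, RkLE_quot ha ρ.ker, ?_, Subgroup.index_eq_card _, ?_⟩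
  · intro x y h
    induction x using QuotientGroup.induction_on with
    | H x =>
    induction y using QuotientGroup.induction_on with
    | H y =>
      rw [QuotientGroup.lift_mk, QuotientGroup.lift_mk] at h
      rw [QuotientGroup.eq, MonoidHom.mem_ker, map_mul, ← h, ← map_mul, inv_mul_cancel, map_one]
  intro k h
  rw [← map_derivedSeries_eq (QuotientGroup.mk'_surjective ρ.ker) k, Subgroup.map_eq_bot_iff,
    QuotientGroup.ker_mk']
  exact h

/-- [RK82 L5] induction on the derived length, small degree.  `ℓ = 0`: `ker ρ = ⊤`.  `ℓ + 1`: pass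
to `A ⧸ ker ρ` (`RkLE_quot`), `D = derivedSeries _ ℓ` is abelian; `BndA p a (7 ℓ a)` by induction;
`lin_step` with `j = 0`, `n = a`: `5 a + 7 ℓ a + 2 (a - 1) ≤ 7 (ℓ + 1) a`.  (If `V` is trivial the
index is `1`.) -/
theorem lin_dl (p : ℕ) [Fact p.Prime] (ℓ : ℕ) : ∀ {A : Type u} [Group A] [Finite A]
    (_ : IsPGroup p A) {V : Type u} [AddCommGroup V] [Module (ZMod p) V] [Finite V]
    (ρ : A →* Module.End (ZMod p) V) {a : ℕ} (_ : RkLE p (⊤ : Subgroup A) a)
    (_ : Nat.card V ≤ p ^ a) (_ : derivedSeries A ℓ ≤ ρ.ker), ρ.ker.index ≤ p ^ (7 * ℓ * a) := by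
  have hp : 0 < p := (Fact.out : p.Prime).pos
  induction ℓ with
  | zero =>
    intro A _ _ hA V _ _ _ ρ a ha hV hD
    rw [derivedSeries_zero, top_le_iff] at hD
    rw [hD, Subgroup.index_top]
    exact Nat.one_le_pow _ _ hp
  | succ ℓ ih =>
    intro A _ _ hA V _ _ _ ρ a ha hV hD
    rcases subsingleton_or_nontrivial V with hV1 | hV1
    · have : ρ.ker = ⊤ := by
        rw [eq_top_iff]
        intro x _
        rw [MonoidHom.mem_ker]
        exact LinearMap.ext fun v => Subsingleton.elim _ _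
      rw [this, Subgroup.index_top]
      exact Nat.one_le_pow _ _ hp
    · obtain ⟨Q, _, _, ρ', hQ, haQ, hinj, hidx, hder⟩ := lin5_quot p hA ρ ha
      have hbot := hder _ hD
      have hB : BndA p a (7 * ℓ * a) Q (derivedSeries Q ℓ) := by
        intro W _ _ _ σ hW hDW
        exact ih hQ σ haQ hW hDW
      have h1 := lin_step p hQ ρ' hinj haQ hV
        0 (derivedSeries Q ℓ) inferInstance (lin5_comm hbot) hB
      rw [pow_zero, pow_one] at h1
      rw [hidx]
      refine h1.trans (Nat.pow_le_pow_right hp ?_)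
      have : 7 * (ℓ + 1) * a = 7 * ℓ * a + 7 * a := by ring
      rw [this]
      have h2 : a - 1 ≤ a := Nat.sub_le _ _
      simp only [pow_zero, mul_one, one_mul, mul_zero, zero_add]
      omega

/-- [RK82 L5] general degree: `A` of derived length `≤ ℓ + 1` modulo the kernel, or `a ≤ 2 ^ ℓ`.
Pass to `A ⧸ ker ρ`.  First case: `D = derivedSeries _ ℓ` and `lin_dl`; second case: `D = ⊥`, and
`BndA p a (7 ℓ a) _ ⊥` by `dl_bound` and `lin_dl`.  Then `lin_step`. -/
theorem lin_main (p : ℕ) [Fact p.Prime] {A : Type u} [Group A] [Finite A] (hA : IsPGroup p A)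
    {V : Type u} [AddCommGroup V] [Module (ZMod p) V] [Finite V] [Nontrivial V]
    (ρ : A →* Module.End (ZMod p) V) {a n : ℕ} (ha : RkLE p (⊤ : Subgroup A) a)
    (hn : Nat.card V ≤ p ^ n) (ℓ : ℕ) (hℓ : derivedSeries A (ℓ + 1) ≤ ρ.ker ∨ a ≤ 2 ^ ℓ)
    (j : ℕ) :
    ρ.ker.index ^ (3 ^ j) ≤
      p ^ (3 ^ j * ((2 * j + 5) * a + 7 * ℓ * a) + 2 * 2 ^ j * (n - 1)) := by
  obtain ⟨Q, _, _, ρ', hQ, haQ, hinj, hidx, hder⟩ := lin5_quot p hA ρ ha
  rw [hidx]
  rcases hℓ with hℓ | hℓ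
  · have hbot := hder _ hℓ
    have hB : BndA p a (7 * ℓ * a) Q (derivedSeries Q ℓ) := by
      intro W _ _ _ σ hW hDW
      exact lin_dl p ℓ hQ σ haQ hW hDW
    exact lin_step p hQ ρ' hinj haQ hn j (derivedSeries Q ℓ) inferInstance (lin5_comm hbot) hB
  · have hB : BndA p a (7 * ℓ * a) Q ⊥ := by
      intro W _ _ _ σ hW _
      exact lin_dl p ℓ hQ σ haQ hW (dl_bound p hQ σ hW hℓ)
    refine lin_step p hQ ρ' hinj haQ hn j ⊥ inferInstance ?_ hB
    intro x hx y _
    rw [Subgroup.mem_bot.1 hx, one_mul, mul_one]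

end MP_b83a82_al.H82
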