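import Mathlib.GroupTheory.PGroup
import Mathlib.GroupTheory.Index
import Mathlib.GroupTheory.Nilpotent
import Mathlib.GroupTheory.IndexNormal
import Mathlib.GroupTheory.Sylow
import Mathlib.Tactic

/-! `p ^ 2`-central groups. -/

namespace MP_b83a82_al.H82

open scoped commutatorElement

/-- every element of order dividing `p ^ 2` is central. -/
def PC (p : ℕ) (K : Type*) [Group K] : Prop := ∀ x : K, x ^ (p ^ 2) = 1 → ∀ y : K, x * y = y * x

/-- [RK82 P0] power of a product when the commutator is central: if `y * x = x * y * w` with `w`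
commuting with `x` and `y`, then `(x * y) ^ n = x ^ n * y ^ n * w ^ (n * (n - 1) / 2)`.
(Induction on `n`.) -/
theorem mul_pow_of_central {K : Type*} [Group K] {x y w : K} (h : y * x = x * y * w)
    (hx : Commute w x) (hy : Commute w y) (n : ℕ) :
    (x * y) ^ n = x ^ n * y ^ n * w ^ (n * (n - 1) / 2) := by
  have key : ∀ m : ℕ, y ^ m * x = x * y ^ m * w ^ m := by
    intro m
    induction m with
    | zero => simp
    | succ m ih =>
      calc y ^ (m + 1) * x = y * (y ^ m * x) := by rw [pow_succ', mul_assoc]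
        _ = (y * x) * (y ^ m * w ^ m) := by rw [ih]; simp only [mul_assoc]
        _ = x * y * (w * y ^ m) * w ^ m := by rw [h]; simp only [mul_assoc]
        _ = x * y * (y ^ m * w) * w ^ m := by rw [(hy.pow_right m).eq]
        _ = x * y ^ (m + 1) * w ^ (m + 1) := by
          rw [pow_succ' y, pow_succ' w]
          simp only [mul_assoc]
  induction n with
  | zero => simp
  | succ n ih =>
    have hc : Commute (w ^ (n * (n - 1) / 2)) (x * y) :=
      ((hx.pow_left _).mul_right (hy.pow_left _))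
    have hwy : Commute (w ^ n) y := hy.pow_left n
    rw [Nat.triangle_succ]
    calc (x * y) ^ (n + 1) = (x * y) ^ n * (x * y) := pow_succ _ _
      _ = x ^ n * y ^ n * (w ^ (n * (n - 1) / 2) * (x * y)) := by rw [ih]; simp only [mul_assoc]
      _ = x ^ n * y ^ n * (x * y * w ^ (n * (n - 1) / 2)) := by rw [hc.eq]
      _ = x ^ n * (y ^ n * x) * y * w ^ (n * (n - 1) / 2) := by simp only [mul_assoc]
      _ = x ^ n * x * y ^ n * (w ^ n * y) * w ^ (n * (n - 1) / 2) := by
        rw [key n]
        simp only [mul_assoc]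
      _ = x ^ n * x * y ^ n * (y * w ^ n) * w ^ (n * (n - 1) / 2) := by rw [hwy.eq]
      _ = x ^ (n + 1) * y ^ (n + 1) * w ^ (n * (n - 1) / 2 + n) := by
        rw [pow_succ x, pow_succ y, add_comm _ n, pow_add]
        simp only [mul_assoc]

/-- [RK82 P0] consequence: if moreover `w ^ p = 1`, `x ^ (p^2) = 1` and `(x * y) ^ (p^2) = 1` then
`y ^ (p^2) = 1` (`p` divides `p^2 (p^2 - 1) / 2` for every prime `p`); more generally
`(x * y) ^ (p^2) = x ^ (p^2) * y ^ (p^2)`. -/
theorem mul_pow_sq {K : Type*} [Group K] {p : ℕ} (hp : p.Prime) {x y w : K}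
    (h : y * x = x * y * w) (hx : Commute w x) (hy : Commute w y) (hw : w ^ p = 1) :
    (x * y) ^ (p ^ 2) = x ^ (p ^ 2) * y ^ (p ^ 2) := by
  rw [mul_pow_of_central h hx hy]
  have hdvd : p ∣ p ^ 2 * (p ^ 2 - 1) / 2 := by
    have h2 : 2 ∣ p ^ 2 * (p ^ 2 - 1) := (Nat.even_mul_pred_self (p ^ 2)).two_dvd
    have h3 : p ∣ 2 * (p ^ 2 * (p ^ 2 - 1) / 2) := by
      rw [Nat.mul_div_cancel' h2]
      exact Dvd.dvd.mul_right (dvd_pow_self p (by norm_num)) _
    rcases hp.eq_two_or_odd' with rfl | hodd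
    · norm_num
    · have hcop : Nat.Coprime p 2 := hodd.coprime_two_right
      exact hcop.dvd_of_dvd_mul_left h3
  obtain ⟨c, hc⟩ := hdvd
  rw [hc, pow_mul, hw, one_pow, mul_one]

end MP_b83a82_al.H82
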