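import Pool.Agent.Lib.MP_b83a82_al.H82.Pc1

namespace MP_b83a82_al.H82

open scoped commutatorElement

universe u

private theorem PC_comm_pow_aux {p : ℕ} (hp : p.Prime) (n : ℕ) : ∀ (K : Type u) [Group K]
    [Finite K], Nat.card K = n → IsPGroup p K → PC p K → ∀ z : K, z ^ (p ^ 3) = 1 →
    ∀ k : K, ⁅z, k⁆ ^ p = 1 := by
  induction n using Nat.strong_induction_on with
  | _ n ih =>
  intro K _ _ hn hK h z hz k
  have : Fact p.Prime := ⟨hp⟩
  rcases eq_top_or_exists_le_coatom (Subgroup.zpowers z) with htop | ⟨M, hM, hzM⟩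
  · -- `K` is cyclic
    have hk : k ∈ Subgroup.zpowers z := by rw [htop]; exact Subgroup.mem_top k
    obtain ⟨m, rfl⟩ := Subgroup.mem_zpowers_iff.1 hk
    have : ⁅z, z ^ m⁆ = 1 := by
      rw [commutatorElement_eq_one_iff_commute]
      exact (Commute.refl z).zpow_right m
    rw [this, one_pow]
  · have : Group.IsNilpotent K := hK.isNilpotent
    have hnorm : M.Normal :=
      Subgroup.NormalizerCondition.normal_of_coatom M Group.normalizerCondition_of_isNilpotent hM
    have hzM' : z ∈ M := hzM (Subgroup.mem_zpowers z)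
    have hyM : k * z * k⁻¹ ∈ M := hnorm.conj_mem z hzM' k
    have hcard : Nat.card M < n := by
      rw [← hn]
      refine lt_of_le_of_ne (Subgroup.card_le_card_group M) ?_
      intro h1
      exact hM.1 ((Subgroup.card_eq_iff_eq_top M).1 h1)
    have hMPC : PC p M := by
      intro x hx y
      apply Subtype.ext
      exact h x (by
        have := congrArg (fun t : M => (t : K)) hx
        simpa using this) y
    have hw := ih _ hcard M rfl (hK.to_subgroup M) hMPC ⟨z, hzM'⟩
      (Subtype.ext (by simpa using hz)) ⟨k * z * k⁻¹, hyM⟩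
    have hw1 : ⁅z, k * z * k⁻¹⁆ ^ p = 1 := by
      have := congrArg (fun t : M => (t : K)) hw
      simpa [commutatorElement_def] using this
    clear hw
    set y : K := k * z * k⁻¹ with hy
    set w : K := ⁅z, y⁆ with hwdef
    clear_value w
    clear_value y
    have hwc : ∀ g : K, w * g = g * w := by
      apply h
      rw [pow_two, pow_mul, hw1, one_pow]
    have hzp : ∀ g : K, z ^ p * g = g * z ^ p := by
      apply h
      rw [← pow_mul, ← pow_succ']
      exact hz
    have hyp : y ^ p = z ^ p := by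
      rw [hy, conj_pow, ← hzp k, mul_inv_cancel_right]
    have e1 : z * y = w * y * z := by
      rw [hwdef, commutatorElement_def]; group
    have e2 : z⁻¹ * y = y * z⁻¹ * w⁻¹ := by
      have h1 : y * z = z * y * w⁻¹ := by
        rw [e1, mul_assoc w, hwc, mul_inv_cancel_right]
      have h2 : z⁻¹ * y = z⁻¹ * (y * z) * z⁻¹ := by group
      rw [h2, h1]
      have h3 : w⁻¹ * z⁻¹ = z⁻¹ * w⁻¹ := by
        have : Commute w z := hwc z
        exact this.inv_inv.eq
      calc z⁻¹ * (z * y * w⁻¹) * z⁻¹ = y * (w⁻¹ * z⁻¹) := by group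
        _ = y * z⁻¹ * w⁻¹ := by rw [h3, mul_assoc]
    have hsq := mul_pow_sq hp (x := y) (y := z⁻¹) (w := w⁻¹) e2
      ((show Commute w y from hwc y).inv_left) ((show Commute w z from hwc z).inv_inv)
      (by rw [inv_pow, hw1, inv_one])
    have hone : (y * z⁻¹) ^ (p ^ 2) = 1 := by
      rw [hsq, pow_two, pow_mul, hyp, ← pow_mul, inv_pow, mul_inv_cancel]
    have hc := h _ hone
    have hyz : Commute y z := by
      have h1 := hc z
      rw [inv_mul_cancel_right] at h1
      show y * z = z * y
      calc y * z = z * (y * z⁻¹) * z := by rw [← h1]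
        _ = z * y := by group
    have h5 : (y * z⁻¹) ^ p = 1 := by
      rw [hyz.inv_right.mul_pow, inv_pow, hyp, mul_inv_cancel]
    have h6 : ⁅z, k⁆ = (y * z⁻¹)⁻¹ := by
      rw [commutatorElement_def, hy]; group
    rw [h6, inv_pow, h5, inv_one]

/-- [RK82 P1] Proof: strong induction on `|K|` (over all finite `p`-groups with `PC`; the induction
is over a fixed universe).  If `zpowers z = ⊤` then `k` commutes with `z`.  Otherwise `z` lies in a
maximal subgroup `M` (coatom), which is normal (`Group.IsNilpotent`, normalizer condition), so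
`y = k * z * k⁻¹ ∈ M`; `M` has `PC`, and by induction `w = ⁅z, y⁆` satisfies `w ^ p = 1`, so `w` is
central in `K`.  `z ^ p` has order dividing `p ^ 2`, so it is central and `y ^ p = z ^ p`.
By `mul_pow_sq`, `(y * z⁻¹) ^ (p^2) = y ^ (p^2) * z⁻¹ ^ (p^2) = 1`, so `y * z⁻¹` is central; so `y`
commutes with `z` and `(y * z⁻¹) ^ p = y ^ p * (z ^ p)⁻¹ = 1`; finally `⁅z, k⁆` is the inverse of
`⁅k, z⁆ = y * z⁻¹`. -/
theorem PC.comm_pow {p : ℕ} (hp : p.Prime) {K : Type*} [Group K] [Finite K] (hK : IsPGroup p K)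
    (h : PC p K) (z : K) (hz : z ^ (p ^ 3) = 1) (k : K) : ⁅z, k⁆ ^ p = 1 :=
  PC_comm_pow_aux hp _ K rfl hK h z hz k

end MP_b83a82_al.H82
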