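import Pool.Agent.Lib.MP_b83a82_al.H82.Pc2

namespace MP_b83a82_al.H82

open scoped commutatorElement

/-- the (central) subgroup of elements with `x ^ p = 1`. -/
def om1 {p : ℕ} {K : Type*} [Group K] (h : PC p K) : Subgroup K where
  carrier := {x | x ^ p = 1}
  mul_mem' := by
    intro a b ha hb
    have ha' : a ^ (p ^ 2) = 1 := by
      rw [pow_two, pow_mul, show a ^ p = 1 from ha, one_pow]
    have hc : Commute a b := h a ha' b
    change (a * b) ^ p = 1
    rw [hc.mul_pow, show a ^ p = 1 from ha, show b ^ p = 1 from hb, one_mul]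
  one_mem' := one_pow p
  inv_mem' := by
    intro a ha
    change a⁻¹ ^ p = 1
    rw [inv_pow, show a ^ p = 1 from ha, inv_one]

theorem mem_om1 {p : ℕ} {K : Type*} [Group K] {h : PC p K} {x : K} : x ∈ om1 h ↔ x ^ p = 1 :=
  Iff.rfl

theorem om1_central {p : ℕ} {K : Type*} [Group K] (h : PC p K) {x : K} (hx : x ∈ om1 h) (y : K) :
    x * y = y * x := by
  refine h x ?_ y
  rw [pow_two, pow_mul, mem_om1.mp hx, one_pow]

instance om1_normal {p : ℕ} {K : Type*} [Group K] (h : PC p K) : (om1 h).Normal := by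
  constructor
  intro x hx g
  rw [mem_om1, conj_pow, mem_om1.mp hx, mul_one, mul_inv_cancel]

/-- [RK82 P2] the quotient by `om1` is again `p^2`-central: if `x ^ (p^2) ∈ om1` then
`x ^ (p^3) = 1` and `⁅x, k⁆ ∈ om1` by `PC.comm_pow`. -/
theorem PC.quot {p : ℕ} (hp : p.Prime) {K : Type*} [Group K] [Finite K] (hK : IsPGroup p K)
    (h : PC p K) : PC p (K ⧸ om1 h) := by
  intro X hX Y
  obtain ⟨x, rfl⟩ := QuotientGroup.mk_surjective X
  obtain ⟨y, rfl⟩ := QuotientGroup.mk_surjective Y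
  have h1 : x ^ (p ^ 2) ∈ om1 h := by
    rw [← QuotientGroup.eq_one_iff, QuotientGroup.mk_pow]
    exact hX
  have h2 : x ^ (p ^ 3) = 1 := by
    rw [mem_om1, ← pow_mul] at h1
    rw [pow_succ]
    exact h1
  have h3 : ⁅x, y⁆ ∈ om1 h := h.comm_pow hp hK x h2 y
  rw [← QuotientGroup.eq_one_iff] at h3
  have h4 : ⁅(x : K ⧸ om1 h), (y : K ⧸ om1 h)⁆ = 1 := h3
  exact commutatorElement_eq_one_iff_mul_comm.1 h4

/-- [RK82 P2] if `K` is nontrivial then `om1` is nontrivial, so the quotient is smaller. -/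
theorem card_quot_lt {p : ℕ} (hp : p.Prime) {K : Type*} [Group K] [Finite K] (hK : IsPGroup p K)
    (h : PC p K) (hne : Nontrivial K) : Nat.card (K ⧸ om1 h) < Nat.card K := by
  haveI : Fact p.Prime := ⟨hp⟩
  obtain ⟨n, hn, hcard⟩ := hK.nontrivial_iff_card.1 hne
  have hdvd : p ∣ Nat.card K := by
    rw [hcard]
    exact dvd_pow_self p (by omega)
  obtain ⟨x, hx⟩ := exists_prime_orderOf_dvd_card' p hdvd
  have hx1 : x ∈ om1 h := by
    rw [mem_om1, ← hx]
    exact pow_orderOf_eq_one x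
  have hxne : x ≠ 1 := by
    intro h1
    rw [h1, orderOf_one] at hx
    exact hp.one_lt.ne hx
  have hnt : 1 < Nat.card (om1 h) := by
    haveI : Nontrivial (om1 h) := ⟨⟨x, hx1⟩, 1, fun h1 => hxne (congrArg Subtype.val h1)⟩
    exact Finite.one_lt_card
  rw [Subgroup.card_eq_card_quotient_mul_card_subgroup (om1 h)]
  have hpos : 0 < Nat.card (K ⧸ om1 h) := Nat.card_pos
  exact lt_mul_of_one_lt_right hpos hnt

end MP_b83a82_al.H82
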