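import Pool.Agent.Lib.MP_b83a82_al.H82.Pc3

namespace MP_b83a82_al.H82

open scoped commutatorElement

universe u

private theorem Pc5_mk {p : ℕ} {K : Type*} [Group K] (h : PC p K) (x : K) (k : ℕ) :
    ((x : K ⧸ om1 h)) ^ (p ^ k) = 1 ↔ x ^ (p ^ (k + 1)) = 1 := by
  rw [← QuotientGroup.mk_pow, QuotientGroup.eq_one_iff, mem_om1, ← _root_.pow_mul, ← pow_succ]

private theorem Pc5_pgroup {p : ℕ} {K : Type*} [Group K] (hK : IsPGroup p K) (h : PC p K) :
    IsPGroup p (K ⧸ om1 h) := hK.to_quotient (om1 h)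

/-- induction through the quotients by `om1` -/
private theorem Pc5_induct {p : ℕ} (hp : p.Prime)
    (P : ∀ (K : Type u) [Group K], Prop)
    (h0 : ∀ (K : Type u) [Group K], Subsingleton K → P K)
    (h1 : ∀ (K : Type u) [Group K] [Finite K] (_ : IsPGroup p K) (h : PC p K),
      P (K ⧸ om1 h) → P K) :
    ∀ (K : Type u) [Group K] [Finite K], IsPGroup p K → PC p K → P K := by
  have key : ∀ (n : ℕ) (K : Type u) [Group K] [Finite K], IsPGroup p K → PC p K →
      Nat.card K = n → P K := by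
    intro n
    induction n using Nat.strong_induction_on with
    | _ n ih =>
      intro K _ _ hK h hn
      rcases subsingleton_or_nontrivial K with hs | hne
      · exact h0 K hs
      · refine h1 K hK h (ih (Nat.card (K ⧸ om1 h)) ?_ (K ⧸ om1 h) (Pc5_pgroup hK h)
          (PC.quot hp hK h) rfl)
        rw [← hn]
        exact card_quot_lt hp hK h hne
  intro K _ _ hK h
  exact key _ K hK h rfl

/-- [RK82 P4] Proof: strong induction on `|K|`: in `Q = K ⧸ om1 h` we get `(a * b⁻¹) ^ p ∈ om1`, so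
`(a * b⁻¹) ^ (p^2) = 1`, so `a * b⁻¹` is central, `a` and `b` commute. -/
theorem PC.inj {p : ℕ} (hp : p.Prime) {K : Type*} [Group K] [Finite K] (hK : IsPGroup p K)
    (h : PC p K) (a b : K) (hab : a ^ p = b ^ p) : (a * b⁻¹) ^ p = 1 := by
  revert a b
  refine Pc5_induct hp (fun K [Group K] => ∀ a b : K, a ^ p = b ^ p → (a * b⁻¹) ^ p = 1)
    ?_ ?_ K hK h
  · intro K _ hs a b _
    exact Subsingleton.elim _ _
  · intro K _ _ hK h ih a b hab
    have h1 : ((a * b⁻¹ : K) : K ⧸ om1 h) ^ p = 1 := by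
      have := ih (a : K ⧸ om1 h) (b : K ⧸ om1 h)
        (by rw [← QuotientGroup.mk_pow, ← QuotientGroup.mk_pow, hab])
      rwa [← QuotientGroup.mk_inv, ← QuotientGroup.mk_mul] at this
    have h2 : (a * b⁻¹) ^ (p ^ 2) = 1 := by
      have h3 := (Pc5_mk h (a * b⁻¹) 1).1 (by rwa [pow_one])
      simpa using h3
    have hc : Commute (a * b⁻¹) b := h _ h2 b
    have h4 : a ^ p = (a * b⁻¹) ^ p * b ^ p := by
      rw [← hc.mul_pow, inv_mul_cancel_right]
    rw [hab] at h4
    exact (mul_eq_right.1 h4.symm)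

/-- [RK82 P4] induction on `k`: `(a^(p^(k-1)))^p = (b^(p^(k-1)))^p`, so by `PC.inj`
`a^(p^(k-1)) = b^(p^(k-1))` in `Q = K ⧸ om1 h`; induction hypothesis in `Q`. -/
theorem PC.inj_pow {p : ℕ} (hp : p.Prime) {K : Type*} [Group K] [Finite K] (hK : IsPGroup p K)
    (h : PC p K) (k : ℕ) (a b : K) (hab : a ^ (p ^ k) = b ^ (p ^ k)) :
    (a * b⁻¹) ^ (p ^ k) = 1 := by
  induction k generalizing K with
  | zero =>
    simp only [pow_zero, pow_one] at hab ⊢
    rw [hab, mul_inv_cancel]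
  | succ k ih =>
    have h1 : (a ^ (p ^ k)) ^ p = (b ^ (p ^ k)) ^ p := by
      rw [← _root_.pow_mul, ← _root_.pow_mul, ← pow_succ, hab]
    have h2 := PC.inj hp hK h _ _ h1
    have h3 : (a : K ⧸ om1 h) ^ (p ^ k) = (b : K ⧸ om1 h) ^ (p ^ k) := by
      have h4 : ((a ^ (p ^ k) * (b ^ (p ^ k))⁻¹ : K) : K ⧸ om1 h) = 1 :=
        (QuotientGroup.eq_one_iff _).2 (mem_om1.2 h2)
      rw [QuotientGroup.mk_mul, QuotientGroup.mk_inv, mul_inv_eq_one] at h4
      rw [← QuotientGroup.mk_pow, ← QuotientGroup.mk_pow, h4]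
    have h5 := ih (Pc5_pgroup hK h) (PC.quot hp hK h) (a : K ⧸ om1 h) (b : K ⧸ om1 h) h3
    rw [← QuotientGroup.mk_inv, ← QuotientGroup.mk_mul] at h5
    exact (Pc5_mk h (a * b⁻¹) k).1 h5

/-- [RK82 P4] the elements with `x ^ (p^k) = 1` form a subgroup (induction on `k` via `Q`). -/
theorem PC.mul_mem {p : ℕ} (hp : p.Prime) {K : Type*} [Group K] [Finite K] (hK : IsPGroup p K)
    (h : PC p K) (k : ℕ) (a b : K) (ha : a ^ (p ^ k) = 1) (hb : b ^ (p ^ k) = 1) :
    (a * b) ^ (p ^ k) = 1 := by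
  induction k generalizing K with
  | zero =>
    simp only [pow_zero, pow_one] at ha hb ⊢
    rw [ha, hb, mul_one]
  | succ k ih =>
    have h5 := ih (Pc5_pgroup hK h) (PC.quot hp hK h) (a : K ⧸ om1 h) (b : K ⧸ om1 h)
      ((Pc5_mk h a k).2 ha) ((Pc5_mk h b k).2 hb)
    rw [← QuotientGroup.mk_mul] at h5
    exact (Pc5_mk h (a * b) k).1 h5

/-- [RK82 P4] elements of order dividing `p^i` commute with `p^i`-th powers.  Induction on `i`: in
`Q` the element `x` has order dividing `p^i`, so `e = ⁅x, y ^ (p^i)⁆ ∈ om1` is central of order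
dividing `p` and `⁅x, (y ^ (p^i)) ^ p⁆ = e ^ p = 1`. -/
theorem PC.comm_pw {p : ℕ} (hp : p.Prime) {K : Type*} [Group K] [Finite K] (hK : IsPGroup p K)
    (h : PC p K) (i : ℕ) (x y : K) (hx : x ^ (p ^ i) = 1) : Commute x (y ^ (p ^ i)) := by
  induction i generalizing K with
  | zero =>
    simp only [pow_zero, pow_one] at hx ⊢
    rw [hx]
    exact Commute.one_left _
  | succ i ih =>
    have h5 := ih (Pc5_pgroup hK h) (PC.quot hp hK h) (x : K ⧸ om1 h) (y : K ⧸ om1 h)
      ((Pc5_mk h x i).2 hx)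
    set z : K := y ^ (p ^ i) with hz
    have he : ⁅x, z⁆ ∈ om1 h := by
      rw [← QuotientGroup.eq_one_iff, commutatorElement_def]
      have h6 : (x : K ⧸ om1 h) * (z : K ⧸ om1 h) = (z : K ⧸ om1 h) * (x : K ⧸ om1 h) := by
        have h7 := h5.eq
        rw [← QuotientGroup.mk_pow, ← hz] at h7
        exact h7
      rw [QuotientGroup.mk_mul, QuotientGroup.mk_mul, QuotientGroup.mk_mul, h6,
        QuotientGroup.mk_inv, QuotientGroup.mk_inv, mul_inv_cancel_right, mul_inv_cancel]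
    have hc : Commute ⁅x, z⁆ z := om1_central h he z
    have h8 : x * z * x⁻¹ = ⁅x, z⁆ * z := by
      rw [commutatorElement_def, inv_mul_cancel_right]
    have h9 : x * z ^ p * x⁻¹ = z ^ p := by
      rw [← conj_pow, h8, hc.mul_pow, mem_om1.1 he, one_mul]
    have h10 : y ^ (p ^ (i + 1)) = z ^ p := by
      rw [hz, ← _root_.pow_mul, ← pow_succ]
    rw [h10]
    exact mul_inv_eq_iff_eq_mul.1 h9

private theorem Pc5_pow_mul0 {p : ℕ} (hp : p.Prime) {K : Type*} [Group K] [Finite K]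
    (hK : IsPGroup p K) (h : PC p K) (i : ℕ) (x y : K) (hx : x ^ (p ^ (i + 1)) = 1)
    (hy : y ^ (p ^ (i + 1)) = 1) :
    (x * y) ^ (p ^ i) = x ^ (p ^ i) * y ^ (p ^ i) := by
  induction i generalizing K with
  | zero => simp only [pow_zero, pow_one]
  | succ i ih =>
    have h5 := ih (Pc5_pgroup hK h) (PC.quot hp hK h) (x : K ⧸ om1 h) (y : K ⧸ om1 h)
      ((Pc5_mk h x (i + 1)).2 hx) ((Pc5_mk h y (i + 1)).2 hy)
    rw [← QuotientGroup.mk_mul, ← QuotientGroup.mk_pow, ← QuotientGroup.mk_pow,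
      ← QuotientGroup.mk_pow, ← QuotientGroup.mk_mul, QuotientGroup.eq] at h5
    set X : K := x ^ (p ^ i) with hX
    set Y : K := y ^ (p ^ i) with hY
    set T : K := (x * y) ^ (p ^ i) with hT
    have hX2 : X ^ (p ^ 2) = 1 := by
      rw [hX, ← _root_.pow_mul, ← pow_add, ← hx]
    have hY2 : Y ^ (p ^ 2) = 1 := by
      rw [hY, ← _root_.pow_mul, ← pow_add, ← hy]
    have hXc : Commute X Y := h X hX2 Y
    set e : K := T⁻¹ * (X * Y) with he
    have hec : Commute T e := (om1_central h h5 T : e * T = T * e).symm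
    have h6 : T * e = X * Y := by rw [he, mul_inv_cancel_left]
    have h7 : T ^ p * e ^ p = X ^ p * Y ^ p := by
      rw [← hec.mul_pow, h6, hXc.mul_pow]
    rw [mem_om1.1 h5, mul_one] at h7
    rw [pow_succ, _root_.pow_mul, _root_.pow_mul, _root_.pow_mul]
    exact h7

/-- [RK82 P5] the `p^i`-th power map is multiplicative on elements of order dividing `p^(k+i+1)`,
modulo elements of order dividing `p^k`.  First `k = 0` by induction on `i` (`i+1`: in `Q`,
`(x y)^(p^i) = x^(p^i) y^(p^i) e` with `e ∈ om1`; `x^(p^i)`, `y^(p^i)` have order dividing `p^2`, so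
they are central; take `p`-th powers), then induction on `k` via `Q`. -/
theorem PC.pow_mul {p : ℕ} (hp : p.Prime) {K : Type*} [Group K] [Finite K] (hK : IsPGroup p K)
    (h : PC p K) (k i : ℕ) (x y : K) (hx : x ^ (p ^ (k + i + 1)) = 1)
    (hy : y ^ (p ^ (k + i + 1)) = 1) :
    (((x * y) ^ (p ^ i))⁻¹ * (x ^ (p ^ i) * y ^ (p ^ i))) ^ (p ^ k) = 1 := by
  induction k generalizing K with
  | zero =>
    rw [zero_add] at hx hy
    rw [Pc5_pow_mul0 hp hK h i x y hx hy, inv_mul_cancel, one_pow]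
  | succ k ih =>
    have e1 : k + 1 + i + 1 = (k + i + 1) + 1 := by omega
    rw [e1] at hx hy
    have h5 := ih (Pc5_pgroup hK h) (PC.quot hp hK h) (x : K ⧸ om1 h) (y : K ⧸ om1 h)
      ((Pc5_mk h x (k + i + 1)).2 hx) ((Pc5_mk h y (k + i + 1)).2 hy)
    refine (Pc5_mk h _ k).1 ?_
    exact h5

end MP_b83a82_al.H82
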